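import Mathlib

/-!
The growth lemma of Borel, without continuity, and filters of large radii.
-/

set_option autoImplicit false

namespace Pool.Agent.N131.SR

open MeasureTheory Set Filter Topology

/-- **The growth lemma of Borel.** -/
theorem borel {S : ℝ → ℝ} (hm : MonotoneOn S (Ici 1)) (h1 : ∀ r, 1 ≤ r → 1 ≤ S r) :
    volume {r | 1 ≤ r ∧ 2 * S r < S (r + 1 / S r)} < ⊤ := by
  set E : ℕ → Set ℝ := fun k => {r | 1 ≤ r ∧ 2 * S r < S (r + 1 / S r) ∧
    (2 : ℝ) ^ k ≤ S r ∧ S r < 2 ^ (k + 1)} with hE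
  have hsub : {r | 1 ≤ r ∧ 2 * S r < S (r + 1 / S r)} ⊆ ⋃ k, E k := by
    rintro r ⟨hr, hr2⟩
    obtain ⟨k, hk1, hk2⟩ := exists_nat_pow_near (h1 r hr) (one_lt_two (α := ℝ))
    exact mem_iUnion.2 ⟨k, hr, hr2, hk1, hk2⟩
  have hdiam : ∀ k, volume (E k) ≤ (2⁻¹ : ENNReal) ^ k := by
    intro k
    refine (Real.volume_le_diam _).trans ?_
    apply Metric.ediam_le
    have key : ∀ r ∈ E k, ∀ s ∈ E k, r ≤ s → edist r s ≤ (2⁻¹ : ENNReal) ^ k := by
      rintro r ⟨hr, hr2, hr3, hr4⟩ s ⟨hs, hs2, hs3, hs4⟩ hrs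
      have hpos : 0 < S r := lt_of_lt_of_le one_pos (h1 r hr)
      have h5 : s - r ≤ 1 / S r := by
        by_contra hcon
        push Not at hcon
        have h6 : S (r + 1 / S r) ≤ S s :=
          hm (mem_Ici.2 (by have : 0 < 1 / S r := by positivity
                            linarith)) (mem_Ici.2 hs) (by linarith)
        rw [pow_succ] at hs4
        linarith
      have h7 : 1 / S r ≤ (2⁻¹ : ℝ) ^ k := by
        rw [inv_pow, ← one_div]
        exact one_div_le_one_div_of_le (by positivity) hr3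
      rw [edist_dist, dist_comm, Real.dist_eq, abs_of_nonneg (by linarith)]
      have h8 : (2⁻¹ : ENNReal) ^ k = ENNReal.ofReal ((2⁻¹ : ℝ) ^ k) := by
        rw [ENNReal.ofReal_pow (by norm_num), ENNReal.ofReal_inv_of_pos (by norm_num),
          ENNReal.ofReal_ofNat]
      rw [h8]
      exact ENNReal.ofReal_le_ofReal (by linarith)
    intro r hr s hs
    rcases le_total r s with h | h
    · exact key r hr s hs h
    · rw [edist_comm]
      exact key s hs r hr h
  calc volume {r | 1 ≤ r ∧ 2 * S r < S (r + 1 / S r)} ≤ volume (⋃ k, E k) := measure_mono hsub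
    _ ≤ ∑' k, volume (E k) := measure_iUnion_le _
    _ ≤ ∑' k, (2⁻¹ : ENNReal) ^ k := ENNReal.tsum_le_tsum hdiam
    _ < ⊤ := by
      rw [ENNReal.tsum_geometric, ENNReal.one_sub_inv_two, inv_inv]
      exact ENNReal.ofNat_lt_top

/-- a filter of large radii which ignores sets of finite measure -/
structure Big (L : Filter ℝ) : Prop where
  ne : L.NeBot
  top : L ≤ atTop
  fin : ∀ E : Set ℝ, volume E < ⊤ → Eᶜ ∈ L

/-- from sets of infinite measure to a filter -/
theorem exists_big {P : ℕ → ℝ → Prop} (hm : ∀ n m r, n ≤ m → P m r → P n r)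
    (hP : ∀ n, volume {r | 1 ≤ r ∧ P n r} = ⊤) :
    ∃ L : Filter ℝ, Big L ∧ ∀ n, ∀ᶠ r in L, P n r := by
  set S : ℕ → Set ℝ := fun n => {r | 1 ≤ r ∧ P n r} with hS
  let L : Filter ℝ :=
    { sets := {U | ∃ n, volume (S n \ U) < ⊤}
      univ_sets := ⟨0, by simp⟩
      sets_of_superset := by
        rintro U V ⟨n, hn⟩ hUV
        exact ⟨n, (measure_mono (diff_subset_diff_right hUV)).trans_lt hn⟩
      inter_sets := by
        rintro U V ⟨n, hn⟩ ⟨m, hm'⟩
        refine ⟨max n m, ?_⟩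
        have h1 : S (max n m) \ (U ∩ V) ⊆ (S n \ U) ∪ (S m \ V) := by
          rintro r ⟨⟨hr, hr2⟩, hr3⟩
          by_cases hU : r ∈ U
          · right
            exact ⟨⟨hr, hm _ _ _ (le_max_right n m) hr2⟩, fun hV => hr3 ⟨hU, hV⟩⟩
          · left
            exact ⟨⟨hr, hm _ _ _ (le_max_left n m) hr2⟩, hU⟩
        exact ((measure_mono h1).trans (measure_union_le _ _)).trans_lt
          (ENNReal.add_lt_top.2 ⟨hn, hm'⟩) }
  have hmem : ∀ U : Set ℝ, U ∈ L ↔ ∃ n, volume (S n \ U) < ⊤ := fun U => Iff.rfl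
  refine ⟨L, ⟨?_, ?_, ?_⟩, ?_⟩
  · constructor
    intro hbot
    have h1 : (∅ : Set ℝ) ∈ L := by
      rw [hbot]
      trivial
    obtain ⟨n, hn⟩ := (hmem _).1 h1
    rw [diff_empty] at hn
    exact hn.ne (hP n)
  · rw [atTop_basis.ge_iff]
    intro a _
    refine (hmem _).2 ⟨0, ?_⟩
    have h1 : S 0 \ Ici a ⊆ Icc 1 a := by
      rintro r ⟨⟨hr, -⟩, hr2⟩
      exact ⟨hr, (not_le.1 hr2).le⟩
    refine (measure_mono h1).trans_lt ?_
    rw [Real.volume_Icc]
    exact ENNReal.ofReal_lt_top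
  · intro E hE
    refine (hmem _).2 ⟨0, ?_⟩
    have h1 : S 0 \ Eᶜ ⊆ E := by
      rintro r ⟨-, hr2⟩
      exact not_not.1 hr2
    exact (measure_mono h1).trans_lt hE
  · intro n
    refine (hmem _).2 ⟨n, ?_⟩
    have h1 : S n \ {r | P n r} = ∅ := by
      ext r
      constructor
      · rintro ⟨⟨-, hr⟩, hr2⟩
        exact hr2 hr
      · exact fun h => h.elim
    rw [h1, measure_empty]
    exact ENNReal.zero_lt_top

end Pool.Agent.N131.SR
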