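import Mathlib
import Pool.Agent.Helper160.NevLib
import Pool.Agent.N131.SR.Borel

/-!
The lemma on the logarithmic derivative on the plane.
-/

set_option autoImplicit false

namespace Pool.Agent.N131.SR

open MeasureTheory Set Filter Topology Metric Real ValueDistribution MeromorphicOn Function
open Function.locallyFinsuppWithin
open Pool.Agent.Helper160.Nev (avg_log_sum exists_const)

/-- counting functions from below -/
theorem count_ge {D : locallyFinsupp ℂ ℤ} (hD : 0 ≤ D) {R R' : ℝ} (hR : 1 ≤ R) (hRR : R < R')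
    (G : Finset ℂ) (hG : ∀ u ∈ G, ‖u‖ ≤ R) :
    (∑ u ∈ G, (D u : ℝ)) * (log R' - log R) ≤ locallyFinsuppWithin.logCounting D R' := by
  classical
  have hR0 : 0 < R := by linarith
  have hR'0 : 0 < R' := by linarith
  have habs : |R'| = R' := abs_of_pos hR'0
  have hnn : ∀ z, (0 : ℝ) ≤ (D z : ℝ) := fun z => by exact_mod_cast hD z
  have hs : (toClosedBall R' D).support.Finite :=
    (toClosedBall R' D).finiteSupport (isCompact_closedBall 0 |R'|)
  have hG' : ∀ u ∈ G, u ∈ closedBall (0 : ℂ) |R'| := by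
    intro u hu
    rw [habs, mem_closedBall_zero_iff]
    linarith [hG u hu]
  have hlog : ∀ z ∈ closedBall (0 : ℂ) |R'|, 0 ≤ log (R' * ‖z‖⁻¹) := by
    intro z hz
    rcases eq_or_ne z 0 with rfl | h
    · simp
    · apply Real.log_nonneg
      rw [habs, mem_closedBall_zero_iff] at hz
      have : 0 < ‖z‖ := norm_pos_iff.2 h
      rw [← div_eq_mul_inv, one_le_div this]
      exact hz
  have e1 : locallyFinsuppWithin.logCounting D R' =
      ∑ z ∈ hs.toFinset ∪ G, (toClosedBall R' D z : ℝ) * log (R' * ‖z‖⁻¹) + (D 0) * log R' := by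
    change ∑ᶠ z, (toClosedBall R' D z : ℝ) * log (R' * ‖z‖⁻¹) + (D 0) * log R' = _
    congr 1
    apply finsum_eq_sum_of_support_subset
    intro z hz
    rw [Finset.coe_union]
    left
    rw [Finset.mem_coe, Set.Finite.mem_toFinset]
    intro h0
    apply hz
    simp only
    rw [h0]
    simp
  rw [e1, Finset.sum_mul]
  have h2 : ∑ z ∈ G, (D z : ℝ) * log (R' * ‖z‖⁻¹) ≤
      ∑ z ∈ hs.toFinset ∪ G, (toClosedBall R' D z : ℝ) * log (R' * ‖z‖⁻¹) := by
    have h3 : ∑ z ∈ G, (D z : ℝ) * log (R' * ‖z‖⁻¹) =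
        ∑ z ∈ G, (toClosedBall R' D z : ℝ) * log (R' * ‖z‖⁻¹) := by
      apply Finset.sum_congr rfl
      intro z hz
      rw [toClosedBall_eval_within _ (hG' z hz)]
    rw [h3]
    apply Finset.sum_le_sum_of_subset_of_nonneg Finset.subset_union_right
    intro z _ _
    by_cases hz : z ∈ closedBall (0 : ℂ) |R'|
    · rw [toClosedBall_eval_within _ hz]
      exact mul_nonneg (hnn z) (hlog z hz)
    · rw [apply_eq_zero_of_notMem _ hz]
      simp
  have h3 : ∑ u ∈ G, (D u : ℝ) * (log R' - log R) ≤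
      ∑ z ∈ G, ((D z : ℝ) * log (R' * ‖z‖⁻¹) + if z = 0 then (D 0 : ℝ) * log R' else 0) := by
    apply Finset.sum_le_sum
    intro z hz
    by_cases h0 : z = 0
    · subst h0
      rw [if_pos rfl]
      have : 0 ≤ log R := Real.log_nonneg hR
      have h4 := hnn 0
      simp only [norm_zero, inv_zero, mul_zero, Real.log_zero]
      nlinarith
    · rw [if_neg h0, add_zero]
      apply mul_le_mul_of_nonneg_left _ (hnn z)
      have h5 : 0 < ‖z‖ := norm_pos_iff.2 h0
      rw [Real.log_mul hR'0.ne' (by positivity), Real.log_inv]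
      have := Real.log_le_log h5 (hG z hz)
      linarith
  have h4 : ∑ z ∈ G, (if z = 0 then (D 0 : ℝ) * log R' else 0) ≤ (D 0 : ℝ) * log R' := by
    rw [Finset.sum_ite_eq' G (0 : ℂ) fun _ => (D 0 : ℝ) * log R']
    have : 0 ≤ (D 0 : ℝ) * log R' := mul_nonneg (hnn 0) (Real.log_nonneg (by linarith))
    split_ifs
    · exact le_refl _
    · exact this
  rw [Finset.sum_add_distrib] at h3
  linarith

/-- meromorphic functions which do not vanish identically -/
def NZ (g : ℂ → ℂ) : Prop := ∀ z, meromorphicOrderAt g z ≠ ⊤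

theorem number_le {g : ℂ → ℂ} (hg : Meromorphic g) {R R' : ℝ} (hR : 1 ≤ R) (hRR : R < R')
    (h1 : MeromorphicOn g (closedBall 0 R)) :
    (∑ u ∈ (divisor_ball_support_finite h1).toFinset, |(divisor g (ball 0 R) u : ℝ)|) *
      (log R' - log R) ≤ ValueDistribution.logCounting g 0 R' +
        ValueDistribution.logCounting g ⊤ R' := by
  set D := divisor g univ with hD
  set G := (divisor_ball_support_finite h1).toFinset with hG
  have hGb : ∀ u ∈ G, u ∈ ball (0 : ℂ) R := by
    intro u hu
    rw [hG, Set.Finite.mem_toFinset] at hu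
    exact (divisor g (ball 0 R)).supportWithinDomain hu
  have hGn : ∀ u ∈ G, ‖u‖ ≤ R := fun u hu => (mem_ball_zero_iff.1 (hGb u hu)).le
  have e1 := count_ge (D := D⁺) (posPart_nonneg D) hR hRR G hGn
  have e2 := count_ge (D := D⁻) (negPart_nonneg D) hR hRR G hGn
  have e3 : ∑ u ∈ G, |(divisor g (ball 0 R) u : ℝ)| =
      ∑ u ∈ G, ((D⁺ u : ℤ) : ℝ) + ∑ u ∈ G, ((D⁻ u : ℤ) : ℝ) := by
    rw [← Finset.sum_add_distrib]
    apply Finset.sum_congr rfl
    intro u hu
    have e4 : divisor g (ball 0 R) u = D u := by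
      rw [divisor_apply (h1.mono_set ball_subset_closedBall) (hGb u hu), hD,
        divisor_apply hg.meromorphicOn (mem_univ u)]
    have e5 : D⁺ u = (D u)⁺ := rfl
    have e6 : D⁻ u = (D u)⁻ := rfl
    rw [e4, e5, e6]
    have e7 : ((D u)⁺ : ℤ) + (D u)⁻ = |D u| := posPart_add_negPart (D u)
    have e8 : (((D u)⁺ : ℤ) : ℝ) + (((D u)⁻ : ℤ) : ℝ) = ((|D u| : ℤ) : ℝ) := by
      rw [← e7]
      push_cast
      ring
    rw [e8]
    push_cast
    rfl
  rw [logCounting_zero, logCounting_top, e3, add_mul]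
  linarith

theorem abs_log_eq (x : ℝ) : |Real.log x| = log⁺ x + log⁺ x⁻¹ := by
  rw [posLog_apply, posLog_apply, Real.log_inv]
  rcases le_total 0 (Real.log x) with h | h
  · rw [abs_of_nonneg h, max_eq_right h, max_eq_left (by linarith), add_zero]
  · rw [abs_of_nonpos h, max_eq_left h, max_eq_right (by linarith), zero_add]

/-- **The lemma on the logarithmic derivative.** -/
theorem ldl {g : ℂ → ℂ} (hg : Meromorphic g) (h0 : NZ g) :
    ∃ (E : Set ℝ) (C : ℝ), volume E < ⊤ ∧ 0 ≤ C ∧ ∀ r, 1 ≤ r → r ∉ E →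
      proximity (logDeriv g) ⊤ r ≤ C * (1 + log r + log (1 + characteristic g ⊤ r)) := by
  obtain ⟨C0, hC0, hC⟩ := exists_const (α := 1 / 2) (by norm_num) (by norm_num)
  set S : ℝ → ℝ := fun r => 1 + characteristic g ⊤ r with hS
  have hT0 : ∀ r, 1 ≤ r → 0 ≤ characteristic g ⊤ r := fun r hr => characteristic_nonneg hr
  have hSm : MonotoneOn S (Ici 1) := by
    intro a ha b hb hab
    have := characteristic_monotoneOn hg (mem_Ioi.2 (lt_of_lt_of_le one_pos ha))
      (mem_Ioi.2 (lt_of_lt_of_le one_pos hb)) hab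
    simp only [hS]
    linarith
  have hS1 : ∀ r, 1 ≤ r → 1 ≤ S r := fun r hr => by
    have := hT0 r hr
    simp only [hS]
    linarith
  set A : ℝ := max |log ‖g 0‖| |log ‖meromorphicTrailingCoeffAt g 0‖| with hA
  have hA0 : 0 ≤ A := le_trans (abs_nonneg _) (le_max_left _ _)
  have hinv : ∀ r, characteristic g⁻¹ ⊤ r ≤ characteristic g ⊤ r + A := by
    intro r
    have := characteristic_sub_characteristic_inv_le hg (R := r)
    rw [← hA] at this
    have := (abs_le.1 this).1
    linarith
  set K : ℝ := 2 + 6 * (4 + A) + 2 * C0 * (6 * (4 + A)) with hK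
  have hK1 : 1 ≤ K := by
    have : 0 ≤ 2 * C0 * (6 * (4 + A)) := by positivity
    linarith
  refine ⟨{r | 1 ≤ r ∧ 2 * S r < S (r + 1 / S r)}, 2 * log K + 6, borel hSm hS1, by
    have := Real.log_nonneg hK1
    positivity, ?_⟩
  intro r hr hrE
  have hE : S (r + 1 / S r) ≤ 2 * S r := by
    by_contra hcon
    exact hrE ⟨hr, not_le.1 hcon⟩
  have hs := hS1 r hr
  have hs0 : 0 < S r := by linarith
  have hd0 : 0 < 1 / S r := by positivity
  have hd1 : 1 / S r ≤ 1 := by
    rw [div_le_one hs0]
    exact hs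
  -- a good radius
  obtain ⟨R, ⟨hRa, hRb⟩, hRgood⟩ : ∃ R ∈ Ioo (r + 1 / S r / 3) (r + 2 * (1 / S r) / 3),
      ∀ u ∈ sphere (0 : ℂ) R, meromorphicOrderAt g u = 0 := by
    have hfin : (norm '' (Pool.Agent.Helper160.Nev.zp g (r + 1))).Finite :=
      (Pool.Agent.Helper160.Nev.zp_finite (hg.meromorphicOn)).image _
    obtain ⟨R, hR1, hR2⟩ := (Set.Ioo_infinite (show r + 1 / S r / 3 < r + 2 * (1 / S r) / 3 by
      linarith)).exists_notMem_finite hfin
    refine ⟨R, hR1, ?_⟩
    intro u hu
    rw [mem_sphere_zero_iff_norm] at hu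
    by_contra hne
    apply hR2
    refine ⟨u, ⟨?_, ?_⟩, hu⟩
    · rw [mem_closedBall_zero_iff, hu]
      have := hR1.2
      linarith
    · obtain ⟨n, hn⟩ := WithTop.ne_top_iff_exists.1 (h0 u)
      intro h4
      apply hne
      rw [← hn] at h4 ⊢
      simp only [WithTop.untop₀_coe] at h4
      rw [h4]
      rfl
  have hR1 : 1 ≤ R := by linarith
  have hR0 : 0 < R := by linarith
  set R' : ℝ := r + 1 / S r with hR'
  have hRR' : R < R' := by linarith
  have hrR : r < R := by linarith
  have hmero : ∀ _ : Unit, MeromorphicOn g (closedBall 0 R) := fun _ => hg.meromorphicOn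
  have hmain := avg_log_sum (Finset.univ : Finset Unit) (fun _ => g) (r := r) (R := R)
    (α := 1 / 2) (C := C0) (by linarith) hrR (by norm_num) (by norm_num) hmero
    (fun _ _ u _ => h0 u) (fun _ _ => hRgood) hC0 (hC r (by linarith))
  rw [Finset.univ_unique, Finset.sum_singleton] at hmain
  have e0 : proximity (logDeriv g) ⊤ r =
      circleAverage (fun w => log⁺ (∑ i ∈ ({()} : Finset Unit), ‖logDeriv g w‖)) 0 r := by
    rw [proximity_top]
    simp only [Finset.sum_singleton]
  have hmain' : proximity (logDeriv g) ⊤ r ≤ 1 / (1 / 2) * log (1 + (1 +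
        2 * R / (R ^ 2 - r ^ 2) * circleAverage (fun ζ => |Real.log ‖g ζ‖|) 0 R +
        ∑ u ∈ (divisor_ball_support_finite (hmero ())).toFinset,
          |(divisor g (ball 0 R) u : ℝ)| * (2 * C0))) := by
    rw [e0]
    exact hmain
  -- the circle average
  have hTR : ∀ ρ, 1 ≤ ρ → ρ ≤ R' → characteristic g ⊤ ρ ≤ 2 * S r := by
    intro ρ h1 h2
    have h3 := hSm (mem_Ici.2 h1) (mem_Ici.2 (h1.trans h2)) h2
    have h4 : characteristic g ⊤ ρ ≤ S ρ := by simp only [hS]; linarith
    linarith
  have hav : circleAverage (fun ζ => |Real.log ‖g ζ‖|) 0 R ≤ (4 + A) * S r := by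
    have h1 : circleAverage (fun ζ => |Real.log ‖g ζ‖|) 0 R =
        proximity g ⊤ R + proximity g⁻¹ ⊤ R := by
      rw [proximity_top, proximity_top, ← circleAverage_fun_add]
      · congr 1
        funext ζ
        simp only [Pi.inv_apply, norm_inv]
        rw [← abs_log_eq]
      · exact hg.meromorphicOn.circleIntegrable_posLog_norm
      · exact hg.inv.meromorphicOn.circleIntegrable_posLog_norm
    have h2 : proximity g ⊤ R ≤ characteristic g ⊤ R := by
      have : 0 ≤ ValueDistribution.logCounting g ⊤ R := logCounting_nonneg hR1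
      unfold characteristic
      simp only [Pi.add_apply]
      linarith
    have h3 : proximity g⁻¹ ⊤ R ≤ characteristic g⁻¹ ⊤ R := by
      have : 0 ≤ ValueDistribution.logCounting g⁻¹ ⊤ R := logCounting_nonneg hR1
      unfold characteristic
      simp only [Pi.add_apply]
      linarith
    have h4 := hTR R hR1 hRR'.le
    have h5 := hinv R
    rw [h1]
    nlinarith
  have hav0 : 0 ≤ circleAverage (fun ζ => |Real.log ‖g ζ‖|) 0 R :=
    circleAverage_nonneg_of_nonneg fun _ _ => abs_nonneg _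
  have hcoef : 2 * R / (R ^ 2 - r ^ 2) ≤ 6 * S r := by
    have h1 : 0 < R - r := by linarith
    have h2 : R ^ 2 - r ^ 2 = (R - r) * (R + r) := by ring
    have h3 : 1 / S r / 3 ≤ R - r := by linarith
    have h4 : 1 / 3 ≤ (R - r) * S r := by
      have := mul_le_mul_of_nonneg_right h3 hs0.le
      have h5 : 1 / S r / 3 * S r = 1 / 3 := by
        field_simp
      linarith
    rw [h2, div_le_iff₀ (by positivity)]
    nlinarith [mul_le_mul_of_nonneg_right h4 (show 0 ≤ R + r by linarith)]
  -- the number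
  have hnum : (∑ u ∈ (divisor_ball_support_finite (hmero ())).toFinset,
      |(divisor g (ball 0 R) u : ℝ)|) ≤ 6 * (4 + A) * (S r * S r * r) := by
    have h1 := number_le hg hR1 hRR' (hmero ())
    set n := ∑ u ∈ (divisor_ball_support_finite (hmero ())).toFinset,
      |(divisor g (ball 0 R) u : ℝ)| with hn
    have hn0 : 0 ≤ n := Finset.sum_nonneg fun _ _ => abs_nonneg _
    have hR'1 : 1 ≤ R' := by linarith
    have h2 : ValueDistribution.logCounting g 0 R' ≤ characteristic g⁻¹ ⊤ R' := by
      have h3 : 0 ≤ proximity g⁻¹ ⊤ R' := proximity_nonneg _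
      unfold characteristic
      simp only [Pi.add_apply]
      rw [logCounting_inv]
      linarith
    have h3 : ValueDistribution.logCounting g ⊤ R' ≤ characteristic g ⊤ R' := by
      have h3 : 0 ≤ proximity g ⊤ R' := proximity_nonneg _
      unfold characteristic
      simp only [Pi.add_apply]
      linarith
    have h4 := hTR R' hR'1 le_rfl
    have h5 := hinv R'
    have h6 : n * (log R' - log R) ≤ (4 + A) * S r := by nlinarith
    have h7 : 1 / S r / 3 / (2 * r) ≤ log R' - log R := by
      have hR'0 : 0 < R' := by linarith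
      have h8 := Real.one_sub_inv_le_log_of_pos (x := R' / R) (by positivity)
      rw [Real.log_div hR'0.ne' hR0.ne'] at h8
      refine le_trans ?_ h8
      rw [inv_div]
      have h9 : 1 - R / R' = (R' - R) / R' := by
        field_simp
      rw [h9]
      have h10 : 1 / S r / 3 ≤ R' - R := by linarith
      have h11 : R' ≤ 2 * r := by linarith
      exact div_le_div₀ (by linarith) h10 hR'0 h11
    have h8 : n * (1 / S r / 3 / (2 * r)) ≤ (4 + A) * S r :=
      (mul_le_mul_of_nonneg_left h7 hn0).trans h6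
    have h9 : n * (1 / S r / 3 / (2 * r)) = n / (6 * r * S r) := by
      field_simp
      ring
    rw [h9, div_le_iff₀ (by positivity)] at h8
    nlinarith
  rw [← Finset.sum_mul] at hmain'
  refine hmain'.trans ?_
  have hbd : 1 + (1 + 2 * R / (R ^ 2 - r ^ 2) * circleAverage (fun ζ => |Real.log ‖g ζ‖|) 0 R +
        (∑ u ∈ (divisor_ball_support_finite (hmero ())).toFinset,
          |(divisor g (ball 0 R) u : ℝ)|) * (2 * C0)) ≤ K * (S r * S r * r) := by
    have h1 : 2 * R / (R ^ 2 - r ^ 2) * circleAverage (fun ζ => |Real.log ‖g ζ‖|) 0 R ≤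
        (6 * S r) * ((4 + A) * S r) := mul_le_mul hcoef hav hav0 (by positivity)
    have h2 := mul_le_mul_of_nonneg_right hnum (by positivity : 0 ≤ 2 * C0)
    have h3 : 1 ≤ S r * S r := by nlinarith
    have h4 : S r * S r ≤ S r * S r * r := by nlinarith
    have h5 : 6 * S r * ((4 + A) * S r) ≤ 6 * (4 + A) * (S r * S r * r) := by
      nlinarith
    rw [hK]
    nlinarith
  have hpos : 0 < 1 + (1 + 2 * R / (R ^ 2 - r ^ 2) * circleAverage (fun ζ => |Real.log ‖g ζ‖|) 0 R +
        (∑ u ∈ (divisor_ball_support_finite (hmero ())).toFinset,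
          |(divisor g (ball 0 R) u : ℝ)|) * (2 * C0)) := by
    have h1 : 0 ≤ 2 * R / (R ^ 2 - r ^ 2) := by
      have : 0 < R ^ 2 - r ^ 2 := by nlinarith
      positivity
    have h2 : 0 ≤ (∑ u ∈ (divisor_ball_support_finite (hmero ())).toFinset,
          |(divisor g (ball 0 R) u : ℝ)|) * (2 * C0) :=
      mul_nonneg (Finset.sum_nonneg fun _ _ => abs_nonneg _) (by positivity)
    have := mul_nonneg h1 hav0
    linarith
  have hlog := Real.log_le_log hpos hbd
  have hK0 : 0 < K := by linarith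
  have hr0 : 0 < r := by linarith
  rw [Real.log_mul hK0.ne' (by positivity), Real.log_mul (by positivity) hr0.ne',
    Real.log_mul hs0.ne' hs0.ne'] at hlog
  have hlK := Real.log_nonneg hK1
  have hls := Real.log_nonneg hs
  have hlr := Real.log_nonneg hr
  have e9 : (1 : ℝ) / (1 / 2) = 2 := by norm_num
  rw [e9]
  change _ ≤ (2 * log K + 6) * (1 + log r + log (S r))
  nlinarith [mul_nonneg hlK hls, mul_nonneg hlK hlr]

end Pool.Agent.N131.SR
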