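import Mathlib
import Pool.Agent.TH143.EL.Mero
import Pool.Agent.N131.SR.Ldl

/-!
Small functions with respect to a comparison function, on a filter of large radii.
-/

set_option autoImplicit false

namespace Pool.Agent.N131.SR

open MeasureTheory Set Filter Topology Metric Real ValueDistribution MeromorphicOn Function
open Asymptotics
open Pool.Agent.TH143.EL (codis_ev codis_of_ev mero_id mero_ne mero_an)

/-- comparison functions -/
structure Cmp (L : Filter ℝ) (τ : ℝ → ℝ) : Prop where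
  big : Big L
  log : Real.log =o[L] τ

variable {L : Filter ℝ} {τ : ℝ → ℝ}

/-- the characteristic is `O(τ)` -/
def OT (L : Filter ℝ) (τ : ℝ → ℝ) (a : ℂ → ℂ) : Prop :=
  Meromorphic a ∧ characteristic a ⊤ =O[L] τ

/-- the characteristic is `o(τ)` -/
def Sm (L : Filter ℝ) (τ : ℝ → ℝ) (a : ℂ → ℂ) : Prop :=
  Meromorphic a ∧ characteristic a ⊤ =o[L] τ

/-- the order of the poles is at most `M` -/
def PL (M : ℕ) (a : ℂ → ℂ) : Prop := ∀ z, ((-(M : ℤ) : ℤ) : WithTop ℤ) ≤ meromorphicOrderAt a z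

theorem Cmp.one (h : Cmp L τ) : (fun _ : ℝ => (1 : ℝ)) =o[L] τ := by
  refine IsBigO.trans_isLittleO ?_ h.log
  apply IsBigO.of_bound 1
  have h1 : ∀ᶠ r : ℝ in L, Real.exp 1 ≤ r := h.big.top (eventually_ge_atTop _)
  filter_upwards [h1] with r hr
  have h2 : 1 ≤ Real.log r := by
    rw [← Real.log_exp 1]
    exact Real.log_le_log (Real.exp_pos 1) hr
  rw [Real.norm_eq_abs, Real.norm_eq_abs, one_mul, abs_one, abs_of_nonneg (by linarith)]
  exact h2

theorem Cmp.const (h : Cmp L τ) (c : ℝ) : (fun _ : ℝ => c) =o[L] τ := by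
  have := h.one.const_mul_left c
  simpa using this

theorem Cmp.ge (h : Cmp L τ) : ∀ᶠ r : ℝ in L, 1 ≤ r := h.big.top (eventually_ge_atTop _)

theorem o_of_ev {s t : ℝ → ℝ} (hst : ∀ᶠ r in L, 0 ≤ s r ∧ s r ≤ t r)
    (ht : t =o[L] τ) : s =o[L] τ := by
  refine IsBigO.trans_isLittleO ?_ ht
  apply IsBigO.of_bound 1
  filter_upwards [hst] with r hr
  obtain ⟨h1, h2⟩ := hr
  rw [Real.norm_eq_abs, Real.norm_eq_abs, one_mul, abs_of_nonneg h1, abs_of_nonneg (h1.trans h2)]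
  exact h2

theorem O_of_ev {s t : ℝ → ℝ} (hst : ∀ᶠ r in L, 0 ≤ s r ∧ s r ≤ t r)
    (ht : t =O[L] τ) : s =O[L] τ := by
  refine IsBigO.trans ?_ ht
  apply IsBigO.of_bound 1
  filter_upwards [hst] with r hr
  obtain ⟨h1, h2⟩ := hr
  rw [Real.norm_eq_abs, Real.norm_eq_abs, one_mul, abs_of_nonneg h1, abs_of_nonneg (h1.trans h2)]
  exact h2

theorem Cmp.o_of_le (h : Cmp L τ) {s t : ℝ → ℝ} (hst : ∀ r, 1 ≤ r → 0 ≤ s r ∧ s r ≤ t r)
    (ht : t =o[L] τ) : s =o[L] τ := o_of_ev (h.ge.mono hst) ht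

theorem Cmp.O_of_le (h : Cmp L τ) {s t : ℝ → ℝ} (hst : ∀ r, 1 ≤ r → 0 ≤ s r ∧ s r ≤ t r)
    (ht : t =O[L] τ) : s =O[L] τ := O_of_ev (h.ge.mono hst) ht

theorem nz_or {a : ℂ → ℂ} (ha : Meromorphic a) : NZ a ∨ ∀ᶠ z in codiscrete ℂ, a z = 0 := by
  by_cases h : ∃ z, meromorphicOrderAt a z ≠ ⊤
  · left
    obtain ⟨z, hz⟩ := h
    intro w
    exact (ha.exists_meromorphicOrderAt_ne_top_iff_forall).1 ⟨z, hz⟩ w
  · right
    push Not at h
    exact codis_of_ev fun z => meromorphicOrderAt_eq_top_iff.1 (h z)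

theorem NZ.ne {a : ℂ → ℂ} (ha : Meromorphic a) (h : NZ a) : ∀ᶠ z in codiscrete ℂ, a z ≠ 0 := by
  apply mero_ne ha
  intro h1
  exact h 0 (meromorphicOrderAt_eq_top_iff.2 (codis_ev h1 0))

theorem nz_of_ne {a : ℂ → ℂ} (ha : Meromorphic a) (h : ∃ᶠ z in codiscrete ℂ, a z ≠ 0) : NZ a := by
  rcases nz_or ha with h1 | h1
  · exact h1
  · exact absurd (h1.mono fun z hz => not_not.2 hz) h

theorem char_nonneg (a : ℂ → ℂ) {r : ℝ} (hr : 1 ≤ r) : 0 ≤ characteristic a ⊤ r :=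
  characteristic_nonneg hr

theorem char_zero {a : ℂ → ℂ} (h : ∀ᶠ z in codiscrete ℂ, a z = 0) {r : ℝ} (hr : r ≠ 0) :
    characteristic a ⊤ r = 0 := by
  have h1 : a =ᶠ[codiscrete ℂ] (fun _ => (0 : ℂ)) := h
  rw [characteristic_congr_codiscrete h1 hr]
  simp [characteristic, proximity_top, circleAverage_const]

theorem prox_zero {a : ℂ → ℂ} (h : ∀ᶠ z in codiscrete ℂ, a z = 0) {r : ℝ} (hr : r ≠ 0) :
    proximity a ⊤ r = 0 := by
  have h1 : a =ᶠ[codiscrete ℂ] (fun _ => (0 : ℂ)) := h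
  rw [proximity_congr_codiscrete h1 hr]
  simp [proximity_top, circleAverage_const]

theorem char_const (c : ℂ) (r : ℝ) : characteristic (fun _ => c) ⊤ r = log⁺ ‖c‖ := by
  simp [characteristic, proximity_top, circleAverage_const]

/-- the characteristic of a product -/
theorem char_mul {a b : ℂ → ℂ} (ha : Meromorphic a) (hb : Meromorphic b) {r : ℝ} (hr : 1 ≤ r) :
    characteristic (fun z => a z * b z) ⊤ r ≤ characteristic a ⊤ r + characteristic b ⊤ r := by
  have hr0 : r ≠ 0 := by positivity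
  have h3 := char_nonneg a hr
  have h4 := char_nonneg b hr
  rcases nz_or ha with h1 | h1
  · rcases nz_or hb with h2 | h2
    · exact characteristic_mul_top_le hr ha h1 hb h2
    · rw [char_zero (a := fun z => a z * b z) _ hr0]
      · positivity
      · filter_upwards [h2] with z hz
        rw [hz, mul_zero]
  · rw [char_zero (a := fun z => a z * b z) _ hr0]
    · positivity
    · filter_upwards [h1] with z hz
      rw [hz, zero_mul]

theorem char_add {a b : ℂ → ℂ} (ha : Meromorphic a) (hb : Meromorphic b) {r : ℝ} (hr : 1 ≤ r) :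
    characteristic (fun z => a z + b z) ⊤ r ≤
      characteristic a ⊤ r + characteristic b ⊤ r + log 2 :=
  characteristic_add_top_le ha hb hr

theorem prox_mul {a b : ℂ → ℂ} (ha : Meromorphic a) (hb : Meromorphic b) (r : ℝ) :
    proximity (fun z => a z * b z) ⊤ r ≤ proximity a ⊤ r + proximity b ⊤ r :=
  proximity_mul_top_le ha hb r

theorem prox_add {a b : ℂ → ℂ} (ha : Meromorphic a) (hb : Meromorphic b) (r : ℝ) :
    proximity (fun z => a z + b z) ⊤ r ≤
      proximity a ⊤ r + proximity b ⊤ r + log 2 :=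
  proximity_add_top_le ha hb r

theorem char_inv {a : ℂ → ℂ} (ha : Meromorphic a) : ∃ C : ℝ, ∀ r,
    characteristic (fun z => (a z)⁻¹) ⊤ r ≤ characteristic a ⊤ r + C := by
  refine ⟨max |log ‖a 0‖| |log ‖meromorphicTrailingCoeffAt a 0‖|, fun r => ?_⟩
  have := (abs_le.1 (characteristic_sub_characteristic_inv_le ha (R := r))).1
  have e : (fun z => (a z)⁻¹) = a⁻¹ := rfl
  rw [e]
  linarith

theorem char_le_of_congr {a b : ℂ → ℂ} (h : ∀ᶠ z in codiscrete ℂ, a z = b z) {r : ℝ}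
    (hr : 1 ≤ r) : characteristic a ⊤ r = characteristic b ⊤ r :=
  characteristic_congr_codiscrete h (by positivity)

section classes

variable (H : Cmp L τ)
include H

theorem sm_const (c : ℂ) : Sm L τ fun _ => c := by
  refine ⟨Meromorphic.const c, ?_⟩
  refine (H.const (log⁺ ‖c‖)).congr_left fun r => ?_
  exact (char_const c r).symm

omit H in
theorem Sm.ot {a : ℂ → ℂ} (h : Sm L τ a) : OT L τ a := ⟨h.1, h.2.isBigO⟩

theorem Sm.mul {a b : ℂ → ℂ} (ha : Sm L τ a) (hb : Sm L τ b) : Sm L τ fun z => a z * b z :=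
  ⟨ha.1.mul hb.1, H.o_of_le (fun _ hr => ⟨char_nonneg _ hr, char_mul ha.1 hb.1 hr⟩)
    (ha.2.add hb.2)⟩

theorem Sm.add {a b : ℂ → ℂ} (ha : Sm L τ a) (hb : Sm L τ b) : Sm L τ fun z => a z + b z :=
  ⟨ha.1.add hb.1, H.o_of_le (fun _ hr => ⟨char_nonneg _ hr, char_add ha.1 hb.1 hr⟩)
    ((ha.2.add hb.2).add (H.const (log 2)))⟩

theorem OT.mul {a b : ℂ → ℂ} (ha : OT L τ a) (hb : OT L τ b) : OT L τ fun z => a z * b z :=
  ⟨ha.1.mul hb.1, H.O_of_le (fun _ hr => ⟨char_nonneg _ hr, char_mul ha.1 hb.1 hr⟩)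
    (ha.2.add hb.2)⟩

theorem OT.add {a b : ℂ → ℂ} (ha : OT L τ a) (hb : OT L τ b) : OT L τ fun z => a z + b z :=
  ⟨ha.1.add hb.1, H.O_of_le (fun _ hr => ⟨char_nonneg _ hr, char_add ha.1 hb.1 hr⟩)
    ((ha.2.add hb.2).add (H.const (log 2)).isBigO)⟩

theorem OT.inv {a : ℂ → ℂ} (ha : OT L τ a) : OT L τ fun z => (a z)⁻¹ := by
  obtain ⟨C, hC⟩ := char_inv ha.1
  exact ⟨ha.1.inv, H.O_of_le (fun r hr => ⟨char_nonneg _ hr, hC r⟩)
    (ha.2.add (H.const C).isBigO)⟩

theorem Sm.inv {a : ℂ → ℂ} (ha : Sm L τ a) : Sm L τ fun z => (a z)⁻¹ := by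
  obtain ⟨C, hC⟩ := char_inv ha.1
  exact ⟨ha.1.inv, H.o_of_le (fun r hr => ⟨char_nonneg _ hr, hC r⟩)
    (ha.2.add (H.const C))⟩

theorem log_o {t : ℝ → ℝ} (h0 : ∀ᶠ r in L, 0 ≤ t r) (ht : t =O[L] τ) :
    (fun r => Real.log (1 + t r)) =o[L] τ := by
  obtain ⟨C, hC0, hC⟩ := ht.exists_pos
  rw [isLittleO_iff]
  intro c hc
  set ε : ℝ := c / (2 * C) with hε
  have hε0 : 0 < ε := by positivity
  have h1 := (isLittleO_iff.1 (H.const |ε - 1 - log ε|)) (show 0 < c / 2 by positivity)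
  filter_upwards [h0, hC.bound, h1] with r h2 h3 h4
  have h5 := Real.log_le_sub_one_of_pos (x := ε * (1 + t r)) (by positivity)
  rw [Real.log_mul hε0.ne' (by positivity)] at h5
  have h6 : 0 ≤ log (1 + t r) := Real.log_nonneg (by linarith)
  rw [Real.norm_eq_abs, abs_of_nonneg h6]
  rw [Real.norm_eq_abs, abs_of_nonneg h2] at h3
  rw [Real.norm_eq_abs, abs_abs] at h4
  have h7 := le_abs_self (ε - 1 - log ε)
  have h8 : ε * t r ≤ c / 2 * ‖τ r‖ := by
    have h9 := mul_le_mul_of_nonneg_left h3 hε0.le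
    have h10 : ε * (C * ‖τ r‖) = c / 2 * ‖τ r‖ := by
      rw [hε]
      field_simp
    linarith
  linarith

/-- logarithmic derivatives have small proximity functions -/
theorem ld_o {a : ℂ → ℂ} (ha : OT L τ a) : proximity (logDeriv a) ⊤ =o[L] τ := by
  rcases nz_or ha.1 with h1 | h1
  · obtain ⟨E, C, hE, hC, hb⟩ := ldl ha.1 h1
    have h2 : (fun r => C * (1 + log r + log (1 + characteristic a ⊤ r))) =o[L] τ := by
      apply IsLittleO.const_mul_left
      exact ((H.const 1).add H.log).add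
        (log_o H (H.ge.mono fun r hr => char_nonneg a hr) ha.2)
    refine o_of_ev ?_ h2
    filter_upwards [H.ge, H.big.fin E hE] with r h3 h4
    exact ⟨proximity_nonneg r, hb r h3 h4⟩
  · have h2 : ∀ᶠ z in codiscrete ℂ, logDeriv a z = 0 := by
      filter_upwards [h1] with z hz
      rw [logDeriv_apply, hz, div_zero]
    refine H.o_of_le (fun r hr => ?_) (H.const 0)
    rw [prox_zero h2 (by positivity)]
    exact ⟨le_rfl, le_rfl⟩

omit H in
theorem order_deriv {a : ℂ → ℂ} (ha : Meromorphic a) (z : ℂ) :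
    (0 ≤ meromorphicOrderAt a z ∧ 0 ≤ meromorphicOrderAt (deriv a) z) ∨
      ∃ n : ℤ, n < 0 ∧ meromorphicOrderAt a z = n ∧ meromorphicOrderAt (deriv a) z = (n - 1 : ℤ) := by
  rcases lt_or_ge (meromorphicOrderAt a z) 0 with h | h
  · right
    obtain ⟨n, hn⟩ := WithTop.ne_top_iff_exists.1 (ne_top_of_lt h)
    have hn0 : n < 0 := by
      rw [← hn] at h
      exact_mod_cast h
    refine ⟨n, hn0, hn.symm, ?_⟩
    exact meromorphicOrderAt_deriv_eq_sub_one (f := a) (x := z) (n := n)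
      (by exact_mod_cast hn0.ne) hn.symm
  · left
    refine ⟨h, ?_⟩
    obtain ⟨g, hg, hfg⟩ := (ha z).meromorphicOrderAt_nonneg_iff.1 h
    rw [meromorphicOrderAt_congr hfg.nhdsNE_deriv]
    exact hg.deriv.meromorphicOrderAt_nonneg

omit H in
theorem count_deriv {a : ℂ → ℂ} (ha : Meromorphic a) {r : ℝ} (hr : 1 ≤ r) :
    ValueDistribution.logCounting (deriv a) ⊤ r ≤
      2 * ValueDistribution.logCounting a ⊤ r := by
  rw [logCounting_top, logCounting_top, two_mul, ← Pi.add_apply,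
    ← locallyFinsuppWithin.logCounting.map_add]
  apply locallyFinsuppWithin.logCounting_le _ hr
  intro z
  change (divisor (deriv a) univ z)⁻ ≤ (divisor a univ z)⁻ + (divisor a univ z)⁻
  rw [divisor_apply ha.deriv.meromorphicOn (mem_univ z), divisor_apply ha.meromorphicOn (mem_univ z)]
  rcases order_deriv ha z with ⟨h1, h2⟩ | ⟨n, hn, h1, h2⟩
  · have h3 : ∀ w : WithTop ℤ, 0 ≤ w → (w.untop₀)⁻ = 0 := by
      intro w hw
      rw [negPart_eq_zero]
      rcases eq_or_ne w ⊤ with h4 | h4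
      · rw [h4]; simp
      · lift w to ℤ using h4
        simpa using hw
    rw [h3 _ h1, h3 _ h2]
    simp
  · rw [h1, h2]
    simp only [WithTop.untop₀_coe]
    rw [negPart_of_nonpos (by omega), negPart_of_nonpos (by omega)]
    omega

omit H in
theorem prox_deriv {a : ℂ → ℂ} (ha : Meromorphic a) {r : ℝ} (hr : r ≠ 0) :
    proximity (deriv a) ⊤ r ≤ proximity a ⊤ r + proximity (logDeriv a) ⊤ r := by
  have hld : Meromorphic (logDeriv a) := ha.deriv.div ha
  rcases nz_or ha with h1 | h1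
  · have h2 : deriv a =ᶠ[codiscrete ℂ] fun z => a z * logDeriv a z := by
      filter_upwards [h1.ne ha] with z hz
      rw [logDeriv_apply, mul_div_cancel₀ _ hz]
    rw [proximity_congr_codiscrete h2 hr]
    exact prox_mul ha hld r
  · have h2 : ∀ᶠ z in codiscrete ℂ, deriv a z = 0 := by
      apply codis_of_ev
      intro z
      have h3 : a =ᶠ[𝓝[≠] z] fun _ => (0 : ℂ) := codis_ev h1 z
      have h4 := h3.nhdsNE_deriv
      filter_upwards [h4] with w hw
      rw [hw]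
      simp
    rw [prox_zero h2 hr]
    exact add_nonneg (proximity_nonneg _) (proximity_nonneg _)

omit H in
theorem char_deriv {a : ℂ → ℂ} (ha : Meromorphic a) {r : ℝ} (hr : 1 ≤ r) :
    characteristic (deriv a) ⊤ r ≤ 2 * characteristic a ⊤ r + proximity (logDeriv a) ⊤ r := by
  have h1 := count_deriv ha hr
  have h2 := prox_deriv ha (r := r) (by positivity)
  have h3 : 0 ≤ proximity a ⊤ r := proximity_nonneg r
  unfold characteristic
  simp only [Pi.add_apply]
  linarith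

theorem OT.deriv {a : ℂ → ℂ} (ha : OT L τ a) : OT L τ (deriv a) :=
  ⟨ha.1.deriv, H.O_of_le (fun _ hr => ⟨char_nonneg _ hr, char_deriv ha.1 hr⟩)
    ((ha.2.const_mul_left 2).add (ld_o H ha).isBigO)⟩

theorem Sm.deriv {a : ℂ → ℂ} (ha : Sm L τ a) : Sm L τ (deriv a) :=
  ⟨ha.1.deriv, H.o_of_le (fun _ hr => ⟨char_nonneg _ hr, char_deriv ha.1 hr⟩)
    ((ha.2.const_mul_left 2).add (ld_o H ha.ot))⟩

end classes

end Pool.Agent.N131.SR
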