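import Mathlib
import Pool.Agent.N131.SR.Small

/-!
Functions of moderate growth with small proximity functions and poles of bounded order; truncated
counting functions.
-/

set_option autoImplicit false

namespace Pool.Agent.N131.SR

open MeasureTheory Set Filter Topology Metric Real ValueDistribution MeromorphicOn Function
open Asymptotics
open Function.locallyFinsuppWithin (toClosedBall toClosedBall_eval_within apply_eq_zero_of_notMem)
open Pool.Agent.TH143.EL (codis_ev codis_of_ev mero_id mero_ne mero_an)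

variable {L : Filter ℝ} {τ : ℝ → ℝ}

/-- moderate growth, small proximity function, poles of bounded order -/
structure GG (L : Filter ℝ) (τ : ℝ → ℝ) (a : ℂ → ℂ) : Prop where
  ot : OT L τ a
  pr : proximity a ⊤ =o[L] τ
  pl : ∃ M, PL M a

theorem PL.mono {M M' : ℕ} (h : M ≤ M') {a : ℂ → ℂ} (ha : PL M a) : PL M' a := by
  intro z
  refine le_trans ?_ (ha z)
  exact_mod_cast (by omega : -(M' : ℤ) ≤ -(M : ℤ))

theorem PL.mul {M M' : ℕ} {a b : ℂ → ℂ} (hma : Meromorphic a) (hmb : Meromorphic b)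
    (ha : PL M a) (hb : PL M' b) : PL (M + M') fun z => a z * b z := by
  intro z
  have h1 : meromorphicOrderAt (fun z => a z * b z) z =
      meromorphicOrderAt a z + meromorphicOrderAt b z := meromorphicOrderAt_mul (hma z) (hmb z)
  rw [h1]
  refine le_trans ?_ (add_le_add (ha z) (hb z))
  rw [← WithTop.coe_add]
  exact_mod_cast (by push_cast; omega : -((M + M' : ℕ) : ℤ) ≤ -(M : ℤ) + -(M' : ℤ))

theorem PL.add {M M' : ℕ} {a b : ℂ → ℂ} (hma : Meromorphic a) (hmb : Meromorphic b)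
    (ha : PL M a) (hb : PL M' b) : PL (max M M') fun z => a z + b z := by
  intro z
  refine le_trans ?_ (meromorphicOrderAt_add (hma z) (hmb z))
  exact le_min (((ha.mono (le_max_left M M')) z)) (((hb.mono (le_max_right M M')) z))

theorem PL.deriv {M : ℕ} {a : ℂ → ℂ} (hma : Meromorphic a) (ha : PL M a) :
    PL (M + 1) (deriv a) := by
  intro z
  rcases order_deriv hma z with ⟨h1, h2⟩ | ⟨n, hn, h1, h2⟩
  · refine le_trans ?_ h2
    exact_mod_cast (by push_cast; omega : -((M + 1 : ℕ) : ℤ) ≤ (0 : ℤ))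
  · rw [h2]
    have h3 := ha z
    rw [h1] at h3
    have h4 : -(M : ℤ) ≤ n := by exact_mod_cast h3
    exact_mod_cast (by push_cast; omega : -((M + 1 : ℕ) : ℤ) ≤ n - 1)

theorem pl_const (c : ℂ) : PL 0 fun _ => c := by
  intro z
  have : AnalyticAt ℂ (fun _ : ℂ => c) z := analyticAt_const
  simpa using this.meromorphicOrderAt_nonneg

theorem pl_logDeriv {a : ℂ → ℂ} (ha : Meromorphic a) (h0 : NZ a) : PL 1 (logDeriv a) := by
  intro z
  obtain ⟨n, hn⟩ := WithTop.ne_top_iff_exists.1 (h0 z)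
  rcases eq_or_ne n 0 with h1 | h1
  · have h2 : 0 ≤ meromorphicOrderAt (logDeriv a) z := by
      apply meromorphicOrderAt_logDeriv_nonneg (ha z)
      rw [← hn, h1]
      rfl
    refine le_trans ?_ h2
    exact_mod_cast (by omega : -((1 : ℕ) : ℤ) ≤ (0 : ℤ))
  · have h2 : meromorphicOrderAt (logDeriv a) z = -1 := by
      apply meromorphicOrderAt_logDeriv_eq_neg_one (ha z)
      · rw [← hn]
        exact_mod_cast h1
      · exact h0 z
    rw [h2]
    exact le_of_eq rfl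

section

variable (H : Cmp L τ)
include H

theorem gg_const (c : ℂ) : GG L τ fun _ => c := by
  refine ⟨(sm_const H c).ot, ?_, ⟨0, pl_const c⟩⟩
  refine (H.const (log⁺ ‖c‖)).congr_left fun r => ?_
  simp [proximity_top, circleAverage_const]

theorem GG.mul {a b : ℂ → ℂ} (ha : GG L τ a) (hb : GG L τ b) : GG L τ fun z => a z * b z := by
  obtain ⟨M, hM⟩ := ha.pl
  obtain ⟨M', hM'⟩ := hb.pl
  exact ⟨ha.ot.mul H hb.ot, H.o_of_le (fun r _ => ⟨proximity_nonneg r,
    prox_mul ha.ot.1 hb.ot.1 r⟩) (ha.pr.add hb.pr), _, hM.mul ha.ot.1 hb.ot.1 hM'⟩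

theorem GG.add {a b : ℂ → ℂ} (ha : GG L τ a) (hb : GG L τ b) : GG L τ fun z => a z + b z := by
  obtain ⟨M, hM⟩ := ha.pl
  obtain ⟨M', hM'⟩ := hb.pl
  exact ⟨ha.ot.add H hb.ot, H.o_of_le (fun r _ => ⟨proximity_nonneg r,
    prox_add ha.ot.1 hb.ot.1 r⟩) ((ha.pr.add hb.pr).add (H.const (log 2))), _,
    hM.add ha.ot.1 hb.ot.1 hM'⟩

theorem GG.deriv {a : ℂ → ℂ} (ha : GG L τ a) : GG L τ (deriv a) := by
  obtain ⟨M, hM⟩ := ha.pl
  exact ⟨ha.ot.deriv H, H.o_of_le (fun r hr => ⟨proximity_nonneg r,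
    prox_deriv ha.ot.1 (by positivity)⟩) (ha.pr.add (ld_o H ha.ot)), _, hM.deriv ha.ot.1⟩

theorem GG.neg {a : ℂ → ℂ} (ha : GG L τ a) : GG L τ fun z => - a z := by
  have := (gg_const H (-1)).mul H ha
  simpa using this

theorem GG.sub {a b : ℂ → ℂ} (ha : GG L τ a) (hb : GG L τ b) : GG L τ fun z => a z - b z := by
  have := ha.add H (hb.neg H)
  simpa [sub_eq_add_neg] using this

theorem GG.sum {ι : Type*} (s : Finset ι) {a : ι → ℂ → ℂ} (ha : ∀ i ∈ s, GG L τ (a i)) :
    GG L τ fun z => ∑ i ∈ s, a i z := by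
  classical
  induction s using Finset.induction_on with
  | empty => simpa using gg_const H 0
  | insert i s hi ih =>
    simp only [Finset.sum_insert hi]
    exact (ha i (Finset.mem_insert_self i s)).add H
      (ih fun j hj => ha j (Finset.mem_insert_of_mem hj))

/-- logarithmic derivatives -/
theorem gg_ld {a : ℂ → ℂ} (ha : OT L τ a) : GG L τ (logDeriv a) := by
  have hm : Meromorphic (logDeriv a) := ha.1.deriv.div ha.1
  rcases nz_or ha.1 with h1 | h1
  · refine ⟨?_, ld_o H ha, 1, pl_logDeriv ha.1 h1⟩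
    exact (ha.deriv H).mul H (ha.inv H)
  · have h2 : ∀ᶠ z in codiscrete ℂ, logDeriv a z = 0 := by
      filter_upwards [h1] with z hz
      rw [logDeriv_apply, hz, div_zero]
    refine ⟨⟨hm, H.O_of_le (t := fun _ => 0) (fun r hr => ?_) (H.const 0).isBigO⟩,
      H.o_of_le (fun r hr => ?_) (H.const 0), 0, fun z => ?_⟩
    · rw [char_zero h2 (by positivity)]
      exact ⟨le_rfl, le_rfl⟩
    · rw [prox_zero h2 (by positivity)]
      exact ⟨le_rfl, le_rfl⟩
    · rw [meromorphicOrderAt_eq_top_iff.2 (codis_ev h2 z)]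
      exact le_top

omit H in
theorem GG.congr {a b : ℂ → ℂ} (ha : GG L τ a) (H : Cmp L τ) (hb : Meromorphic b)
    (h : ∀ᶠ z in codiscrete ℂ, b z = a z) : GG L τ b := by
  refine ⟨⟨hb, ?_⟩, ?_, ?_⟩
  · exact H.O_of_le (fun r hr => ⟨char_nonneg _ hr, (char_le_of_congr h hr).le⟩) ha.ot.2
  · refine H.o_of_le (fun r hr => ⟨proximity_nonneg r, le_of_eq ?_⟩) ha.pr
    exact proximity_congr_codiscrete h (by positivity)
  · obtain ⟨M, hM⟩ := ha.pl
    refine ⟨M, fun z => ?_⟩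
    rw [meromorphicOrderAt_congr (codis_ev h z)]
    exact hM z

end

/-- the truncated counting function of the zeros: every zero is counted once; the zero at the
origin, if there is one, contributes `log r` -/
noncomputable def Nb (h : ℂ → ℂ) (r : ℝ) : ℝ :=
  (∑ᶠ z ∈ {z : ℂ | h z = 0 ∧ ‖z‖ ≤ r}, Real.log (r / ‖z‖)) + {z : ℂ | h z = 0}.indicator 1 0 *
    Real.log r

theorem zeros_finite {h : ℂ → ℂ} (hd : Differentiable ℂ h) (hne : ∃ z, h z ≠ 0) (r : ℝ) :
    {z : ℂ | h z = 0 ∧ ‖z‖ ≤ r}.Finite := by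
  have h1 : ∀ᶠ z in codiscrete ℂ, h z ≠ 0 := by
    apply codis_of_ev
    intro x
    rcases (hd.analyticAt x).eventually_eq_zero_or_eventually_ne_zero with h2 | h2
    · exfalso
      obtain ⟨z, hz⟩ := hne
      apply hz
      have h3 : AnalyticOnNhd ℂ h univ := fun z _ => hd.analyticAt z
      exact h3.eqOn_zero_of_preconnected_of_eventuallyEq_zero isPreconnected_univ (mem_univ x) h2
        (mem_univ z)
    · exact h2
  by_contra hinf
  have hK : IsCompact (closedBall (0 : ℂ) r) := isCompact_closedBall 0 r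
  have hinf' : ({z : ℂ | h z = 0 ∧ ‖z‖ ≤ r}).Infinite := hinf
  obtain ⟨x, hx, hacc⟩ := hinf'.exists_accPt_of_subset_isCompact hK
    (fun z hz => mem_closedBall_zero_iff.2 hz.2)
  have h4 := codis_ev h1 x
  rw [accPt_iff_frequently_nhdsNE] at hacc
  exact hacc (h4.mono fun z hz hz2 => hz hz2.1)

theorem Nb_eq {h : ℂ → ℂ} (r : ℝ) (F : Finset ℂ) (hF : ∀ z, z ∈ F ↔ h z = 0 ∧ ‖z‖ ≤ r) :
    Nb h r = ∑ z ∈ F, Real.log (r * ‖z‖⁻¹) + {z : ℂ | h z = 0}.indicator 1 0 * Real.log r := by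
  unfold Nb
  congr 1
  have h1 : {z : ℂ | h z = 0 ∧ ‖z‖ ≤ r} = (F : Set ℂ) := by
    ext z
    exact (hF z).symm
  rw [h1, finsum_mem_coe_finset]
  rfl

theorem Nb_nonneg {h : ℂ → ℂ} {r : ℝ} (hr : 1 ≤ r) : 0 ≤ Nb h r := by
  unfold Nb
  apply add_nonneg
  · apply finsum_nonneg
    intro z
    apply finsum_nonneg
    rintro ⟨-, hz⟩
    rcases eq_or_ne z 0 with h0 | h0
    · rw [h0]; simp
    · exact Real.log_nonneg ((one_le_div (norm_pos_iff.2 h0)).2 hz)
  · exact mul_nonneg (Set.indicator_nonneg (fun _ _ => zero_le_one) 0) (Real.log_nonneg hr)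

/-- counting functions of poles of bounded order along given zeros -/
theorem count_le_Nb {D : locallyFinsupp ℂ ℤ} {h1 h2 : ℂ → ℂ}
    (hd1 : Differentiable ℂ h1) (hd2 : Differentiable ℂ h2) (hn1 : ∃ z, h1 z ≠ 0)
    (hn2 : ∃ z, h2 z ≠ 0) {M : ℕ} (hD : ∀ z, 0 ≤ D z ∧ D z ≤ M)
    (hz : ∀ z, h1 z ≠ 0 → h2 z ≠ 0 → D z = 0) {r : ℝ} (hr : 1 ≤ r) :
    locallyFinsuppWithin.logCounting D r ≤ M * (Nb h1 r + Nb h2 r) := by
  classical
  have hr0 : 0 < r := by linarith
  have habs : |r| = r := abs_of_pos hr0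
  set F1 := (zeros_finite hd1 hn1 r).toFinset with hF1
  set F2 := (zeros_finite hd2 hn2 r).toFinset with hF2
  have hF1' : ∀ z, z ∈ F1 ↔ h1 z = 0 ∧ ‖z‖ ≤ r := fun z => by rw [hF1, Set.Finite.mem_toFinset]; rfl
  have hF2' : ∀ z, z ∈ F2 ↔ h2 z = 0 ∧ ‖z‖ ≤ r := fun z => by rw [hF2, Set.Finite.mem_toFinset]; rfl
  rw [Nb_eq r F1 hF1', Nb_eq r F2 hF2']
  have hlog : ∀ z : ℂ, ‖z‖ ≤ r → 0 ≤ log (r * ‖z‖⁻¹) := by
    intro z hz
    rcases eq_or_ne z 0 with rfl | h
    · simp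
    · apply Real.log_nonneg
      have : 0 < ‖z‖ := norm_pos_iff.2 h
      rw [← div_eq_mul_inv, one_le_div this]
      exact hz
  have e1 : locallyFinsuppWithin.logCounting D r =
      ∑ z ∈ F1 ∪ F2, (D z : ℝ) * log (r * ‖z‖⁻¹) + (D 0) * log r := by
    change ∑ᶠ z, (toClosedBall r D z : ℝ) * log (r * ‖z‖⁻¹) + (D 0) * log r = _
    congr 1
    rw [finsum_eq_sum_of_support_subset (s := F1 ∪ F2)]
    · apply Finset.sum_congr rfl
      intro z hz'
      have hz2 : ‖z‖ ≤ r := by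
        rcases Finset.mem_union.1 hz' with h | h
        · exact ((hF1' z).1 h).2
        · exact ((hF2' z).1 h).2
      rw [toClosedBall_eval_within _ (by rw [habs, mem_closedBall_zero_iff]; exact hz2)]
    · intro z hz'
      have hzb : z ∈ closedBall (0 : ℂ) |r| := by
        by_contra hcon
        apply hz'
        simp only
        rw [apply_eq_zero_of_notMem _ hcon]
        simp
      have hz2 : ‖z‖ ≤ r := by rwa [habs, mem_closedBall_zero_iff] at hzb
      have hz3 : D z ≠ 0 := by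
        intro h0
        apply hz'
        simp only
        rw [toClosedBall_eval_within _ hzb, h0]
        simp
      rw [Finset.coe_union]
      by_cases h3 : h1 z = 0
      · exact Or.inl ((hF1' z).2 ⟨h3, hz2⟩)
      · by_cases h4 : h2 z = 0
        · exact Or.inr ((hF2' z).2 ⟨h4, hz2⟩)
        · exact absurd (hz z h3 h4) hz3
  rw [e1]
  have hM0 : (0 : ℝ) ≤ M := Nat.cast_nonneg M
  have hDM : ∀ z, (D z : ℝ) ≤ M := fun z => by exact_mod_cast (hD z).2
  have e2 : ∑ z ∈ F1 ∪ F2, (D z : ℝ) * log (r * ‖z‖⁻¹) ≤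
      ∑ z ∈ F1, (M : ℝ) * log (r * ‖z‖⁻¹) + ∑ z ∈ F2, (M : ℝ) * log (r * ‖z‖⁻¹) := by
    have hnn1 : ∀ z ∈ F1, 0 ≤ log (r * ‖z‖⁻¹) := fun z h => hlog z ((hF1' z).1 h).2
    have hnn2 : ∀ z ∈ F2, 0 ≤ log (r * ‖z‖⁻¹) := fun z h => hlog z ((hF2' z).1 h).2
    calc ∑ z ∈ F1 ∪ F2, (D z : ℝ) * log (r * ‖z‖⁻¹)
        ≤ ∑ z ∈ F1 ∪ F2, (M : ℝ) * log (r * ‖z‖⁻¹) := by
          apply Finset.sum_le_sum
          intro z hz'
          apply mul_le_mul_of_nonneg_right (hDM z)
          rcases Finset.mem_union.1 hz' with h | h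
          · exact hnn1 z h
          · exact hnn2 z h
      _ ≤ ∑ z ∈ F1 ∪ F2, (M : ℝ) * log (r * ‖z‖⁻¹) + ∑ z ∈ F1 ∩ F2, (M : ℝ) * log (r * ‖z‖⁻¹) := by
          have : 0 ≤ ∑ z ∈ F1 ∩ F2, (M : ℝ) * log (r * ‖z‖⁻¹) :=
            Finset.sum_nonneg fun z hz' => mul_nonneg hM0 (hnn1 z (Finset.mem_inter.1 hz').1)
          linarith
      _ = _ := Finset.sum_union_inter
  have e3 : (D 0 : ℝ) ≤ M * ({z : ℂ | h1 z = 0}.indicator 1 0 + {z : ℂ | h2 z = 0}.indicator 1 0) := by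
    by_cases h3 : h1 0 = 0
    · rw [Set.indicator_of_mem (show (0 : ℂ) ∈ {z : ℂ | h1 z = 0} from h3)]
      have h5 : (0 : ℝ) ≤ {z : ℂ | h2 z = 0}.indicator 1 0 :=
        Set.indicator_nonneg (fun _ _ => zero_le_one) 0
      have := hDM 0
      simp only [Pi.one_apply]
      nlinarith
    · by_cases h4 : h2 0 = 0
      · rw [Set.indicator_of_mem (show (0 : ℂ) ∈ {z : ℂ | h2 z = 0} from h4)]
        have h5 : (0 : ℝ) ≤ {z : ℂ | h1 z = 0}.indicator 1 0 :=
          Set.indicator_nonneg (fun _ _ => zero_le_one) 0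
        have := hDM 0
        simp only [Pi.one_apply]
        nlinarith
      · rw [hz 0 h3 h4]
        have h5 : (0 : ℝ) ≤ {z : ℂ | h1 z = 0}.indicator 1 0 :=
          Set.indicator_nonneg (fun _ _ => zero_le_one) 0
        have h6 : (0 : ℝ) ≤ {z : ℂ | h2 z = 0}.indicator 1 0 :=
          Set.indicator_nonneg (fun _ _ => zero_le_one) 0
        push_cast
        positivity
  have e4 := mul_le_mul_of_nonneg_right e3 (Real.log_nonneg hr)
  rw [← Finset.mul_sum, ← Finset.mul_sum] at e2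
  nlinarith

/-- functions with few poles and small proximity functions are small -/
theorem sm_of_poles (H : Cmp L τ) {c : ℂ → ℂ} (hc : GG L τ c) {h1 h2 : ℂ → ℂ}
    (hd1 : Differentiable ℂ h1) (hd2 : Differentiable ℂ h2) (hn1 : ∃ z, h1 z ≠ 0)
    (hn2 : ∃ z, h2 z ≠ 0) (hz : ∀ z, h1 z ≠ 0 → h2 z ≠ 0 → 0 ≤ meromorphicOrderAt c z)
    (hN1 : Nb h1 =o[L] τ) (hN2 : Nb h2 =o[L] τ) : Sm L τ c := by
  refine ⟨hc.ot.1, ?_⟩
  obtain ⟨M, hM⟩ := hc.pl
  have key : ∀ r, 1 ≤ r → ValueDistribution.logCounting c ⊤ r ≤ M * (Nb h1 r + Nb h2 r) := by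
    intro r hr
    rw [logCounting_top]
    have hD : ∀ z, (divisor c univ)⁻ z = (divisor c univ z)⁻ := fun z => rfl
    apply count_le_Nb hd1 hd2 hn1 hn2 _ _ hr
    · intro z
      rw [hD, divisor_apply hc.ot.1.meromorphicOn (mem_univ z)]
      refine ⟨negPart_nonneg _, ?_⟩
      have h3 := hM z
      rcases eq_or_ne (meromorphicOrderAt c z) ⊤ with h4 | h4
      · rw [h4]
        simp
      · lift meromorphicOrderAt c z to ℤ using h4 with n
        have h5 : -(M : ℤ) ≤ n := by exact_mod_cast h3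
        rw [WithTop.untop₀_coe]
        rcases le_total n 0 with h6 | h6
        · rw [negPart_of_nonpos h6]
          omega
        · rw [negPart_of_nonneg h6]
          omega
    · intro z h3 h4
      rw [hD, divisor_apply hc.ot.1.meromorphicOn (mem_univ z), negPart_eq_zero]
      have h5 := hz z h3 h4
      rcases eq_or_ne (meromorphicOrderAt c z) ⊤ with h6 | h6
      · rw [h6]; simp
      · lift meromorphicOrderAt c z to ℤ using h6 with n
        rw [WithTop.untop₀_coe]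
        exact_mod_cast h5
  have h3 : (fun r => proximity c ⊤ r + M * (Nb h1 r + Nb h2 r)) =o[L] τ :=
    hc.pr.add ((hN1.add hN2).const_mul_left _)
  refine H.o_of_le (fun r hr => ⟨char_nonneg _ hr, ?_⟩) h3
  unfold characteristic
  simp only [Pi.add_apply]
  have := key r hr
  linarith

end Pool.Agent.N131.SR
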