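import Mathlib
import Pool.Agent.N131.SR.Cls
import Pool.Agent.Y377.IL.AlgB

/-!
The differential ring of small functions; algebraic functions over it; the characteristic of a
holomorphic curve.
-/

set_option autoImplicit false

namespace Pool.Agent.N131.SR

open MeasureTheory Set Filter Topology Metric Real ValueDistribution MeromorphicOn Function
open Asymptotics
open Pool.Agent.TH143.EL (codis_ev codis_of_ev mero_id mero_ne mero_an HolMap Rep)
open Pool.Agent.Y377.IL (DB AlgRatio AlgebraicOver)

variable {L : Filter ℝ} {τ : ℝ → ℝ}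

/-- the ring of the small functions -/
def SmallAlg (H : Cmp L τ) : Subalgebra ℂ (ℂ → ℂ) where
  carrier := {a | Sm L τ a}
  mul_mem' := fun ha hb => ha.mul H hb
  add_mem' := fun ha hb => ha.add H hb
  algebraMap_mem' := fun c => sm_const H c

theorem db_small (H : Cmp L τ) : DB (SmallAlg H) where
  mero := fun _ hb => hb.1
  der := fun _ hb => hb.deriv H

theorem horner {h : ℂ → ℂ} (hh : Meromorphic h) {r : ℝ} (hr : 1 ≤ r) (K : ℕ) :
    ∀ e : ℕ → ℂ → ℂ, (∀ k, Meromorphic (e k)) →
      characteristic (fun z => ∑ k ∈ Finset.range (K + 1), e k z * h z ^ k) ⊤ r ≤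
        K * characteristic h ⊤ r +
          ∑ k ∈ Finset.range (K + 1), (characteristic (e k) ⊤ r + log 2) := by
  induction K with
  | zero =>
    intro e he
    have : (fun z => ∑ k ∈ Finset.range (0 + 1), e k z * h z ^ k) = e 0 := by
      funext z
      simp
    rw [this]
    have h2 : 0 ≤ log 2 := Real.log_nonneg (by norm_num)
    simp only [Nat.cast_zero, zero_mul, zero_add, Finset.sum_range_one]
    linarith
  | succ K ih =>
    intro e he
    have h1 := ih (fun k => e (k + 1)) fun k => he (k + 1)
    have e1 : (fun z => ∑ k ∈ Finset.range (K + 1 + 1), e k z * h z ^ k) =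
        fun z => h z * (∑ k ∈ Finset.range (K + 1), e (k + 1) z * h z ^ k) + e 0 z := by
      funext z
      rw [Finset.sum_range_succ']
      simp only [pow_zero, mul_one, Finset.mul_sum]
      congr 1
      apply Finset.sum_congr rfl
      intro k _
      ring
    have hm : Meromorphic fun z => ∑ k ∈ Finset.range (K + 1), e (k + 1) z * h z ^ k := by
      intro z
      exact MeromorphicAt.fun_sum fun k _ => ((he (k + 1)) z).mul ((hh z).pow k)
    rw [e1]
    have h2 := char_add (hh.mul hm) (he 0) hr
    have h3 := char_mul hh hm hr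
    have h4 : (∑ k ∈ Finset.range (K + 1 + 1), (characteristic (e k) ⊤ r + log 2)) =
        ∑ k ∈ Finset.range (K + 1), (characteristic (e (k + 1)) ⊤ r + log 2) +
          (characteristic (e 0) ⊤ r + log 2) := Finset.sum_range_succ' _ _
    rw [h4]
    have h5 : characteristic (fun z => h z * (∑ k ∈ Finset.range (K + 1), e (k + 1) z * h z ^ k) +
        e 0 z) ⊤ r ≤ characteristic (fun z => h z * (∑ k ∈ Finset.range (K + 1),
          e (k + 1) z * h z ^ k)) ⊤ r + characteristic (e 0) ⊤ r + log 2 := h2
    push_cast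
    linarith

/-- algebraic functions over the small functions are small -/
theorem alg_small (H : Cmp L τ) {h : ℂ → ℂ} (hh : Meromorphic h) {m : ℕ} {b : ℕ → ℂ → ℂ}
    (hb : ∀ k, Sm L τ (b k)) (hne : ∃ k ≤ m, ¬ ∀ᶠ z in codiscrete ℂ, b k z = 0)
    (hs : ∀ᶠ z in codiscrete ℂ, ∑ k ∈ Finset.range (m + 1), b k z * h z ^ k = 0) :
    Sm L τ h := by
  classical
  -- the top coefficient
  obtain ⟨K, hK, hKb, hKmax⟩ : ∃ K ≤ m, (¬ ∀ᶠ z in codiscrete ℂ, b K z = 0) ∧
      ∀ k, K < k → k ≤ m → ∀ᶠ z in codiscrete ℂ, b k z = 0 := by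
    let S := (Finset.range (m + 1)).filter fun k => ¬ ∀ᶠ z in codiscrete ℂ, b k z = 0
    have hS : S.Nonempty := by
      obtain ⟨k, hk, hk2⟩ := hne
      exact ⟨k, Finset.mem_filter.2 ⟨Finset.mem_range.2 (by omega), hk2⟩⟩
    refine ⟨S.max' hS, ?_, ?_, ?_⟩
    · have := (Finset.mem_filter.1 (S.max'_mem hS)).1
      have := Finset.mem_range.1 this
      omega
    · exact (Finset.mem_filter.1 (S.max'_mem hS)).2
    · intro k hk hkm
      by_contra hcon
      have : k ∈ S := Finset.mem_filter.2 ⟨Finset.mem_range.2 (by omega), hcon⟩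
      have := S.le_max' k this
      omega
  have hs' : ∀ᶠ z in codiscrete ℂ, ∑ k ∈ Finset.range (K + 1), b k z * h z ^ k = 0 := by
    have h1 : ∀ᶠ z in codiscrete ℂ, ∀ k ∈ Finset.range (m + 1), K < k → b k z = 0 := by
      rw [eventually_all_finset]
      intro k hk
      by_cases hKk : K < k
      · have hk' : k ≤ m := by
          have := Finset.mem_range.1 hk
          omega
        exact (hKmax k hKk hk').mono fun z hz _ => hz
      · exact Eventually.of_forall fun z h => absurd h hKk
    filter_upwards [hs, h1] with z h2 h3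
    rw [← h2]
    apply Finset.sum_subset
    · intro k hk
      have := Finset.mem_range.1 hk
      exact Finset.mem_range.2 (by omega)
    · intro k hk hk2
      rw [Finset.mem_range] at hk2
      rw [h3 k hk (by omega), zero_mul]
  have hKne := mero_ne (hb K).1 hKb
  rcases Nat.eq_zero_or_pos K with h0 | h0
  · exfalso
    subst h0
    obtain ⟨z, hz1, hz2⟩ := (hs'.and hKne).exists
    simp at hz1
    exact hz2 hz1
  obtain ⟨K', rfl⟩ : ∃ K', K = K' + 1 := ⟨K - 1, by omega⟩
  set e : ℕ → ℂ → ℂ := fun k z => (-1) * (b k z * (b (K' + 1) z)⁻¹) with he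
  have hes : ∀ k, Sm L τ (e k) := fun k =>
    (sm_const H (-1)).mul H ((hb k).mul H ((hb (K' + 1)).inv H))
  have hpow : ∀ᶠ z in codiscrete ℂ, h z ^ (K' + 1) =
      ∑ k ∈ Finset.range (K' + 1), e k z * h z ^ k := by
    filter_upwards [hs', hKne] with z h1 h2
    rw [Finset.sum_range_succ] at h1
    have h3 : ∑ k ∈ Finset.range (K' + 1), e k z * h z ^ k =
        -(b (K' + 1) z)⁻¹ * ∑ k ∈ Finset.range (K' + 1), b k z * h z ^ k := by
      rw [Finset.mul_sum]
      apply Finset.sum_congr rfl
      intro k _
      simp only [he]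
      ring
    rw [h3]
    have h4 : ∑ k ∈ Finset.range (K' + 1), b k z * h z ^ k = -(b (K' + 1) z * h z ^ (K' + 1)) := by
      linear_combination h1
    rw [h4]
    field_simp
  refine ⟨hh, ?_⟩
  have hsum : (fun r => ∑ k ∈ Finset.range (K' + 1), (characteristic (e k) ⊤ r + log 2)) =o[L] τ := by
    have h1 : (∑ k ∈ Finset.range (K' + 1), fun r => (characteristic (e k) ⊤ r + log 2)) =o[L] τ :=
      IsLittleO.sum fun k _ => (hes k).2.add (H.const (log 2))
    refine h1.congr_left fun r => ?_
    rw [Finset.sum_apply]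
  refine H.o_of_le (fun r hr => ⟨char_nonneg _ hr, ?_⟩) hsum
  have h1 := horner hh hr K' e fun k => (hes k).1
  rw [← char_le_of_congr hpow hr] at h1
  have h2 : characteristic (fun z => h z ^ (K' + 1)) ⊤ r = (K' + 1 : ℕ) * characteristic h ⊤ r := by
    have h3 := characteristic_pow_top (n := K' + 1) hh
    have h4 : (fun z => h z ^ (K' + 1)) = h ^ (K' + 1) := rfl
    rw [h4, h3]
    simp
  rw [h2] at h1
  push_cast at h1
  linarith

/-- the characteristic of a holomorphic curve with the homogeneous coordinates `f` -/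
noncomputable def Tf {N : ℕ} (f : Fin (N + 1) → ℂ → ℂ) (r : ℝ) : ℝ :=
  circleAverage (fun z => Real.log ‖fun j => f j z‖) 0 r

section curve

variable {N : ℕ} {f : Fin (N + 1) → ℂ → ℂ} (hf : ∀ j, Differentiable ℂ (f j))
  (h0 : ∀ z, ∃ j, f j z ≠ 0)

include hf in
theorem curve_cont : Continuous fun z => (fun j => f j z : Fin (N + 1) → ℂ) :=
  continuous_pi fun j => (hf j).continuous

include h0 in
theorem curve_pos (z : ℂ) : 0 < ‖(fun j => f j z : Fin (N + 1) → ℂ)‖ := by
  rw [norm_pos_iff]
  intro h
  obtain ⟨j, hj⟩ := h0 z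
  exact hj (congrFun h j)

include hf h0 in
theorem curve_int (r : ℝ) : CircleIntegrable (fun z => Real.log ‖fun j => f j z‖) 0 r := by
  apply ContinuousOn.circleIntegrable'
  apply Continuous.continuousOn
  exact Continuous.log (curve_cont hf).norm fun z => (curve_pos h0 z).ne'

include hf in
theorem f_mero (j : Fin (N + 1)) : Meromorphic (f j) := fun z => ((hf j).analyticAt z).meromorphicAt

include hf in
theorem f_div (j : Fin (N + 1)) (z : ℂ) : 0 ≤ divisor (f j) univ z := by
  rw [divisor_apply (f_mero hf j).meromorphicOn (mem_univ z)]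
  have h1 := ((hf j).analyticAt z).meromorphicOrderAt_nonneg
  rcases eq_or_ne (meromorphicOrderAt (f j) z) ⊤ with h6 | h6
  · rw [h6]; simp
  · lift meromorphicOrderAt (f j) z to ℤ using h6 with n
    rw [WithTop.untop₀_coe]
    exact_mod_cast h1

include hf in
theorem f_avg {l : Fin (N + 1)} {r : ℝ} (hr : 1 ≤ r) :
    circleAverage (fun z => Real.log ‖f l z‖) 0 r =
      ValueDistribution.logCounting (f l) 0 r + log ‖meromorphicTrailingCoeffAt (f l) 0‖ := by
  have h1 := logCounting_zero_sub_logCounting_top_eq_circleAverage_sub_const (f_mero hf l)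
    (show r ≠ 0 by positivity)
  have h2 : ValueDistribution.logCounting (f l) ⊤ = 0 := by
    rw [logCounting_top]
    have : (divisor (f l) univ)⁻ = 0 := by
      rw [negPart_eq_zero]
      exact f_div hf l
    rw [this, map_zero]
  rw [h2, sub_zero] at h1
  linarith

include hf h0 in
/-- ratios of coordinates grow at most like the curve -/
theorem ratio_le (i l : Fin (N + 1)) (hl : ∃ z, f l z ≠ 0) : ∃ C : ℝ, ∀ r, 1 ≤ r →
    characteristic (fun z => f i z / f l z) ⊤ r ≤ Tf f r + C := by
  have hml := f_mero hf l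
  have hmi := f_mero hf i
  have hnz : NZ (f l) := by
    obtain ⟨z, hz⟩ := hl
    rcases nz_or hml with h1 | h1
    · exact h1
    · exfalso
      have h2 : ∀ᶠ w in 𝓝[≠] z, f l w ≠ 0 :=
        ((hf l).continuous.continuousAt.eventually_ne hz).filter_mono nhdsWithin_le_nhds
      obtain ⟨w, h3, h4⟩ := ((codis_ev h1 z).and h2).exists
      exact h4 h3
  have hne := hnz.ne hml
  refine ⟨-log ‖meromorphicTrailingCoeffAt (f l) 0‖, fun r hr => ?_⟩
  have hr0 : r ≠ 0 := by positivity
  have hav := f_avg hf (l := l) hr
  -- counting functions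
  have hN : ValueDistribution.logCounting (fun z => f i z / f l z) ⊤ r ≤
      ValueDistribution.logCounting (f l) 0 r := by
    rw [logCounting_top, logCounting_zero]
    apply locallyFinsuppWithin.logCounting_le _ hr
    intro z
    change (divisor (fun z => f i z / f l z) univ z)⁻ ≤ (divisor (f l) univ z)⁺
    have hdiv : Meromorphic fun z => f i z / f l z := hmi.div hml
    rw [divisor_apply hdiv.meromorphicOn (mem_univ z)]
    have h1 : meromorphicOrderAt (fun z => f i z / f l z) z =
        meromorphicOrderAt (f i) z - meromorphicOrderAt (f l) z :=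
      meromorphicOrderAt_div (hmi z) (hml z)
    rw [h1, divisor_apply hml.meromorphicOn (mem_univ z)]
    have h2 := ((hf i).analyticAt z).meromorphicOrderAt_nonneg
    have h3 := ((hf l).analyticAt z).meromorphicOrderAt_nonneg
    have h4 := hnz z
    lift meromorphicOrderAt (f l) z to ℤ using h4 with n
    rcases eq_or_ne (meromorphicOrderAt (f i) z) ⊤ with h6 | h6
    · rw [h6]
      have : (⊤ : WithTop ℤ) - (n : WithTop ℤ) = ⊤ := rfl
      rw [this]
      simp
    · lift meromorphicOrderAt (f i) z to ℤ using h6 with m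
      have h2' : 0 ≤ m := by exact_mod_cast h2
      have h3' : 0 ≤ n := by exact_mod_cast h3
      have : (m : WithTop ℤ) - (n : WithTop ℤ) = ((m - n : ℤ) : WithTop ℤ) := rfl
      rw [this, WithTop.untop₀_coe, WithTop.untop₀_coe, posPart_of_nonneg h3']
      rcases le_total (m - n) 0 with h7 | h7
      · rw [negPart_of_nonpos h7]
        omega
      · rw [negPart_of_nonneg h7]
        exact h3'
  have hm : proximity (fun z => f i z / f l z) ⊤ r ≤
      Tf f r - circleAverage (fun z => Real.log ‖f l z‖) 0 r := by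
    have h1 : CircleIntegrable (fun z => Real.log ‖f l z‖) 0 r :=
      hml.meromorphicOn.circleIntegrable_log_norm
    unfold Tf
    rw [← circleAverage_fun_sub (curve_int hf h0 r) h1, proximity_top]
    apply Pool.Agent.Helper160.Nev.circleAverage_mono_codiscrete hr0
    · exact (hmi.div hml).meromorphicOn.circleIntegrable_posLog_norm
    · exact (curve_int hf h0 r).sub h1
    · have h2 : ∀ᶠ z in codiscreteWithin (sphere (0 : ℂ) |r|), f l z ≠ 0 :=
        hne.filter_mono (codiscreteWithin_mono (subset_univ _))
      filter_upwards [h2] with z hz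
      have h3 : ‖f l z‖ ≤ ‖(fun j => f j z : Fin (N + 1) → ℂ)‖ :=
        norm_le_pi_norm (fun j => f j z : Fin (N + 1) → ℂ) l
      have h4 : ‖f i z‖ ≤ ‖(fun j => f j z : Fin (N + 1) → ℂ)‖ :=
        norm_le_pi_norm (fun j => f j z : Fin (N + 1) → ℂ) i
      have h5 : 0 < ‖f l z‖ := norm_pos_iff.2 hz
      rw [norm_div, posLog_apply]
      apply max_le
      · have := Real.log_le_log h5 h3
        linarith
      · rcases eq_or_lt_of_le (norm_nonneg (f i z)) with h6 | h6
        · rw [← h6, zero_div, Real.log_zero]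
          have := Real.log_le_log h5 h3
          linarith
        · rw [Real.log_div h6.ne' h5.ne']
          have := Real.log_le_log h6 h4
          linarith
  unfold characteristic
  simp only [Pi.add_apply]
  linarith

include hf h0 in
/-- the curve grows at most like the ratios of the coordinates -/
theorem Tf_le (l : Fin (N + 1)) (hl : ∃ z, f l z ≠ 0) : ∃ C : ℝ, ∀ r, 1 ≤ r →
    Tf f r ≤ ∑ i, characteristic (fun z => f i z / f l z) ⊤ r + C := by
  have hml := f_mero hf l
  have hnz : NZ (f l) := by
    obtain ⟨z, hz⟩ := hl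
    rcases nz_or hml with h1 | h1
    · exact h1
    · exfalso
      have h2 : ∀ᶠ w in 𝓝[≠] z, f l w ≠ 0 :=
        ((hf l).continuous.continuousAt.eventually_ne hz).filter_mono nhdsWithin_le_nhds
      obtain ⟨w, h3, h4⟩ := ((codis_ev h1 z).and h2).exists
      exact h4 h3
  have hne := hnz.ne hml
  refine ⟨log ‖meromorphicTrailingCoeffAt (f l) 0‖, fun r hr => ?_⟩
  have hr0 : r ≠ 0 := by positivity
  have hav := f_avg hf (l := l) hr
  have hN : ValueDistribution.logCounting (f l) 0 r ≤
      ∑ i, ValueDistribution.logCounting (fun z => f i z / f l z) ⊤ r := by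
    have e1 : ∑ i, ValueDistribution.logCounting (fun z => f i z / f l z) ⊤ r =
        locallyFinsuppWithin.logCounting (∑ i, (divisor (fun z => f i z / f l z) univ)⁻) r := by
      rw [map_sum, Finset.sum_apply]
      apply Finset.sum_congr rfl
      intro i _
      rw [logCounting_top]
    rw [e1, logCounting_zero]
    apply locallyFinsuppWithin.logCounting_le _ hr
    intro z
    obtain ⟨i, hi⟩ := h0 z
    have e2 : ∀ (s : Finset (Fin (N + 1))), (divisor (fun z => f i z / f l z) univ z)⁻ ≤
        (∑ j ∈ insert i s, (divisor (fun z => f j z / f l z) univ)⁻ :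
          locallyFinsupp ℂ ℤ) z := by
      intro s
      classical
      have key : ∀ s : Finset (Fin (N + 1)),
          0 ≤ (∑ j ∈ s, (divisor (fun z => f j z / f l z) univ)⁻ : locallyFinsupp ℂ ℤ) := by
        intro s
        exact Finset.sum_nonneg fun j _ => negPart_nonneg _
      have h2 : (∑ j ∈ insert i s, (divisor (fun z => f j z / f l z) univ)⁻ :
          locallyFinsupp ℂ ℤ) = (divisor (fun z => f i z / f l z) univ)⁻ +
            ∑ j ∈ (insert i s).erase i, (divisor (fun z => f j z / f l z) univ)⁻ :=
        (Finset.add_sum_erase _ _ (Finset.mem_insert_self i s)).symm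
      rw [h2]
      have h3 := key ((insert i s).erase i) z
      change _ ≤ (divisor (fun z => f i z / f l z) univ z)⁻ + _
      have h4 : (0 : ℤ) ≤ (∑ j ∈ (insert i s).erase i,
        (divisor (fun z => f j z / f l z) univ)⁻ : locallyFinsupp ℂ ℤ) z := h3
      linarith
    have e3 := e2 Finset.univ
    rw [Finset.insert_eq_of_mem (Finset.mem_univ i)] at e3
    refine le_trans ?_ e3
    change (divisor (f l) univ z)⁺ ≤ _
    have hmi := f_mero hf i
    have hdiv : Meromorphic fun z => f i z / f l z := hmi.div hml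
    rw [divisor_apply hdiv.meromorphicOn (mem_univ z)]
    have h1 : meromorphicOrderAt (fun z => f i z / f l z) z =
        meromorphicOrderAt (f i) z - meromorphicOrderAt (f l) z :=
      meromorphicOrderAt_div (hmi z) (hml z)
    have h2 : meromorphicOrderAt (f i) z = 0 := by
      rw [((hf i).analyticAt z).meromorphicOrderAt_eq,
        ((hf i).analyticAt z).analyticOrderAt_eq_zero.2 hi]
      rfl
    rw [h1, h2, divisor_apply hml.meromorphicOn (mem_univ z)]
    have h3 := ((hf l).analyticAt z).meromorphicOrderAt_nonneg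
    have h4 := hnz z
    lift meromorphicOrderAt (f l) z to ℤ using h4 with n
    have h3' : 0 ≤ n := by exact_mod_cast h3
    have : (0 : WithTop ℤ) - (n : WithTop ℤ) = ((0 - n : ℤ) : WithTop ℤ) := rfl
    rw [this, WithTop.untop₀_coe, WithTop.untop₀_coe, posPart_of_nonneg h3',
      negPart_of_nonpos (by omega)]
    omega
  have hm : Tf f r ≤ circleAverage (fun z => Real.log ‖f l z‖) 0 r +
      ∑ i, proximity (fun z => f i z / f l z) ⊤ r := by
    have h1 : CircleIntegrable (fun z => Real.log ‖f l z‖) 0 r :=
      hml.meromorphicOn.circleIntegrable_log_norm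
    have h2 : ∀ i ∈ (Finset.univ : Finset (Fin (N + 1))),
        CircleIntegrable (fun z => log⁺ ‖f i z / f l z‖) 0 r := fun i _ =>
      ((f_mero hf i).div hml).meromorphicOn.circleIntegrable_posLog_norm
    have h3 : ∑ i, proximity (fun z => f i z / f l z) ⊤ r =
        circleAverage (fun z => ∑ i, log⁺ ‖f i z / f l z‖) 0 r := by
      rw [circleAverage_fun_sum h2]
      apply Finset.sum_congr rfl
      intro i _
      rw [proximity_top]
    unfold Tf
    rw [h3, ← circleAverage_fun_add h1 (CircleIntegrable.fun_sum _ h2)]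
    apply Pool.Agent.Helper160.Nev.circleAverage_mono_codiscrete hr0
    · exact curve_int hf h0 r
    · exact h1.add (CircleIntegrable.fun_sum _ h2)
    · have h2 : ∀ᶠ z in codiscreteWithin (sphere (0 : ℂ) |r|), f l z ≠ 0 :=
        hne.filter_mono (codiscreteWithin_mono (subset_univ _))
      filter_upwards [h2] with z hz
      have h5 : 0 < ‖f l z‖ := norm_pos_iff.2 hz
      have h6 : ‖(fun j => f j z : Fin (N + 1) → ℂ)‖ ≤
          ‖f l z‖ * Real.exp (∑ i, log⁺ ‖f i z / f l z‖) := by
        rw [pi_norm_le_iff_of_nonneg (by positivity)]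
        intro i
        have h7 : ‖f i z / f l z‖ ≤ Real.exp (log⁺ ‖f i z / f l z‖) := by
          rcases eq_or_lt_of_le (norm_nonneg (f i z / f l z)) with h8 | h8
          · rw [← h8]
            positivity
          · calc ‖f i z / f l z‖ = Real.exp (Real.log ‖f i z / f l z‖) := (Real.exp_log h8).symm
              _ ≤ _ := Real.exp_le_exp.2 (le_max_right _ _)
        have h8 : log⁺ ‖f i z / f l z‖ ≤ ∑ i, log⁺ ‖f i z / f l z‖ :=
          Finset.single_le_sum (f := fun i => log⁺ ‖f i z / f l z‖)
            (fun j _ => posLog_nonneg) (Finset.mem_univ i)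
        have h9 := h7.trans (Real.exp_le_exp.2 h8)
        rw [norm_div, div_le_iff₀ h5] at h9
        linarith
      have h7 := Real.log_le_log (curve_pos h0 z) h6
      rw [Real.log_mul h5.ne' (Real.exp_pos _).ne', Real.log_exp] at h7
      exact h7
  unfold characteristic
  simp only [Pi.add_apply, Finset.sum_add_distrib]
  linarith

end curve

end Pool.Agent.N131.SR
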