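import Mathlib
import Pool.Agent.N131.SR.Frob
import Pool.Agent.Y377.IL.SpA

/-!
The linear differential equation of the coordinates of a curve in the gauge of a form of the
complement.
-/

set_option autoImplicit false

namespace Pool.Agent.N131.SR

open MeasureTheory Set Filter Topology Metric Real ValueDistribution MeromorphicOn Function
open Asymptotics
open Pool.Agent.TH143.EL (codis_ev codis_of_ev mero_id mero_ne mero_an)

variable {L : Filter ℝ} {τ : ℝ → ℝ}

section classes

variable (H : Cmp L τ)
include H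

theorem OT.sum {ι : Type*} (s : Finset ι) {a : ι → ℂ → ℂ} (ha : ∀ i ∈ s, OT L τ (a i)) :
    OT L τ fun z => ∑ i ∈ s, a i z := by
  classical
  induction s using Finset.induction_on with
  | empty => simpa using (sm_const H 0).ot
  | insert i s hi ih =>
    simp only [Finset.sum_insert hi]
    exact (ha i (Finset.mem_insert_self i s)).add H
      (ih fun j hj => ha j (Finset.mem_insert_of_mem hj))

theorem OT.eval {σ : Type} {a : σ → ℂ → ℂ} (ha : ∀ i, OT L τ (a i)) (G : MvPolynomial σ ℂ) :
    OT L τ fun z => MvPolynomial.eval (fun j => a j z) G := by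
  induction G using MvPolynomial.induction_on with
  | C c =>
    simp only [MvPolynomial.eval_C]
    exact (sm_const H c).ot
  | add p q hp hq =>
    simp only [map_add]
    exact hp.add H hq
  | mul_X p i hp =>
    simp only [map_mul, MvPolynomial.eval_X]
    exact hp.mul H (ha i)

omit H in
theorem OT.congr {a b : ℂ → ℂ} (ha : OT L τ a) (H : Cmp L τ) (hb : Meromorphic b)
    (h : ∀ᶠ z in codiscrete ℂ, b z = a z) : OT L τ b :=
  ⟨hb, H.O_of_le (fun _ hr => ⟨char_nonneg _ hr, (char_le_of_congr h hr).le⟩) ha.2⟩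

end classes

theorem Eop_congr {u y y' : ℂ → ℂ} (h : ∀ᶠ z in codiscrete ℂ, y z = y' z) (k : ℕ) :
    ∀ᶠ z in codiscrete ℂ, Eop u k y z = Eop u k y' z := by
  induction k with
  | zero => exact h
  | succ k ih =>
    filter_upwards [ih, codis_deriv ih] with z e1 e2
    change deriv (Eop u k y) z - u z * Eop u k y z = deriv (Eop u k y') z - u z * Eop u k y' z
    rw [e1, e2]

theorem Eop_sum {ι : Type*} (s : Finset ι) {u : ℂ → ℂ} (hu : Meromorphic u) {y : ι → ℂ → ℂ}
    (hy : ∀ i ∈ s, Meromorphic (y i)) (c : ι → ℂ) (k : ℕ) :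
    ∀ᶠ z in codiscrete ℂ, Eop u k (fun z => ∑ i ∈ s, c i * y i z) z =
      ∑ i ∈ s, c i * Eop u k (y i) z := by
  induction k with
  | zero => exact Eventually.of_forall fun z => rfl
  | succ k ih =>
    have h1 := codis_deriv ih
    have h2 := codis_deriv_sum s (a := fun i z => c i * Eop u k (y i) z)
      fun i hi => (Meromorphic.const (c i)).mul (mero_Eop hu (hy i hi) k)
    have h3 : ∀ᶠ z in codiscrete ℂ, ∀ i ∈ s, AnalyticAt ℂ (Eop u k (y i)) z := by
      rw [eventually_all_finset]
      exact fun i hi => mero_an (mero_Eop hu (hy i hi) k)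
    filter_upwards [ih, h1, h2, h3] with z e1 e2 e3 e4
    change deriv (Eop u k fun z => ∑ i ∈ s, c i * y i z) z -
      u z * Eop u k (fun z => ∑ i ∈ s, c i * y i z) z = _
    rw [e1, e2, e3, Finset.mul_sum, ← Finset.sum_sub_distrib]
    apply Finset.sum_congr rfl
    intro i hi
    change deriv (fun z => c i * Eop u k (y i) z) z - _ = c i * (deriv (Eop u k (y i)) z -
      u z * Eop u k (y i) z)
    rw [deriv_const_mul _ (e4 i hi).differentiableAt]
    ring

section

variable {P : (ℂ → ℂ) → Prop} (H : Cl P) {ι : Type} {Y Z : ℕ → ι → ℂ → ℂ}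
include H

theorem Sp.trans {n m : ℕ} {F : ι → ℂ → ℂ} (hF : Sp P Y n F)
    (hY : ∀ i, i < n → Sp P Z m (Y i)) : Sp P Z m F := by
  obtain ⟨c, hc, h1⟩ := hF
  have h2 : Sp P Z m fun j z => ∑ i ∈ Finset.range n, c i z * Y i j z :=
    Sp.sum H _ fun i hi => (hY i (Finset.mem_range.1 hi)).smul H (hc i)
  exact h2.congr h1

/-- change of the gauge in a linear differential equation -/
theorem sp_gauge {u v : ℂ → ℂ} (hu : P u) (hv : P v) {y : ι → ℂ → ℂ}
    (hy : ∀ j, Meromorphic (y j)) {n : ℕ}
    (h : Sp P (fun i j => Eop u i (y j)) n fun j => Eop u n (y j)) :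
    Sp P (fun i j => Eop v i (y j)) n fun j => Eop v n (y j) := by
  have h1 : Sp P (fun i j => Eop u i (y j)) n fun j => Eop v n (y j) := by
    apply ((sp_shift H hu hv hy n).add H h).congr
    intro j
    exact Eventually.of_forall fun z => by ring
  apply h1.trans H
  intro i hi
  have h2 := (sp_shift H hv hu hy i).mono H (show i ≤ n by omega)
  have h3 := sp_self H (Y := fun i j => Eop v i (y j)) hi
  apply (h2.add H h3).congr
  intro j
  exact Eventually.of_forall fun z => by ring

end

/-- the operator preserves analyticity -/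
theorem an_Eop {u y : ℂ → ℂ} {z0 : ℂ} (hu : AnalyticAt ℂ u z0) (hy : AnalyticAt ℂ y z0) (k : ℕ) :
    AnalyticAt ℂ (Eop u k y) z0 := by
  induction k with
  | zero => exact hy
  | succ k ih => exact ih.deriv.sub (hu.mul ih)

/-- the Wronskian determinant -/
noncomputable def Wr {n : ℕ} (g : Fin n → ℂ → ℂ) (z : ℂ) : ℂ :=
  Matrix.det (Matrix.of fun i j : Fin n => iteratedDeriv i (g j) z)

theorem Wr_diff {n : ℕ} {g : Fin n → ℂ → ℂ} (hg : ∀ j, Differentiable ℂ (g j)) :
    Differentiable ℂ (Wr g) := by
  unfold Wr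
  simp only [Matrix.det_apply]
  intro z
  apply DifferentiableAt.fun_sum
  intro σ _
  apply DifferentiableAt.const_smul
  apply DifferentiableAt.fun_finsetProd
  intro i _
  have h1 : ContDiff ℂ ⊤ (g i) := (hg i).contDiff
  exact (h1.differentiable_iteratedDeriv _ (by exact_mod_cast WithTop.coe_lt_top _)) z

theorem cl_mero : Cl Meromorphic :=
  ⟨fun h => h, fun c => Meromorphic.const c, fun ha hb => ha.add hb, fun ha hb => ha.mul hb,
    fun ha => ha.deriv⟩

/-- the Wronskian determinant does not depend on the gauge -/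
theorem det_shift {n : ℕ} {y : Fin n → ℂ → ℂ} (hy : ∀ j, Meromorphic (y j)) {u : ℂ → ℂ}
    (hu : Meromorphic u) : ∀ᶠ z in codiscrete ℂ,
      (Matrix.of fun i j : Fin n => Eop u i (y j) z).det =
        (Matrix.of fun i j : Fin n => Eop (fun _ => 0) i (y j) z).det := by
  classical
  have hsh : ∀ i, ∃ p : ℕ → ℂ → ℂ, ∀ j : Fin n, ∀ᶠ z in codiscrete ℂ,
      Eop u i (y j) z - Eop (fun _ => 0) i (y j) z =
        ∑ l ∈ Finset.range i, p l z * Eop (fun _ => 0) l (y j) z := by
    intro i
    obtain ⟨p, -, hp⟩ := sp_shift cl_mero (Meromorphic.const 0) hu hy i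
    exact ⟨p, hp⟩
  choose p hp using hsh
  set T : ℂ → Matrix (Fin n) (Fin n) ℂ := fun z => Matrix.of fun i l : Fin n =>
    if i = l then 1 else if (l : ℕ) < i then p i l z else 0 with hT
  have hdetT : ∀ z, (T z).det = 1 := by
    intro z
    rw [Matrix.det_of_isLowerTriangular]
    · apply Finset.prod_eq_one
      intro i _
      simp [hT]
    · intro i l hil
      have h1 : (i : Fin n) < l := by simpa using hil
      have h2 : i ≠ l := ne_of_lt h1
      have h3 : ¬ (l : ℕ) < i := by
        have : (i : ℕ) < l := h1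
        omega
      simp only [hT, Matrix.of_apply, if_neg h2, if_neg h3]
  have h1 : ∀ᶠ z in codiscrete ℂ, ∀ i : Fin n, ∀ j : Fin n,
      Eop u i (y j) z - Eop (fun _ => 0) i (y j) z =
        ∑ l ∈ Finset.range i, p i l z * Eop (fun _ => 0) l (y j) z := by
    rw [eventually_all]
    intro i
    rw [eventually_all]
    intro j
    exact hp i j
  filter_upwards [h1] with z hz
  have hprod : (Matrix.of fun i j : Fin n => Eop u i (y j) z) =
      T z * Matrix.of fun i j : Fin n => Eop (fun _ => 0) i (y j) z := by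
    ext i j
    rw [Matrix.mul_apply]
    have h2 := hz i j
    have h3 : ∑ l : Fin n, T z i l * Eop (fun _ => 0) l (y j) z =
        Eop (fun _ => 0) i (y j) z + ∑ l ∈ Finset.range i, p i l z *
          Eop (fun _ => 0) l (y j) z := by
      have h4 : ∀ l : Fin n, T z i l * Eop (fun _ => 0) l (y j) z =
          (if i = l then Eop (fun _ => 0) l (y j) z else 0) +
            (if (l : ℕ) < i then p i l z * Eop (fun _ => 0) l (y j) z else 0) := by
        intro l
        simp only [hT, Matrix.of_apply]
        by_cases h5 : i = l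
        · subst h5
          simp
        · by_cases h6 : (l : ℕ) < i
          · simp [h5, h6]
          · simp [h5, h6]
      rw [Finset.sum_congr rfl fun l _ => h4 l, Finset.sum_add_distrib]
      congr 1
      · rw [Finset.sum_ite_eq, if_pos (Finset.mem_univ i)]
      · rw [Fin.sum_univ_eq_sum_range (fun l => if l < (i : ℕ) then
          p i l z * Eop (fun _ => 0) l (y j) z else 0) n, ← Finset.sum_filter]
        apply Finset.sum_congr _ fun _ _ => rfl
        ext l
        simp only [Finset.mem_filter, Finset.mem_range]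
        have := i.2
        constructor
        · rintro ⟨-, h⟩; exact h
        · intro h; exact ⟨by omega, h⟩
    simp only [Matrix.of_apply] at h3 ⊢
    rw [h3, ← h2]
    ring
  rw [hprod, Matrix.det_mul, hdetT, one_mul]

/-- coefficients of a linear differential equation are analytic where the Wronskian and the
gauge are good -/
theorem coef_order {n : ℕ} {g : Fin n → ℂ → ℂ} (hg : ∀ j, Differentiable ℂ (g j))
    {u : ℂ → ℂ} (hum : Meromorphic u) {z0 : ℂ} (hu : AnalyticAt ℂ u z0) (hW : Wr g z0 ≠ 0)
    {c : ℕ → ℂ → ℂ} (hc : ∀ j : Fin n, ∀ᶠ z in codiscrete ℂ, Eop u n (g j) z =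
      ∑ i ∈ Finset.range n, c i z * Eop u i (g j) z) {k : ℕ} (hk : k < n) :
    0 ≤ meromorphicOrderAt (c k) z0 := by
  classical
  have hgm : ∀ j, Meromorphic (g j) := fun j z => ((hg j).analyticAt z).meromorphicAt
  set E : ℂ → Matrix (Fin n) (Fin n) ℂ := fun z => Matrix.of fun i j => Eop u i (g j) z with hE
  have hdet : ∀ᶠ z in codiscrete ℂ, (E z).det = Wr g z := by
    filter_upwards [det_shift hgm hum] with z hz
    rw [hE]
    simp only
    rw [hz]
    simp only [Eop_zero_fn]
    rfl
  have hcr : ∀ᶠ z in codiscrete ℂ, c k z * Wr g z =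
      ∑ j : Fin n, Eop u n (g j) z * (E z).adjugate j ⟨k, hk⟩ := by
    filter_upwards [eventually_all.2 hc, hdet] with z h1 h2
    have h3 : Matrix.vecMul (fun i : Fin n => c i z) (E z) = fun j => Eop u n (g j) z := by
      funext j
      rw [h1 j, Matrix.vecMul, dotProduct]
      rw [← Fin.sum_univ_eq_sum_range (fun i => c i z * Eop u i (g j) z) n]
      rfl
    have h4 : Matrix.vecMul (fun j => Eop u n (g j) z) (E z).adjugate =
        (E z).det • fun i : Fin n => c i z := by
      rw [← h3, Matrix.vecMul_vecMul, Matrix.mul_adjugate, Matrix.vecMul_smul, Matrix.vecMul_one]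
    have h5 := congrFun h4 ⟨k, hk⟩
    rw [Matrix.vecMul, dotProduct] at h5
    rw [h5, h2]
    simp only [Pi.smul_apply, smul_eq_mul]
    ring
  have han : AnalyticAt ℂ (fun z => (∑ j : Fin n, Eop u n (g j) z *
      (E z).adjugate j ⟨k, hk⟩) * (Wr g z)⁻¹) z0 := by
    have hga : ∀ j, AnalyticAt ℂ (g j) z0 := fun j => (hg j).analyticAt z0
    apply AnalyticAt.mul
    · apply Finset.analyticAt_fun_sum
      intro j _
      apply AnalyticAt.mul
      · exact an_Eop hu (hga j) n
      · simp only [Matrix.adjugate_apply, Matrix.det_apply]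
        apply Finset.analyticAt_fun_sum
        intro σ _
        apply AnalyticAt.const_smul
        apply Finset.analyticAt_fun_prod
        intro i _
        by_cases h1 : σ i = ⟨k, hk⟩
        · simp only [h1, Matrix.updateRow_self]
          exact analyticAt_const
        · simp only [Matrix.updateRow_ne h1]
          exact an_Eop hu (hga i) _
    · exact ((Wr_diff hg).analyticAt z0).inv hW
  refine le_of_le_of_eq han.meromorphicOrderAt_nonneg ?_
  apply meromorphicOrderAt_congr
  have hWne : ∀ᶠ z in 𝓝[≠] z0, Wr g z ≠ 0 :=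
    ((Wr_diff hg).continuous.continuousAt.eventually_ne hW).filter_mono nhdsWithin_le_nhds
  filter_upwards [codis_ev hcr z0, hWne] with z h1 h2
  rw [← h1, mul_assoc, mul_inv_cancel₀ h2, mul_one]

open Pool.Agent.Y377.IL (DB IterLin)

theorem IterLin.sum {B : Subalgebra ℂ (ℂ → ℂ)} {ι : Type*} (s : Finset ι) {a : ι → ℂ → ℂ}
    (ha : ∀ i ∈ s, IterLin B (a i)) : IterLin B fun z => ∑ i ∈ s, a i z := by
  classical
  induction s using Finset.induction_on with
  | empty =>
    simp only [Finset.sum_empty]
    exact Pool.Agent.Y377.IL.IterLin.const B 0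
  | insert i s hi ih =>
    simp only [Finset.sum_insert hi]
    exact (ha i (Finset.mem_insert_self i s)).add
      (ih fun j hj => ha j (Finset.mem_insert_of_mem hj))

theorem iter_ode {B : Subalgebra ℂ (ℂ → ℂ)} {κ : Type} [Fintype κ] (A : κ → κ → ℂ → ℂ)
    (y : κ → ℂ → ℂ) (hA : ∀ i j, IterLin B (A i j)) (hy : ∀ i, Meromorphic (y i))
    (h : ∀ᶠ z in codiscrete ℂ, ∀ i, HasDerivAt (y i) (∑ j, A i j z * y j z) z) (i : κ) :
    IterLin B (y i) := by
  classical
  let e := Fintype.equivFin κ
  have h1 := IterLin.ode (B := B) (fun a b => A (e.symm a) (e.symm b)) (fun a => y (e.symm a))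
    (fun a b => hA _ _) (fun a => hy _) (by
      filter_upwards [h] with z hz a
      have h2 := hz (e.symm a)
      have h3 : ∑ b, A (e.symm a) (e.symm b) z * y (e.symm b) z =
          ∑ j, A (e.symm a) j z * y j z := Equiv.sum_comp e.symm fun j => A (e.symm a) j z * y j z
      rw [h3]
      exact h2) (e i)
  simpa using h1

/-- products of functions with the same linear differential equation, in a gauge -/
theorem iter_prod {B : Subalgebra ℂ (ℂ → ℂ)} {n d : ℕ} (hn : 0 < n) {q : ℂ → ℂ}
    (hq : Meromorphic q) (hq0 : ∀ᶠ z in codiscrete ℂ, q z ≠ 0) {u : ℂ → ℂ} (hu : Meromorphic u)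
    (hqu : ∀ᶠ z in codiscrete ℂ, deriv q z = d * u z * q z) {c : ℕ → ℂ → ℂ}
    (hc : ∀ k < n, IterLin B (c k)) {y : Fin d → ℂ → ℂ} (hy : ∀ i, Meromorphic (y i))
    (h : ∀ i, ∀ᶠ z in codiscrete ℂ, Eop u n (y i) z =
      ∑ k ∈ Finset.range n, c k z * Eop u k (y i) z) :
    IterLin B fun z => (∏ i, y i z) / q z := by
  classical
  let Y : (Fin d → Fin n) → ℂ → ℂ := fun k z => (q z)⁻¹ * ∏ i, Eop u (k i) (y i) z
  let M : Fin n → Fin n → ℂ → ℂ := fun a m z =>
    (if (a : ℕ) + 1 = m then 1 else 0) + (if (a : ℕ) + 1 = n then c m z else 0)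
  let A : (Fin d → Fin n) → (Fin d → Fin n) → ℂ → ℂ := fun k k' z =>
    ∑ i : Fin d, ∑ m : Fin n, if k' = Function.update k i m then M (k i) m z else 0
  have hM : ∀ a m, IterLin B (M a m) := by
    intro a m
    have h1 : IterLin B fun z => (if (a : ℕ) + 1 = m then (1 : ℂ) else 0) := by
      split_ifs
      · exact Pool.Agent.Y377.IL.IterLin.const B 1
      · exact Pool.Agent.Y377.IL.IterLin.const B 0
    have h2 : IterLin B fun z => (if (a : ℕ) + 1 = n then c m z else 0) := by
      split_ifs
      · exact hc m m.2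
      · exact Pool.Agent.Y377.IL.IterLin.const B 0
    exact h1.add h2
  have hA : ∀ k k', IterLin B (A k k') := by
    intro k k'
    apply IterLin.sum
    intro i _
    apply IterLin.sum
    intro m _
    split_ifs
    · exact hM _ _
    · exact Pool.Agent.Y377.IL.IterLin.const B 0
  have hYm : ∀ k, Meromorphic (Y k) := by
    intro k
    have h1 : Meromorphic fun z => ∏ i, Eop u (k i) (y i) z := by
      intro z
      exact MeromorphicAt.fun_prod fun i _ => mero_Eop hu (hy i) _ z
    exact hq.inv.mul h1
  have hYd : ∀ᶠ z in codiscrete ℂ, ∀ k, HasDerivAt (Y k) (∑ k', A k k' z * Y k' z) z := by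
    have e1 : ∀ᶠ z in codiscrete ℂ, ∀ i : Fin d, ∀ k ∈ Finset.range n,
        AnalyticAt ℂ (Eop u k (y i)) z := by
      rw [eventually_all]
      intro i
      rw [eventually_all_finset]
      exact fun k _ => mero_an (mero_Eop hu (hy i) k)
    filter_upwards [e1, eventually_all.2 h, mero_an hq, hq0, hqu] with z h1 h2 h3 h4 h5 k
    have d1 : HasDerivAt (fun z => (q z)⁻¹) (-deriv q z / q z ^ 2) z :=
      h3.differentiableAt.hasDerivAt.inv h4
    have d2 : ∀ i, HasDerivAt (Eop u (k i) (y i)) (deriv (Eop u (k i) (y i)) z) z := fun i =>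
      (h1 i (k i) (Finset.mem_range.2 (k i).2)).differentiableAt.hasDerivAt
    have d3 : HasDerivAt (fun z => ∏ i, Eop u (k i) (y i) z)
        (∑ i, (∏ j ∈ Finset.univ.erase i, Eop u (k j) (y j) z) • deriv (Eop u (k i) (y i)) z) z :=
      HasDerivAt.fun_finsetProd fun i _ => d2 i
    have d4 := d1.mul d3
    refine d4.congr_deriv ?_
    -- the derivatives of the factors
    have h6 : ∀ i, deriv (Eop u (k i) (y i)) z = u z * Eop u (k i) (y i) z +
        ∑ m : Fin n, M (k i) m z * Eop u m (y i) z := by
      intro i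
      have h7 : deriv (Eop u (k i) (y i)) z = u z * Eop u (k i) (y i) z +
          Eop u (k i + 1) (y i) z := by
        change _ = _ + (deriv (Eop u (k i) (y i)) z - u z * Eop u (k i) (y i) z)
        ring
      rw [h7]
      congr 1
      simp only [M, add_mul, Finset.sum_add_distrib, ite_mul, one_mul, zero_mul]
      by_cases h8 : (k i : ℕ) + 1 = n
      · have h9 : ∀ m : Fin n, ¬ n = (m : ℕ) := fun m hm => by
          have := m.2
          omega
        simp only [h8, if_true, h9, if_false, Finset.sum_const_zero, zero_add]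
        rw [h2 i, ← Fin.sum_univ_eq_sum_range (fun m => c m z * Eop u m (y i) z) n]
      · have h9 : (k i : ℕ) + 1 < n := by
          have := (k i).2
          omega
        simp only [h8, if_false, Finset.sum_const_zero, add_zero]
        rw [Finset.sum_eq_single (⟨(k i : ℕ) + 1, h9⟩ : Fin n)]
        · simp
        · intro m _ hm
          rw [if_neg]
          intro h10
          exact hm (Fin.ext h10.symm)
        · intro h10
          exact absurd (Finset.mem_univ _) h10
    have h7 : ∀ i, (∏ j ∈ Finset.univ.erase i, Eop u (k j) (y j) z) •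
        deriv (Eop u (k i) (y i)) z = u z * ∏ j, Eop u (k j) (y j) z +
          ∑ m : Fin n, M (k i) m z * ∏ j, Eop u (Function.update k i m j) (y j) z := by
      intro i
      have h8 : ∀ m : Fin n, ∏ j, Eop u (Function.update k i m j) (y j) z =
          (∏ j ∈ Finset.univ.erase i, Eop u (k j) (y j) z) * Eop u m (y i) z := by
        intro m
        rw [← Finset.prod_erase_mul _ _ (Finset.mem_univ i), Function.update_self]
        congr 1
        apply Finset.prod_congr rfl
        intro j hj
        rw [Function.update_of_ne (Finset.ne_of_mem_erase hj)]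
      rw [h6 i, ← Finset.prod_erase_mul _ _ (Finset.mem_univ i), smul_eq_mul, mul_add,
        Finset.mul_sum]
      congr 1
      · ring
      · apply Finset.sum_congr rfl
        intro m _
        rw [h8 m]
        ring
    rw [Finset.sum_congr rfl fun i _ => h7 i, Finset.sum_add_distrib, Finset.sum_const,
      Finset.card_univ, Fintype.card_fin, nsmul_eq_mul, h5]
    have h8 : ∑ k', A k k' z * Y k' z =
        (q z)⁻¹ * ∑ i, ∑ m : Fin n, M (k i) m z *
          ∏ j, Eop u (Function.update k i m j) (y j) z := by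
      simp only [A, Finset.sum_mul, Finset.mul_sum]
      rw [Finset.sum_comm]
      apply Finset.sum_congr rfl
      intro i _
      rw [Finset.sum_comm]
      apply Finset.sum_congr rfl
      intro m _
      rw [Finset.sum_eq_single (Function.update k i m)]
      · rw [if_pos rfl]
        simp only [Y]
        ring
      · intro k' _ hk'
        rw [if_neg hk', zero_mul]
      · intro h10
        exact absurd (Finset.mem_univ _) h10
    rw [h8]
    field_simp
    ring
  have h1 := iter_ode A Y hA hYm hYd fun _ => ⟨0, hn⟩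
  have h2 : Y (fun _ => ⟨0, hn⟩) = fun z => (∏ i, y i z) / q z := by
    funext z
    change (q z)⁻¹ * ∏ i, y i z = _
    rw [div_eq_inv_mul]
  rwa [h2] at h1

end Pool.Agent.N131.SR
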