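import Pool.Agent.Y377.IL.AllE

/-!
Curves in projective varieties which meet a hypersurface, with regular functions of the complement
given by iterated linear differential equations: the statements of `Y377/IL/Log`, `SpB`, `AllD` and
`AllE` for curves which are not contained in the hypersurface.
-/

set_option autoImplicit false

namespace Pool.Agent.N131.SR

open Set Filter Topology MvPolynomial Pool.Agent.Y377.EL Pool.Agent.Y377.IL
open scoped LinearAlgebra.Projectivization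
open Pool.Agent.TH143.EL (TrOne HolMap Rep InV inV_iff inV_of_punct mero_an mero_ne mero_id
  freq_of_ev codis_ev codis_nhds codis_of_ev mero_eval rep_rep rep_iff rep_smul)
open Pool.Agent.TH143.GT (FunField)
open Pool.Agent.W602.GT (IsForm LogGeneralType)
open Pool.Agent.W603.GR (OffQ)

variable {N : ℕ}

/-- **Curves which are not contained in a hypersurface, with regular functions of the complement
in the class.** -/
theorem log_main (H : Hyp) (hT : S_TAY) (hFML : S_FML) (hFRC : S_FRC) (hRT : S_RT)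
    (hLOGP : S_LOGP) (hPF : S_PF) {Q : MvPolynomial (Fin (N + 1)) ℂ} {d : ℕ} (hd : 0 < d)
    (hQ : Q.IsHomogeneous d) {B : Subalgebra ℂ (ℂ → ℂ)} (hB : DB B)
    {f : ℂ → ℙ ℂ (Fin (N + 1) → ℂ)} (hf : HolMap f) (hX : ∀ᶠ z in codiscrete ℂ, eval (f z).rep Q ≠ 0)
    (hl : ∀ α : Fin (N + 1) →₀ ℕ, ∑ j, α j = d → IterLin B (regf Q α f)) :
    AlgebraicOver B f ∨
      ∃ (M : Type) (_ : Field M) (_ : Algebra ℂ M) (P : Fin (N + 1) → Polynomial M),
        (∀ G : MvPolynomial (Fin (N + 1)) ℂ, (∃ e, G.IsHomogeneous e) →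
          (aeval P G = 0 ↔ ∀ z, eval (f z).rep G = 0)) ∧
        (∃ (c : M) (k : ℕ), c ≠ 0 ∧ aeval P Q = Polynomial.C c * Polynomial.X ^ k) ∧
        ∃ j k, Polynomial.derivative (P j) * P k ≠ P j * Polynomial.derivative (P k) := by
  classical
  obtain ⟨D, hD, hC⟩ := hFRC
  obtain ⟨l, hl0⟩ := Function.ne_iff.1 (f 0).rep_nonzero
  obtain ⟨-, hne⟩ := hRT N f hf l ⟨0, hl0⟩
  let α : Fin (N + 1) → Fin (N + 1) →₀ ℕ := fun j => Finsupp.single j 1 + Finsupp.single l (d - 1)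
  have hα : ∀ j, ∑ i, α j i = d := by
    intro j
    rw [sum_two]
    omega
  let h : Fin (N + 1) → ℂ → ℂ := fun j => regf Q (α j) f
  let c : ℂ → ℂ := fun z => (f z).rep l ^ (d - 1) / eval (f z).rep Q
  have hh : ∀ z, (fun j => h j z) = fun j => c z * (f z).rep j := by
    intro z
    funext j
    change (∏ i, (f z).rep i ^ α j i) / eval (f z).rep Q = _
    rw [prod_two]
    change _ = (f z).rep l ^ (d - 1) / eval (f z).rep Q * (f z).rep j
    ring
  have hc : ∀ z, (f z).rep l ≠ 0 → eval (f z).rep Q ≠ 0 → c z ≠ 0 := fun z hz hz2 =>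
    div_ne_zero (pow_ne_zero _ hz) hz2
  have hr : ∀ᶠ z in codiscrete ℂ, Rep (f z) fun j => h j z := by
    filter_upwards [hne, hX] with z hz hz2
    rw [hh z]
    exact (rep_smul (hc z hz hz2)).2 (rep_rep (f z))
  have hlh : ∀ j, IterLin B (h j) := fun j => hl (α j) (hα j)
  -- the regular functions
  let A : Finset (Fin (N + 1) →₀ ℕ) := Finset.univ.finsuppAntidiag d
  have hA : ∀ β : Fin (N + 1) →₀ ℕ, β ∈ A ↔ ∑ j, β j = d := by
    intro β
    rw [Finset.mem_finsuppAntidiag]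
    exact ⟨fun h1 => h1.1, fun h1 => ⟨h1, Finset.subset_univ _⟩⟩
  obtain ⟨z0, l', R, hz0, hF, hk⟩ := exists_fpt' hT hFML hB hD hlh
    (P := fun z => eval (f z).rep Q ≠ 0) hX (hr.mono fun z hz => hz.1)
    (ι := A) (k := fun β => regf Q β.1 f) (fun β => hl β.1 ((hA β.1).1 β.2))
  let x : Fin (N + 1) → LK := fun j => ty z0 (h j)
  by_cases hall : ∀ j, IsAlgebraic (baseF hT B z0) (x j / x l')
  · exact Or.inl (algebraicOver_of_ty hB hlh hF.an hF.ne' hr hall)
  right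
  push Not at hall
  obtain ⟨j0, hj0⟩ := hall
  have hQx : aeval x Q ≠ 0 := by
    intro h0
    obtain ⟨z, ⟨hz1, hz2⟩, hz3⟩ := ((((hF.val Q).1 h0).and hne).and hX).exists
    rw [hh z, eval_scale hQ] at hz1
    rcases mul_eq_zero.1 hz1 with h1 | h1
    · exact hc z hz2 hz3 (pow_eq_zero_iff hd.ne'|>.1 h1)
    · exact hz3 h1
  have hreg : ∀ β : Fin (N + 1) →₀ ℕ, ∑ j, β j = d →
      (∏ j, x j ^ β j) / aeval x Q = ty z0 (regf Q β f) ∧ ty z0 (regf Q β f) ∈ R := by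
    intro β hβ
    obtain ⟨k1, k2⟩ := hk ⟨β, (hA β).2 hβ⟩
    refine ⟨?_, k2⟩
    rw [div_eq_iff hQx, ← aeval_mon]
    obtain ⟨a1, b1⟩ := ty_eval hT hF.an (monomial β (1 : ℂ))
    obtain ⟨a2, b2⟩ := ty_eval hT hF.an Q
    have e1 : aeval x (monomial β (1 : ℂ)) =
        ty z0 (fun z => eval (fun j => h j z) (monomial β (1 : ℂ))) := b1.symm
    have e2 : aeval x Q = ty z0 (fun z => eval (fun j => h j z) Q) := b2.symm
    rw [e1, e2, ← ty_mul hT k1 a2]
    apply ty_congr hT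
    have hnh : ∀ᶠ z in 𝓝 z0, eval (f z).rep Q ≠ 0 :=
      codis_nhds (U := {z | eval (f z).rep Q ≠ 0}) hX hz0
    filter_upwards [hnh] with z hXz
    have e3 : ∀ v : Fin (N + 1) → ℂ, eval v (monomial β (1 : ℂ)) = ∏ j, v j ^ β j := by
      intro v
      rw [← aeval_eq_eval, aeval_mon]
    have hmon : (monomial β (1 : ℂ)).IsHomogeneous d := by
      apply isHomogeneous_monomial
      rw [Finsupp.degree_eq_sum]
      exact hβ
    rw [hh z, eval_scale hmon, eval_scale hQ, e3]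
    change _ = (∏ j, (f z).rep j ^ β j) / eval (f z).rep Q * _
    rw [div_mul_eq_mul_div, eq_div_iff hXz]
    ring
  let t : Finset LK := (Finset.univ.image fun j => x j / x l') ∪
    A.image fun β => (∏ j, x j ^ β j) / aeval x Q
  have hRF : RatFam R t := by
    refine H.main hC (baseF_good hT hB z0 hD) hF.tow (fun a ha => ?_) ⟨x j0 / x l',
      Finset.mem_union_left _ (Finset.mem_image.2 ⟨j0, Finset.mem_univ j0, rfl⟩), hj0⟩
    rcases Finset.mem_union.1 ha with h1 | h1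
    · obtain ⟨j, -, rfl⟩ := Finset.mem_image.1 h1
      exact (frac R).div_mem (le_frac R (hF.mem j)) (le_frac R (hF.mem l'))
    · obtain ⟨β, hβ, rfl⟩ := Finset.mem_image.1 h1
      obtain ⟨h2, h3⟩ := hreg β ((hA β).1 hβ)
      rw [h2]
      exact le_frac R h3
  obtain ⟨M, i1, i2, P, h1, h2, h3⟩ := hPF hLOGP LK N d Q hd hQ x l' R t hF.ne' hQx hRF
    (fun a ha => by
      rcases Finset.mem_union.1 ha with h1 | h1
      · obtain ⟨j, -, rfl⟩ := Finset.mem_image.1 h1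
        exact Or.inl ⟨j, rfl⟩
      · obtain ⟨β, hβ, rfl⟩ := Finset.mem_image.1 h1
        exact Or.inr ⟨β, (hA β).1 hβ, rfl⟩)
    (fun j => Finset.mem_union_left _ (Finset.mem_image.2 ⟨j, Finset.mem_univ j, rfl⟩))
    (fun β hβ => ⟨Finset.mem_union_right _ (Finset.mem_image.2 ⟨β, (hA β).2 hβ, rfl⟩), by
      obtain ⟨h2, h3⟩ := hreg β hβ
      rw [h2]
      exact h3⟩)
  refine ⟨M, i1, i2, P, fun G hG => ?_, h2, h3⟩
  rw [h1 G hG, ← form_rep hf hr hG]
  exact hF.val G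

/-- forms which vanish on all curves of the multiplicative group vanish on the curve -/
theorem log_gm (H : Hyp) (hT : S_TAY) (hFML : S_FML) (hFRC : S_FRC) (hRT : S_RT)
    (hLOGP : S_LOGP) (hPF : S_PF) (hRCQ : S_RCQ)
    {I : Ideal (MvPolynomial (Fin (N + 1)) ℂ)} {Q : MvPolynomial (Fin (N + 1)) ℂ} {d : ℕ}
    (hd : 0 < d) (hQ : Q.IsHomogeneous d) {B : Subalgebra ℂ (ℂ → ℂ)} (hB : DB B)
    {f : ℂ → ℙ ℂ (Fin (N + 1) → ℂ)} (hf : HolMap f) (hI : ∀ z, InV I (f z))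
    (hX : ∀ᶠ z in codiscrete ℂ, eval (f z).rep Q ≠ 0)
    (hl : ∀ α : Fin (N + 1) →₀ ℕ, ∑ j, α j = d → IterLin B (regf Q α f)) :
    AlgebraicOver B f ∨ ∀ G : MvPolynomial (Fin (N + 1)) ℂ, (∃ e, G.IsHomogeneous e) →
      (∀ p : Fin (N + 1) → Polynomial ℂ, GmCurve I Q p → ∀ t, t ≠ 0 →
        eval (fun j => (p j).eval t) G = 0) → ∀ z, eval (f z).rep G = 0 := by
  rcases log_main H hT hFML hFRC hRT hLOGP hPF hd hQ hB hf hX hl with h1 |
    ⟨M, i1, i2, P, h1, h2, h3⟩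
  · exact Or.inl h1
  · right
    intro G hG hGm
    rw [← h1 G hG]
    have hev : ∀ (p : Fin (N + 1) → Polynomial ℂ) (G : MvPolynomial (Fin (N + 1)) ℂ) (u : ℂ),
        (aeval p G : Polynomial ℂ).eval u = eval (fun j => (p j).eval u) G := by
      intro p G u
      have e1 := MvPolynomial.comp_aeval_apply (f := p) (Polynomial.aeval u) G
      rw [Polynomial.coe_aeval_eq_eval] at e1
      rw [e1, MvPolynomial.aeval_eq_eval]
    refine hRCQ N I Q G (fun p e1 e2 e3 => ?_) M P (fun G' hG' hGh' => ?_) h2 h3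
    · apply poly_ne
      intro t ht
      rw [hev]
      refine hGm p ⟨fun u hu => ?_, fun u _ G' hG' hGh' => ?_, nonconst_of_wr' e3⟩ t ht
      · obtain ⟨c, k, hc, hck⟩ := e2
        rw [← hev, hck, Polynomial.eval_mul, Polynomial.eval_C, Polynomial.eval_pow,
          Polynomial.eval_X]
        exact mul_ne_zero hc (pow_ne_zero _ hu)
      · rw [← hev, e1 G' hG' hGh', Polynomial.eval_zero]
    · rw [h1 G' hGh']
      exact fun z => hI z G' hG' hGh'

section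

variable {Q : MvPolynomial (Fin (N + 1)) ℂ} {d : ℕ} {B : Subalgebra ℂ (ℂ → ℂ)}
  {f : ℂ → ℙ ℂ (Fin (N + 1) → ℂ)}

theorem log_family (hd : 0 < d) (hQ : Q.IsHomogeneous d) (hB : DB B) (hf : HolMap f)
    (hX : ∀ᶠ z in codiscrete ℂ, eval (f z).rep Q ≠ 0)
    (hl : ∀ α : Fin (N + 1) →₀ ℕ, ∑ j, α j = d → IterLin B (regf Q α f)) :
    AlgebraicOver B f ∨
      ∃ (M : Type) (_ : Field M) (_ : Algebra ℂ M) (P : Fin (N + 1) → Polynomial M),
        (∀ G : MvPolynomial (Fin (N + 1)) ℂ, (∃ e, G.IsHomogeneous e) →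
          (aeval P G = 0 ↔ ∀ z, eval (f z).rep G = 0)) ∧
        (∃ (c : M) (k : ℕ), c ≠ 0 ∧ aeval P Q = Polynomial.C c * Polynomial.X ^ k) ∧
        ∃ j k, Polynomial.derivative (P j) * P k ≠ P j * Polynomial.derivative (P k) :=
  log_main hyp Pool.Agent.Y564.IL.t_TAY Pool.Agent.Y954.IL.t_FML Pool.Agent.Y884.IL.t_FRC
    Pool.Agent.Y125.IL.t_RT Pool.Agent.Y988.IL.t_LOGP Pool.Agent.Y814.IL.t_PF hd hQ hB hf hX hl

theorem log_cover {I : Ideal (MvPolynomial (Fin (N + 1)) ℂ)} (hd : 0 < d)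
    (hQ : Q.IsHomogeneous d) (hB : DB B) (hf : HolMap f) (hI : ∀ z, InV I (f z))
    (hX : ∀ᶠ z in codiscrete ℂ, eval (f z).rep Q ≠ 0)
    (hl : ∀ α : Fin (N + 1) →₀ ℕ, ∑ j, α j = d → IterLin B (regf Q α f)) :
    AlgebraicOver B f ∨ ∀ G : MvPolynomial (Fin (N + 1)) ℂ, (∃ e, G.IsHomogeneous e) →
      (∀ p : Fin (N + 1) → Polynomial ℂ, GmCurve I Q p → ∀ t, t ≠ 0 →
        eval (fun j => (p j).eval t) G = 0) → ∀ z, eval (f z).rep G = 0 :=
  log_gm hyp Pool.Agent.Y564.IL.t_TAY Pool.Agent.Y954.IL.t_FML Pool.Agent.Y884.IL.t_FRC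
    Pool.Agent.Y125.IL.t_RT Pool.Agent.Y988.IL.t_LOGP Pool.Agent.Y814.IL.t_PF
    Pool.Agent.Y356.IL.t_RCQ hd hQ hB hf hI hX hl

/-- varieties with a dense curve of this kind are not of logarithmic general type, or the curve is
algebraic over the base -/
theorem log_not_gt {p : Ideal (MvPolynomial (Fin (N + 1)) ℂ)} {K : Type} [Field K] [Algebra ℂ K]
    {w : ℕ} {y : Fin (N + 1) → K} (hy : FunField p Q K w y) (hd : 0 < d)
    (hQ : Q.IsHomogeneous d) (hB : DB B) (hf : HolMap f) (hI : ∀ z, InV p (f z))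
    (hX : ∀ᶠ z in codiscrete ℂ, eval (f z).rep Q ≠ 0)
    (hl : ∀ α : Fin (N + 1) →₀ ℕ, ∑ j, α j = d → IterLin B (regf Q α f)) (hden : Dense p f) :
    AlgebraicOver B f ∨ ¬ LogGeneralType ℂ K w (OffQ Q d y) := by
  rcases log_family hd hQ hB hf hX hl with h1 | ⟨M, i1, i2, P, h1, h2, h3⟩
  · exact Or.inl h1
  · right
    refine Pool.Agent.Y405.IL.t_LGT N p Q d K w y hQ hy M P (fun G hG => ?_) h2 h3
    constructor
    · intro h0
      rw [h1 G hG]
      exact fun z => hI z G (hy.mem G hG h0) hG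
    · intro h0
      exact hy.sub.mem G (hden G hG ((h1 G hG).1 h0))

end

end Pool.Agent.N131.SR
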