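import Mathlib
import Pool.Agent.N131.SR.Gauge
import Pool.Agent.N131.SR.LogM
import Pool.Agent.H159R3.NV.Wron

/-!
The regular functions of the complement of a hypersurface along a curve with a small Wronskian and
few intersections with the hypersurface.
-/

set_option autoImplicit false

namespace Pool.Agent.N131.SR

open MeasureTheory Set Filter Topology Metric Real ValueDistribution MeromorphicOn Function
open Asymptotics MvPolynomial
open scoped LinearAlgebra.Projectivization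
open Pool.Agent.TH143.EL (codis_ev codis_of_ev mero_id mero_ne mero_an HolMap Rep InV)
open Pool.Agent.Y377.IL (DB IterLin AlgRatio AlgebraicOver regf eval_scale)

theorem form_diff {N : ℕ} {f : Fin (N + 1) → ℂ → ℂ} (hf : ∀ j, Differentiable ℂ (f j))
    (G : MvPolynomial (Fin (N + 1)) ℂ) : Differentiable ℂ fun z => eval (fun j => f j z) G := by
  induction G using MvPolynomial.induction_on with
  | C c =>
    simp only [eval_C]
    exact differentiable_const c
  | add p q hp hq =>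
    simp only [map_add]
    exact hp.add hq
  | mul_X p i hp =>
    simp only [map_mul, eval_X]
    exact hp.mul (hf i)

theorem diff_mero {a : ℂ → ℂ} (ha : Differentiable ℂ a) : Meromorphic a := fun z =>
  (ha.analyticAt z).meromorphicAt

theorem diff_ne {a : ℂ → ℂ} (ha : Differentiable ℂ a) (h : ∃ z, a z ≠ 0) :
    ∀ᶠ z in codiscrete ℂ, a z ≠ 0 := by
  apply codis_of_ev
  intro x
  rcases (ha.analyticAt x).eventually_eq_zero_or_eventually_ne_zero with h2 | h2
  · exfalso
    obtain ⟨z, hz⟩ := h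
    apply hz
    have h3 : AnalyticOnNhd ℂ a univ := fun z _ => ha.analyticAt z
    exact h3.eqOn_zero_of_preconnected_of_eventuallyEq_zero isPreconnected_univ (mem_univ x) h2
      (mem_univ z)
  · exact h2

section

variable {L : Filter ℝ} {τ : ℝ → ℝ} {N n d : ℕ} {f : Fin (N + 1) → ℂ → ℂ} {g : Fin n → ℂ → ℂ}
  {Q : MvPolynomial (Fin (N + 1)) ℂ}

theorem ratio_ot (H : Cmp L τ) (hT : Tf f =O[L] τ) (hf : ∀ j, Differentiable ℂ (f j))
    (h0 : ∀ z, ∃ j, f j z ≠ 0) (i l : Fin (N + 1)) (hl : ∃ z, f l z ≠ 0) :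
    OT L τ fun z => f i z / f l z := by
  obtain ⟨C, hC⟩ := ratio_le hf h0 i l hl
  refine ⟨(f_mero hf i).div (f_mero hf l), H.O_of_le (fun r hr => ⟨char_nonneg _ hr, hC r hr⟩) ?_⟩
  exact hT.add (H.const C).isBigO

/-- the logarithmic derivative of the form of the complement, divided by the degree -/
noncomputable def lam (d : ℕ) (q : ℂ → ℂ) : ℂ → ℂ := fun z => (d : ℂ)⁻¹ * logDeriv q z

theorem lam_mero {q : ℂ → ℂ} (hq : Meromorphic q) : Meromorphic (lam d q) :=
  (Meromorphic.const _).mul (hq.deriv.div hq)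

/-- a gauge of the weight `m`: an entire function which transforms like a form of the degree `m` -/
structure Gau (L : Filter ℝ) (τ : ℝ → ℝ) (f : Fin (N + 1) → ℂ → ℂ) (m : ℕ) (q : ℂ → ℂ) : Prop where
  pos : 0 < m
  diff : Differentiable ℂ q
  ne : ∃ z, q z ≠ 0
  rel : ∃ l, (∃ z, f l z ≠ 0) ∧ ∃ qh : ℂ → ℂ, OT L τ qh ∧
    ∀ᶠ z in codiscrete ℂ, q z = f l z ^ m * qh z

/-- the gauge of a form -/
theorem gau_form (H : Cmp L τ) (hT : Tf f =O[L] τ) (hf : ∀ j, Differentiable ℂ (f j))
    (h0 : ∀ z, ∃ j, f j z ≠ 0) (hd : 0 < d) (hQ : Q.IsHomogeneous d)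
    (hq0 : ∃ z, eval (fun j => f j z) Q ≠ 0) :
    Gau L τ f d fun z => eval (fun j => f j z) Q := by
  obtain ⟨l, hl0⟩ := h0 0
  have hl : ∃ z, f l z ≠ 0 := ⟨0, hl0⟩
  have hsne : ∀ᶠ z in codiscrete ℂ, f l z ≠ 0 := diff_ne (hf l) hl
  refine ⟨hd, form_diff hf Q, hq0, l, hl, fun z => eval (fun j => f j z / f l z) Q,
    OT.eval H (fun j => ratio_ot H hT hf h0 j l hl) Q, ?_⟩
  filter_upwards [hsne] with z hz
  rw [← eval_scale hQ]
  congr 2
  funext j
  field_simp

theorem OT.prod (H : Cmp L τ) {ι : Type*} (s : Finset ι) {a : ι → ℂ → ℂ}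
    (ha : ∀ i ∈ s, OT L τ (a i)) : OT L τ fun z => ∏ i ∈ s, a i z := by
  classical
  induction s using Finset.induction_on with
  | empty => simpa using (sm_const H 1).ot
  | insert i s hi ih =>
    simp only [Finset.prod_insert hi]
    exact (ha i (Finset.mem_insert_self i s)).mul H
      (ih fun j hj => ha j (Finset.mem_insert_of_mem hj))

theorem OT.eop (H : Cmp L τ) {y : ℂ → ℂ} (hy : OT L τ y) (k : ℕ) :
    OT L τ (Eop (fun _ => 0) k y) := by
  induction k with
  | zero => exact hy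
  | succ k ih =>
    have h1 : Eop (fun _ => 0) (k + 1) y = _root_.deriv (Eop (fun _ => 0) k y) := by
      funext z
      change _root_.deriv (Eop (fun _ => 0) k y) z - 0 * _ = _
      rw [zero_mul, sub_zero]
    rw [h1]
    exact ih.deriv H

/-- the gauge of the Wronskian -/
theorem gau_wr (H : Cmp L τ) (hT : Tf f =O[L] τ) (hf : ∀ j, Differentiable ℂ (f j))
    (h0 : ∀ z, ∃ j, f j z ≠ 0) (hn : 0 < n) (hgd : ∀ k, Differentiable ℂ (g k))
    {a : Fin n → Fin (N + 1) → ℂ} (hg : ∀ k z, g k z = ∑ j, a k j * f j z)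
    (hW : ∃ z, Wr g z ≠ 0) : Gau L τ f n (Wr g) := by
  obtain ⟨l, hl0⟩ := h0 0
  have hl : ∃ z, f l z ≠ 0 := ⟨0, hl0⟩
  have hsm : Meromorphic (f l) := f_mero hf l
  have hsne : ∀ᶠ z in codiscrete ℂ, f l z ≠ 0 := diff_ne (hf l) hl
  set h : Fin n → ℂ → ℂ := fun k z => ∑ j, a k j * (f j z / f l z) with hh
  have hhOT : ∀ k, OT L τ (h k) := fun k =>
    OT.sum H _ fun j _ => (sm_const H (a k j)).ot.mul H (ratio_ot H hT hf h0 j l hl)
  have hgh : ∀ k, ∀ᶠ z in codiscrete ℂ, g k z = f l z * h k z := by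
    intro k
    filter_upwards [hsne] with z hz
    rw [hg k z, hh]
    simp only [Finset.mul_sum]
    apply Finset.sum_congr rfl
    intro j _
    field_simp
  set u : ℂ → ℂ := fun z => -logDeriv (f l) z with hu
  have hum : Meromorphic u := (hsm.deriv.div hsm).neg
  refine ⟨hn, Wr_diff hgd, hW, l, hl, fun z => Matrix.det (Matrix.of fun i j : Fin n =>
    Eop (fun _ => 0) i (h j) z), ?_, ?_⟩
  · simp only [Matrix.det_apply]
    apply OT.sum H
    intro σ _
    have h1 : OT L τ fun z => ∏ i, Eop (fun _ => 0) ((σ i : Fin n) : ℕ) (h i) z :=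
      OT.prod H _ fun i _ => (hhOT i).eop H _
    have h2 := (sm_const H ((Equiv.Perm.sign σ : ℤ) : ℂ)).ot.mul H h1
    have h3 : (fun z => Equiv.Perm.sign σ • ∏ i, Matrix.of (fun i j : Fin n =>
        Eop (fun _ => 0) i (h j) z) (σ i) i) = fun z => ((Equiv.Perm.sign σ : ℤ) : ℂ) *
          ∏ i, Eop (fun _ => 0) ((σ i : Fin n) : ℕ) (h i) z := by
      funext z
      rw [Units.smul_def, zsmul_eq_mul]
      rfl
    rw [h3]
    exact h2
  · have e1 : ∀ᶠ z in codiscrete ℂ, ∀ i : Fin n, ∀ k : Fin n,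
        Eop (fun _ => 0) i (g k) z = f l z * Eop u i (h k) z := by
      rw [eventually_all]
      intro i
      rw [eventually_all]
      intro k
      filter_upwards [Eop_congr (u := fun _ => 0) (hgh k) i,
        Eop_gauge hsm (hhOT k).1 hum (Meromorphic.const 0) (by
          filter_upwards [hsne] with z hz
          rw [hu]
          simp only
          rw [logDeriv_apply]
          field_simp
          ring) i] with z e1 e2
      rw [e1, e2]
    filter_upwards [e1, det_shift (fun j => (hhOT j).1) hum] with z e2 e3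
    rw [← e3]
    have e4 : (Matrix.of fun i j : Fin n => iteratedDeriv i (g j) z) =
        f l z • (Matrix.of fun i j : Fin n => Eop u i (h j) z) := by
      ext i j
      rw [Matrix.smul_apply, Matrix.of_apply, Matrix.of_apply, smul_eq_mul, ← e2 i j, Eop_zero_fn]
    unfold Wr
    rw [e4, Matrix.det_smul, Fintype.card_fin]

/-- the linear differential equation in a gauge -/
theorem frob_gauge (H : Cmp L τ) (hT : Tf f =O[L] τ) (hf : ∀ j, Differentiable ℂ (f j))
    (h0 : ∀ z, ∃ j, f j z ≠ 0) {m : ℕ} {q : ℂ → ℂ} (hq : Gau L τ f m q)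
    {a : Fin n → Fin (N + 1) → ℂ} (hg : ∀ k z, g k z = ∑ j, a k j * f j z) :
    ∃ c : ℕ → ℂ → ℂ, (∀ i, GG L τ (c i)) ∧ ∀ k, ∀ᶠ z in codiscrete ℂ,
      Eop (lam m q) n (g k) z =
        ∑ i ∈ Finset.range n, c i z * Eop (lam m q) i (g k) z := by
  obtain ⟨hm, hqd, hq0, l, hl, qh, hqhOT, hqqh⟩ := hq
  have hqm : Meromorphic q := diff_mero hqd
  have hqne : ∀ᶠ z in codiscrete ℂ, q z ≠ 0 := diff_ne hqd hq0
  have hsm : Meromorphic (f l) := f_mero hf l
  have hsne : ∀ᶠ z in codiscrete ℂ, f l z ≠ 0 := diff_ne (hf l) hl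
  set h : Fin n → ℂ → ℂ := fun k z => ∑ j, a k j * (f j z / f l z) with hh
  have hhOT : ∀ k, OT L τ (h k) := fun k =>
    OT.sum H _ fun j _ => (sm_const H (a k j)).ot.mul H (ratio_ot H hT hf h0 j l hl)
  have hgh : ∀ k, ∀ᶠ z in codiscrete ℂ, g k z = f l z * h k z := by
    intro k
    filter_upwards [hsne] with z hz
    rw [hg k z, hh]
    simp only [Finset.mul_sum]
    apply Finset.sum_congr rfl
    intro j _
    field_simp
  set u : ℂ → ℂ := fun z => (m : ℂ)⁻¹ * logDeriv qh z with hu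
  have hlam : GG L τ u := (gg_const H _).mul H (gg_ld H hqhOT)
  have hdd : (m : ℂ) ≠ 0 := by exact_mod_cast hm.ne'
  have hrel : ∀ᶠ z in codiscrete ℂ, deriv (f l) z = (lam m q z - u z) * f l z := by
    have e1 := codis_deriv hqqh
    filter_upwards [e1, hqqh, hsne, hqne, mero_an hqhOT.1] with z h1 h2 h3 h4 h5
    have h6 : HasDerivAt (fun z => f l z ^ m * qh z)
        (((m : ℂ) * f l z ^ (m - 1) * deriv (f l) z) * qh z + f l z ^ m * deriv qh z) z :=
      (((hf l) z).hasDerivAt.pow m).mul h5.differentiableAt.hasDerivAt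
    rw [h6.deriv] at h1
    have h7 : qh z ≠ 0 := by
      intro h8
      rw [h8, mul_zero] at h2
      exact h4 h2
    have h8 : f l z ^ m = f l z ^ (m - 1) * f l z := by
      rw [← pow_succ]
      congr 1
      omega
    unfold lam
    rw [hu]
    simp only
    rw [logDeriv_apply, logDeriv_apply, h1, h2, h8]
    field_simp
    ring
  have hfr := frob H n h hhOT
  have HC := cl_gg H
  have hgau := sp_gauge HC (gg_const H 0) hlam (fun k => (hhOT k).1) hfr
  obtain ⟨c, hc, hceq⟩ := hgau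
  refine ⟨c, hc, fun k => ?_⟩
  have hlamm : Meromorphic (lam m q) := lam_mero hqm
  have key : ∀ i, ∀ᶠ z in codiscrete ℂ, Eop (lam m q) i (g k) z = f l z * Eop u i (h k) z := by
    intro i
    filter_upwards [Eop_congr (u := lam m q) (hgh k) i,
      Eop_gauge hsm (hhOT k).1 hlam.ot.1 hlamm hrel i] with z e1 e2
    rw [e1, e2]
  have key2 : ∀ᶠ z in codiscrete ℂ, ∀ i ∈ Finset.range (n + 1),
      Eop (lam m q) i (g k) z = f l z * Eop u i (h k) z := by
    rw [eventually_all_finset]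
    exact fun i _ => key i
  filter_upwards [key2, hceq k] with z e1 e2
  rw [e1 n (Finset.mem_range.2 (Nat.lt_succ_self n)), e2, Finset.mul_sum]
  apply Finset.sum_congr rfl
  intro i hi
  rw [e1 i (Finset.mem_range.2 (by have := Finset.mem_range.1 hi; omega))]
  ring

theorem exists_index {d : ℕ} (α : Fin (N + 1) →₀ ℕ) (hα : ∑ j, α j = d) :
    ∃ J : Fin d → Fin (N + 1), ∀ v : Fin (N + 1) → ℂ, ∏ i, v (J i) = ∏ j, v j ^ α j := by
  classical
  induction d generalizing α with
  | zero =>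
    refine ⟨fun i => i.elim0, fun v => ?_⟩
    have h1 : ∀ j, α j = 0 := fun j => by
      have := Finset.sum_eq_zero_iff.1 hα j (Finset.mem_univ j)
      exact this
    simp [h1]
  | succ d ih =>
    obtain ⟨j, hj⟩ : ∃ j, α j ≠ 0 := by
      by_contra hcon
      push Not at hcon
      rw [Finset.sum_eq_zero fun j _ => hcon j] at hα
      omega
    have h1 : α = (α - Finsupp.single j 1) + Finsupp.single j 1 := by
      ext i
      simp only [Finsupp.add_apply, Finsupp.tsub_apply]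
      by_cases hij : j = i
      · subst hij
        rw [Finsupp.single_eq_same]
        omega
      · rw [Finsupp.single_eq_of_ne' hij]
        omega
    have h2 : ∑ i, (α - Finsupp.single j 1 : Fin (N + 1) →₀ ℕ) i = d := by
      have h3 : ∑ i, α i = ∑ i, (α - Finsupp.single j 1 : Fin (N + 1) →₀ ℕ) i +
          ∑ i, (Finsupp.single j 1 : Fin (N + 1) →₀ ℕ) i := by
        rw [← Finset.sum_add_distrib]
        apply Finset.sum_congr rfl
        intro i _
        conv_lhs => rw [h1]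
        rfl
      have h4 : ∑ i, (Finsupp.single j 1 : Fin (N + 1) →₀ ℕ) i = 1 := by
        rw [Finset.sum_eq_single j]
        · rw [Finsupp.single_eq_same]
        · intro i _ hi
          exact Finsupp.single_eq_of_ne hi
        · intro hi
          exact absurd (Finset.mem_univ _) hi
      omega
    obtain ⟨J, hJ⟩ := ih _ h2
    refine ⟨Fin.cons j J, fun v => ?_⟩
    rw [Fin.prod_univ_succ]
    simp only [Fin.cons_zero, Fin.cons_succ]
    rw [hJ v]
    conv_rhs => rw [h1]
    simp only [Finsupp.add_apply, pow_add, Finset.prod_mul_distrib]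
    rw [mul_comm]
    congr 1
    rw [Finset.prod_eq_single j]
    · rw [Finsupp.single_eq_same, pow_one]
    · intro i _ hi
      rw [Finsupp.single_eq_of_ne hi, pow_zero]
    · intro hi
      exact absurd (Finset.mem_univ _) hi

theorem pos_of_span {b : Fin (N + 1) → Fin n → ℂ} (h0 : ∀ z, ∃ j, f j z ≠ 0)
    (hb : ∀ j z, f j z = ∑ k, b j k * g k z) : 0 < n := by
  rcases Nat.eq_zero_or_pos n with h1 | h1
  · exfalso
    subst h1
    obtain ⟨j, hj⟩ := h0 0
    apply hj
    rw [hb j 0]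
    simp
  · exact h1

/-- the monomials of the weight of the gauge are given by iterated linear differential equations -/
theorem mon_iter (H : Cmp L τ) (hT : Tf f =O[L] τ) (hf : ∀ j, Differentiable ℂ (f j))
    (h0 : ∀ z, ∃ j, f j z ≠ 0) {m : ℕ} {q : ℂ → ℂ} (hq : Gau L τ f m q)
    (hgd : ∀ k, Differentiable ℂ (g k))
    {a : Fin n → Fin (N + 1) → ℂ} (hg : ∀ k z, g k z = ∑ j, a k j * f j z)
    {b : Fin (N + 1) → Fin n → ℂ} (hb : ∀ j z, f j z = ∑ k, b j k * g k z)
    (hW : ∃ z, Wr g z ≠ 0) (hNW : Nb (Wr g) =o[L] τ) (hNq : Nb q =o[L] τ)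
    (α : Fin (N + 1) →₀ ℕ) (hα : ∑ j, α j = m) :
    IterLin (SmallAlg H) fun z => (∏ j, f j z ^ α j) / q z := by
  obtain ⟨c, hc, hceq⟩ := frob_gauge H hT hf h0 hq hg
  obtain ⟨hm, hqd, hq0, -⟩ := hq
  have hqm : Meromorphic q := diff_mero hqd
  have hqne : ∀ᶠ z in codiscrete ℂ, q z ≠ 0 := diff_ne hqd hq0
  have hn : 0 < n := pos_of_span h0 hb
  have hlamm : Meromorphic (lam m q) := lam_mero hqm
  have hgm : ∀ k, Meromorphic (g k) := fun k => diff_mero (hgd k)
  have hcs : ∀ i < n, IterLin (SmallAlg H) (c i) := by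
    intro i hi
    have h1 : Sm L τ (c i) := by
      refine sm_of_poles H (hc i) (Wr_diff hgd) hqd hW hq0 (fun z hz1 hz2 => ?_) hNW hNq
      refine coef_order hgd hlamm ?_ hz1 hceq hi
      unfold lam
      apply AnalyticAt.mul analyticAt_const
      exact ((hqd.analyticAt z).deriv).div (hqd.analyticAt z) hz2
    have h2 : IterLin (SmallAlg H) fun z => c i z / (1 : ℂ → ℂ) z :=
      IterLin.quot (show c i ∈ SmallAlg H from h1) (SmallAlg H).one_mem
    simpa using h2
  obtain ⟨J, hJ⟩ := exists_index α hα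
  have hdd : (m : ℂ) ≠ 0 := by exact_mod_cast hm.ne'
  have h1 := iter_prod (B := SmallAlg H) hn hqm hqne hlamm (d := m) (by
    filter_upwards [hqne] with z hz
    unfold lam
    rw [logDeriv_apply]
    field_simp) hcs (y := fun i => f (J i)) (fun i => f_mero hf _) (by
    intro i
    have e1 : f (J i) = fun z => ∑ k, b (J i) k * g k z := funext fun z => hb (J i) z
    have e2 : ∀ᶠ z in codiscrete ℂ, ∀ k ∈ Finset.range (n + 1),
        Eop (lam m q) k (f (J i)) z = ∑ l, b (J i) l * Eop (lam m q) k (g l) z := by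
      rw [eventually_all_finset]
      intro k _
      rw [e1]
      exact Eop_sum Finset.univ hlamm (fun l _ => hgm l) (b (J i)) k
    filter_upwards [e2, eventually_all.2 hceq] with z e3 e4
    rw [e3 n (Finset.mem_range.2 (Nat.lt_succ_self n))]
    simp only [e4, Finset.mul_sum]
    rw [Finset.sum_comm]
    apply Finset.sum_congr rfl
    intro k hk
    rw [e3 k (Finset.mem_range.2 (by have := Finset.mem_range.1 hk; omega)), Finset.mul_sum]
    apply Finset.sum_congr rfl
    intro l _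
    ring)
  have h2 : (fun z => (∏ i, f (J i) z) / q z) = fun z => (∏ j, f j z ^ α j) / q z := by
    funext z
    rw [hJ fun j => f j z]
  rwa [h2] at h1

/-- the regular functions of the complement along the curve -/
theorem reg_iter (H : Cmp L τ) (hT : Tf f =O[L] τ) (hf : ∀ j, Differentiable ℂ (f j))
    (h0 : ∀ z, ∃ j, f j z ≠ 0) (hd : 0 < d) (hQ : Q.IsHomogeneous d)
    (hq0 : ∃ z, eval (fun j => f j z) Q ≠ 0) (hgd : ∀ k, Differentiable ℂ (g k))
    {a : Fin n → Fin (N + 1) → ℂ} (hg : ∀ k z, g k z = ∑ j, a k j * f j z)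
    {b : Fin (N + 1) → Fin n → ℂ} (hb : ∀ j z, f j z = ∑ k, b j k * g k z)
    (hW : ∃ z, Wr g z ≠ 0) (hNW : Nb (Wr g) =o[L] τ)
    (hNq : Nb (fun z => eval (fun j => f j z) Q) =o[L] τ)
    (α : Fin (N + 1) →₀ ℕ) (hα : ∑ j, α j = d) :
    IterLin (SmallAlg H) fun z => (∏ j, f j z ^ α j) / eval (fun j => f j z) Q :=
  mon_iter H hT hf h0 (gau_form H hT hf h0 hd hQ hq0) hgd hg hb hW hNW hNq α hα

/-- the homogeneous coordinates divided by the gauge of the Wronskian -/
theorem coord_iter (H : Cmp L τ) (hT : Tf f =O[L] τ) (hf : ∀ j, Differentiable ℂ (f j))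
    (h0 : ∀ z, ∃ j, f j z ≠ 0) (hgd : ∀ k, Differentiable ℂ (g k))
    {a : Fin n → Fin (N + 1) → ℂ} (hg : ∀ k z, g k z = ∑ j, a k j * f j z)
    {b : Fin (N + 1) → Fin n → ℂ} (hb : ∀ j z, f j z = ∑ k, b j k * g k z)
    (hW : ∃ z, Wr g z ≠ 0) (hNW : Nb (Wr g) =o[L] τ) (l j : Fin (N + 1)) :
    IterLin (SmallAlg H) fun z => f l z ^ (n - 1) / Wr g z * f j z := by
  have hn : 0 < n := pos_of_span h0 hb
  have h1 := mon_iter H hT hf h0 (gau_wr H hT hf h0 hn hgd hg hW) hgd hg hb hW hNW hNW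
    (Finsupp.single j 1 + Finsupp.single l (n - 1))
    (by rw [Pool.Agent.Y377.IL.sum_two]; omega)
  have h2 : (fun z => (∏ i, f i z ^ (Finsupp.single j 1 + Finsupp.single l (n - 1) :
      Fin (N + 1) →₀ ℕ) i) / Wr g z) = fun z => f l z ^ (n - 1) / Wr g z * f j z := by
    funext z
    rw [Pool.Agent.Y377.IL.prod_two]
    ring
  rwa [h2] at h1

/-- the curve in the projective space -/
noncomputable def curve (f : Fin (N + 1) → ℂ → ℂ) (h0 : ∀ z, ∃ j, f j z ≠ 0) :
    ℂ → ℙ ℂ (Fin (N + 1) → ℂ) := fun z =>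
  Projectivization.mk ℂ (fun j => f j z) fun h => (h0 z).elim fun j hj => hj (congrFun h j)

theorem curve_rep (h0 : ∀ z, ∃ j, f j z ≠ 0) (z : ℂ) : Rep (curve f h0 z) fun j => f j z :=
  ⟨_, rfl⟩

theorem curve_hol (hf : ∀ j, Differentiable ℂ (f j)) (h0 : ∀ z, ∃ j, f j z ≠ 0) :
    HolMap (curve f h0) := fun a =>
  ⟨f, fun j => (hf j).analyticAt a, Eventually.of_forall fun z => curve_rep h0 z⟩

theorem curve_scale (h0 : ∀ z, ∃ j, f j z ≠ 0) (z : ℂ) :
    ∃ c : ℂ, c ≠ 0 ∧ (curve f h0 z).rep = fun j => c * f j z := by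
  obtain ⟨a, ha⟩ := Projectivization.exists_smul_eq_mk_rep ℂ (fun j => f j z)
    (fun h => (h0 z).elim fun j hj => hj (congrFun h j))
  refine ⟨a, a.ne_zero, ?_⟩
  change (Projectivization.mk ℂ (fun j => f j z) _).rep = _
  rw [← ha]
  rfl

theorem curve_regf (h0 : ∀ z, ∃ j, f j z ≠ 0) (hQ : Q.IsHomogeneous d)
    (α : Fin (N + 1) →₀ ℕ) (hα : ∑ j, α j = d) :
    regf Q α (curve f h0) = fun z => (∏ j, f j z ^ α j) / eval (fun j => f j z) Q := by
  funext z
  obtain ⟨c, hc, hr⟩ := curve_scale h0 z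
  unfold regf
  rw [hr, eval_scale hQ]
  simp only [mul_pow, Finset.prod_mul_distrib]
  rw [Finset.prod_pow_eq_pow_sum, hα, mul_div_mul_left _ _ (pow_ne_zero _ hc)]

theorem curve_form (h0 : ∀ z, ∃ j, f j z ≠ 0) {G : MvPolynomial (Fin (N + 1)) ℂ} {e : ℕ}
    (hG : G.IsHomogeneous e) (z : ℂ) :
    eval (curve f h0 z).rep G = 0 ↔ eval (fun j => f j z) G = 0 := by
  obtain ⟨c, hc, hr⟩ := curve_scale h0 z
  rw [hr, eval_scale hG, mul_eq_zero]
  exact ⟨fun h => h.resolve_left (pow_ne_zero _ hc), Or.inr⟩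

end

end Pool.Agent.N131.SR
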