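import Mathlib
import Pool.Agent.N131.SR.Curve

/-!
Images of curves with few zeros of the Wronskian.
-/

set_option autoImplicit false

namespace Pool.Agent.N131.SR

open MeasureTheory Set Filter Topology Metric Real ValueDistribution MeromorphicOn Function
open Asymptotics MvPolynomial
open scoped LinearAlgebra.Projectivization
open Pool.Agent.TH143.EL (codis_ev codis_of_ev mero_id mero_ne mero_an HolMap Rep InV)
open Pool.Agent.Y377.IL (DB IterLin AlgRatio AlgebraicOver regf eval_scale aeval_mon)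

/-- the image of the curve `G` under the map given by the forms `P` -/
noncomputable def img {M N : ℕ} (P : Fin (N + 1) → MvPolynomial (Fin (M + 1)) ℂ)
    (G : Fin (M + 1) → ℂ → ℂ) : Fin (N + 1) → ℂ → ℂ := fun j z => eval (fun k => G k z) (P j)

section

variable {L : Filter ℝ} {τ : ℝ → ℝ} {M N n d e : ℕ} {G : Fin (M + 1) → ℂ → ℂ}
  {P : Fin (N + 1) → MvPolynomial (Fin (M + 1)) ℂ} {g : Fin n → ℂ → ℂ}
  {Q : MvPolynomial (Fin (N + 1)) ℂ}

theorem img_diff (hG : ∀ k, Differentiable ℂ (G k)) (j : Fin (N + 1)) :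
    Differentiable ℂ (img P G j) := form_diff hG (P j)

theorem eval_img (z : ℂ) (F : MvPolynomial (Fin (N + 1)) ℂ) :
    eval (fun k => G k z) (aeval P F) = eval (fun j => img P G j z) F := by
  have h1 := MvPolynomial.comp_aeval_apply (f := P) (MvPolynomial.aeval fun k => G k z) F
  rw [MvPolynomial.aeval_eq_eval, MvPolynomial.aeval_eq_eval] at h1
  exact h1

theorem src_ne (hP : ∀ j, (P j).IsHomogeneous e) (he : 0 < e)
    (h0 : ∀ z, ∃ j, img P G j z ≠ 0) (z : ℂ) : ∃ k, G k z ≠ 0 := by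
  by_contra hcon
  push Not at hcon
  obtain ⟨j, hj⟩ := h0 z
  apply hj
  unfold img
  have h1 : (fun k => G k z) = fun k => (0 : ℂ) * G k z := by
    funext k
    rw [hcon k, mul_zero]
  rw [h1, eval_scale (hP j), zero_pow he.ne', zero_mul]

theorem form_iter {B : Subalgebra ℂ (ℂ → ℂ)} {q : ℂ → ℂ} {m : ℕ}
    (h : ∀ β : Fin (M + 1) →₀ ℕ, ∑ k, β k = m → IterLin B fun z => (∏ k, G k z ^ β k) / q z)
    {F : MvPolynomial (Fin (M + 1)) ℂ} (hF : F.IsHomogeneous m) :
    IterLin B fun z => eval (fun k => G k z) F / q z := by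
  have h1 : (fun z => eval (fun k => G k z) F / q z) =
      fun z => ∑ β ∈ F.support, coeff β F * ((∏ k, G k z ^ β k) / q z) := by
    funext z
    rw [MvPolynomial.eval_eq' (fun k => G k z) F, Finset.sum_div]
    apply Finset.sum_congr rfl
    intro β _
    rw [mul_div_assoc]
  rw [h1]
  apply IterLin.sum
  intro β hβ
  apply (Pool.Agent.Y377.IL.IterLin.const B _).mul
  apply h
  have h2 := hF (mem_support_iff.1 hβ)
  have h3 : Finsupp.degree β = m := by
    rw [Finsupp.degree_eq_weight_one]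
    exact h2
  rwa [Finsupp.degree_eq_sum] at h3

theorem Tf_lower {f : Fin (N + 1) → ℂ → ℂ} (hf : ∀ j, Differentiable ℂ (f j))
    (h0 : ∀ z, ∃ j, f j z ≠ 0) : ∃ C : ℝ, ∀ r, 1 ≤ r → -C ≤ Tf f r := by
  obtain ⟨l, hl0⟩ := h0 0
  obtain ⟨C, hC⟩ := ratio_le hf h0 l l ⟨0, hl0⟩
  refine ⟨C, fun r hr => ?_⟩
  have h1 := hC r hr
  have h2 := char_nonneg (fun z => f l z / f l z) hr
  linarith

/-- meromorphic functions which grow at most like the curve -/
def LB (G : Fin (M + 1) → ℂ → ℂ) (a : ℂ → ℂ) : Prop :=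
  Meromorphic a ∧ ∃ A A' : ℝ, 0 ≤ A ∧ ∀ r, 1 ≤ r → characteristic a ⊤ r ≤ A * Tf G r + A'

theorem lb_const (c : ℂ) : LB G fun _ => c :=
  ⟨Meromorphic.const c, 0, log⁺ ‖c‖, le_rfl, fun r _ => by rw [char_const]; linarith⟩

theorem LB.mul {a b : ℂ → ℂ} (ha : LB G a) (hb : LB G b) : LB G fun z => a z * b z := by
  obtain ⟨h1, A, A', hA, h2⟩ := ha
  obtain ⟨h3, B, B', hB, h4⟩ := hb
  refine ⟨h1.mul h3, A + B, A' + B', by positivity, fun r hr => ?_⟩
  have := char_mul h1 h3 hr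
  have := h2 r hr
  have := h4 r hr
  linarith

theorem LB.add {a b : ℂ → ℂ} (ha : LB G a) (hb : LB G b) : LB G fun z => a z + b z := by
  obtain ⟨h1, A, A', hA, h2⟩ := ha
  obtain ⟨h3, B, B', hB, h4⟩ := hb
  refine ⟨h1.add h3, A + B, A' + B' + log 2, by positivity, fun r hr => ?_⟩
  have := char_add h1 h3 hr
  have := h2 r hr
  have := h4 r hr
  linarith

theorem LB.inv {a : ℂ → ℂ} (ha : LB G a) : LB G fun z => (a z)⁻¹ := by
  obtain ⟨h1, A, A', hA, h2⟩ := ha
  obtain ⟨C, hC⟩ := char_inv h1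
  refine ⟨h1.inv, A, A' + C, hA, fun r hr => ?_⟩
  have := hC r
  have := h2 r hr
  linarith

theorem LB.eval {σ : Type} {a : σ → ℂ → ℂ} (ha : ∀ i, LB G (a i)) (F : MvPolynomial σ ℂ) :
    LB G fun z => MvPolynomial.eval (fun j => a j z) F := by
  induction F using MvPolynomial.induction_on with
  | C c =>
    simp only [eval_C]
    exact lb_const c
  | add p q hp hq =>
    simp only [map_add]
    exact hp.add hq
  | mul_X p i hp =>
    simp only [map_mul, eval_X]
    exact hp.mul (ha i)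

theorem LB.congr {a b : ℂ → ℂ} (ha : LB G a) (hb : Meromorphic b)
    (h : ∀ᶠ z in codiscrete ℂ, b z = a z) : LB G b := by
  obtain ⟨h1, A, A', hA, h2⟩ := ha
  exact ⟨hb, A, A', hA, fun r hr => by rw [char_le_of_congr h hr]; exact h2 r hr⟩

/-- rational functions along the curve -/
theorem lb_form (hG : ∀ k, Differentiable ℂ (G k)) (hG0 : ∀ z, ∃ k, G k z ≠ 0) {m : ℕ}
    {F F' : MvPolynomial (Fin (M + 1)) ℂ} (hF : F.IsHomogeneous m) (hF' : F'.IsHomogeneous m) :
    LB G fun z => eval (fun k => G k z) F / eval (fun k => G k z) F' := by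
  obtain ⟨l, hl0⟩ := hG0 0
  have hl : ∃ z, G l z ≠ 0 := ⟨0, hl0⟩
  have hlne : ∀ᶠ z in codiscrete ℂ, G l z ≠ 0 := diff_ne (hG l) hl
  have h1 : ∀ k, LB G fun z => G k z / G l z := by
    intro k
    obtain ⟨C, hC⟩ := ratio_le hG hG0 k l hl
    exact ⟨(f_mero hG k).div (f_mero hG l), 1, C, zero_le_one, fun r hr => by
      rw [one_mul]
      exact hC r hr⟩
  have h2 := (LB.eval h1 F).mul (LB.eval h1 F').inv
  refine h2.congr ((diff_mero (form_diff hG F)).div (diff_mero (form_diff hG F'))) ?_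
  filter_upwards [hlne] with z hz
  have h3 : ∀ F : MvPolynomial (Fin (M + 1)) ℂ, F.IsHomogeneous m →
      eval (fun k => G k z) F = G l z ^ m * eval (fun k => G k z / G l z) F := by
    intro F hF
    rw [← eval_scale hF]
    congr 2
    funext k
    field_simp
  rw [h3 F hF, h3 F' hF', mul_div_mul_left _ _ (pow_ne_zero _ hz), div_eq_mul_inv]

/-- images of the curve grow at most like the curve -/
theorem img_le (hG : ∀ k, Differentiable ℂ (G k)) (hG0 : ∀ z, ∃ k, G k z ≠ 0)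
    (hP : ∀ j, (P j).IsHomogeneous e) (h0 : ∀ z, ∃ j, img P G j z ≠ 0) :
    ∃ A A' : ℝ, 0 ≤ A ∧ ∀ r, 1 ≤ r → Tf (img P G) r ≤ A * Tf G r + A' := by
  obtain ⟨l, hl0⟩ := h0 0
  obtain ⟨C, hC⟩ := Tf_le (img_diff hG) h0 l ⟨0, hl0⟩
  have h1 : ∀ i, LB G fun z => img P G i z / img P G l z := fun i =>
    lb_form hG hG0 (hP i) (hP l)
  choose h2 A A' hA h3 using h1
  refine ⟨∑ i, A i, ∑ i, A' i + C, Finset.sum_nonneg fun i _ => hA i, fun r hr => ?_⟩
  have h4 := hC r hr
  have h5 := Finset.sum_le_sum fun i (_ : i ∈ Finset.univ) => h3 i r hr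
  rw [Finset.sum_add_distrib, ← Finset.sum_mul] at h5
  linarith

/-- **The alternative.** -/
theorem engine (hG : ∀ k, Differentiable ℂ (G k)) (hG0 : ∀ z, ∃ k, G k z ≠ 0) {S X : ℝ → ℝ}
    (hX : ∀ r, 1 ≤ r → Real.log r ≤ X r)
    {A A' : ℝ} (hA : 0 ≤ A) (hS : ∀ r, 1 ≤ r → S r ≤ A * Tf G r + A') {ε : ℝ} (hε : 0 < ε) :
    (∃ (C : ℝ) (E : Set ℝ), volume E < ⊤ ∧ ∀ r, 1 ≤ r → r ∉ E →
      S r ≤ ε * Tf G r + C * X r) ∨
    ∃ L : Filter ℝ, Big L ∧ (∀ᶠ r in L, 1 ≤ r ∧ 0 < Tf G r ∧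
      ε * Tf G r < S r) ∧ X =o[L] Tf G := by
  have hX0 : ∀ r, 1 ≤ r → 0 ≤ X r := fun r hr => (Real.log_nonneg hr).trans (hX r hr)
  by_cases hPP : ∀ n : ℕ, volume {r | 1 ≤ r ∧ (1 ≤ r ∧
      ε * Tf G r + (n : ℝ) * X r < S r)} = ⊤
  · right
    obtain ⟨L, hL, hLP⟩ := exists_big (P := fun n r => 1 ≤ r ∧
      ε * Tf G r + (n : ℝ) * X r < S r) (by
      rintro n m r hnm ⟨h1, h2⟩
      refine ⟨h1, lt_of_le_of_lt ?_ h2⟩
      have e5 : (n : ℝ) ≤ m := by exact_mod_cast hnm
      have := mul_le_mul_of_nonneg_right e5 (hX0 r h1)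
      linarith) hPP
    obtain ⟨C0, hC0⟩ := Tf_lower hG hG0
    have hbig : ∀ᶠ r : ℝ in L, Real.exp 1 ≤ r := hL.top (eventually_ge_atTop _)
    have hX1 : ∀ᶠ r in L, 1 ≤ X r := by
      filter_upwards [hbig] with r hr
      have h1 : (1 : ℝ) ≤ r := le_trans (by
        have := Real.add_one_le_exp (1 : ℝ)
        linarith) hr
      have h2 : 1 ≤ Real.log r := by
        rw [← Real.log_exp 1]
        exact Real.log_le_log (Real.exp_pos 1) hr
      exact h2.trans (hX r h1)
    have hpos : ∀ᶠ r in L, 0 < Tf G r := by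
      obtain ⟨n, hn⟩ := exists_nat_gt (ε * |C0| + |A'|)
      filter_upwards [hLP n, hX1] with r h0' h3
      obtain ⟨h1, h2⟩ := h0'
      by_contra hcon
      push Not at hcon
      have h4 := hS r h1
      have h5 := hC0 r h1
      have h6 := le_abs_self C0
      have h7 := le_abs_self A'
      have h8 : A * Tf G r ≤ 0 := mul_nonpos_of_nonneg_of_nonpos hA hcon
      have h9 : ε * (-Tf G r) ≤ ε * |C0| := mul_le_mul_of_nonneg_left (by linarith) hε.le
      have h10 : (n : ℝ) * 1 ≤ n * X r := mul_le_mul_of_nonneg_left h3 (Nat.cast_nonneg n)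
      linarith
    refine ⟨L, hL, ?_, ?_⟩
    · filter_upwards [hLP 0, hpos] with r h0' h4
      obtain ⟨h1, h3⟩ := h0'
      refine ⟨h1, h4, ?_⟩
      simpa using h3
    · rw [isLittleO_iff]
      intro c hc
      obtain ⟨n, hn⟩ := exists_nat_gt (|A'| + A / c)
      filter_upwards [hLP n, hpos, hX1] with r h0' h3 h4
      obtain ⟨h1, h2⟩ := h0'
      rw [Real.norm_eq_abs, Real.norm_eq_abs, abs_of_nonneg (by linarith), abs_of_pos h3]
      have h5 := hS r h1
      have h6 := le_abs_self A'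
      have h7 : 0 < (n : ℝ) - |A'| := by
        have : 0 ≤ A / c := by positivity
        linarith
      have h8 : ((n : ℝ) - |A'|) * X r < A * Tf G r := by
        have h9 : |A'| * 1 ≤ |A'| * X r := mul_le_mul_of_nonneg_left h4 (abs_nonneg A')
        have h10 : 0 < ε * Tf G r := by positivity
        linarith
      have h9 : A ≤ c * ((n : ℝ) - |A'|) := by
        have h10 : A / c < n - |A'| := by linarith
        rw [div_lt_iff₀ hc] at h10
        linarith
      have h10 : A * Tf G r ≤ c * ((n : ℝ) - |A'|) * Tf G r :=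
        mul_le_mul_of_nonneg_right h9 h3.le
      have h11 : ((n : ℝ) - |A'|) * X r < ((n : ℝ) - |A'|) * (c * Tf G r) := by linarith
      exact (lt_of_mul_lt_mul_left h11 h7.le).le
  · left
    push Not at hPP
    obtain ⟨n, hn⟩ := hPP
    refine ⟨n, _, lt_top_iff_ne_top.2 hn, fun r hr hrE => ?_⟩
    by_contra hcon
    push Not at hcon
    exact hrE ⟨hr, hr, hcon⟩

/-- the bound -/
def RB (G : Fin (M + 1) → ℂ → ℂ) (f : Fin (N + 1) → ℂ → ℂ) (w q : ℂ → ℂ) : Prop :=
  ∀ ε : ℝ, 0 < ε → ∃ (C : ℝ) (E : Set ℝ), volume E < ⊤ ∧ ∀ r, 1 ≤ r → r ∉ E →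
    Tf f r ≤ ε * Tf G r + C * (Nb w r + Nb q r + Real.log r)

/-- the data on a filter of large radii -/
theorem eng_or (hG : ∀ k, Differentiable ℂ (G k)) (hG0 : ∀ z, ∃ k, G k z ≠ 0)
    {S : ℝ → ℝ} {A A' : ℝ} (hA : 0 ≤ A) (hS : ∀ r, 1 ≤ r → S r ≤ A * Tf G r + A')
    {w q : ℂ → ℂ} (h : ∀ L : Filter ℝ, Cmp L (Tf G) → (∀ᶠ r in L, 0 < Tf G r) →
      Nb w =o[L] Tf G → Nb q =o[L] Tf G → ∃ U : ℝ → ℝ, U =o[L] Tf G ∧ ∀ᶠ r in L, S r ≤ U r)
    {ε : ℝ} (hε : 0 < ε) : ∃ (C : ℝ) (E : Set ℝ), volume E < ⊤ ∧ ∀ r, 1 ≤ r → r ∉ E →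
    S r ≤ ε * Tf G r + C * (Nb w r + Nb q r + Real.log r) := by
  rcases engine hG hG0 (S := S) (X := fun r => Nb w r + Nb q r + Real.log r)
    (A := A) (A' := A') (fun r hr => by
      have h1 := Nb_nonneg (h := w) hr
      have h2 := Nb_nonneg (h := q) hr
      linarith) hA hS hε with h0 | ⟨L, hL, h1, h2⟩
  · exact h0
  · exfalso
    have hpos : ∀ᶠ r in L, 0 < Tf G r := h1.mono fun r hr => hr.2.1
    have hge : ∀ᶠ r in L, 1 ≤ r := h1.mono fun r hr => hr.1
    have e1 : Nb w =o[L] Tf G := o_of_ev (hge.mono fun r hr => by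
      have h3 := Nb_nonneg (h := w) hr
      have h4 := Nb_nonneg (h := q) hr
      have h5 := Real.log_nonneg hr
      exact ⟨h3, by linarith⟩) h2
    have e2 : Nb q =o[L] Tf G := o_of_ev (hge.mono fun r hr => by
      have h3 := Nb_nonneg (h := w) hr
      have h4 := Nb_nonneg (h := q) hr
      have h5 := Real.log_nonneg hr
      exact ⟨h4, by linarith⟩) h2
    have e3 : Real.log =o[L] Tf G := o_of_ev (hge.mono fun r hr => by
      have h3 := Nb_nonneg (h := w) hr
      have h4 := Nb_nonneg (h := q) hr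
      have h5 := Real.log_nonneg hr
      exact ⟨h5, by linarith⟩) h2
    obtain ⟨U, hU, hSU⟩ := h L ⟨hL, e3⟩ hpos e1 e2
    obtain ⟨r, ⟨⟨h3, h4⟩, h5⟩⟩ := @Eventually.exists _ _ _ hL.ne
      ((((isLittleO_iff.1 hU) (show (0 : ℝ) < ε / 2 by positivity)).and hSU).and h1)
    rw [Real.norm_eq_abs, Real.norm_eq_abs, abs_of_pos h5.2.1] at h3
    have h6 := le_abs_self (U r)
    have h7 : 0 < ε * Tf G r := mul_pos hε h5.2.1
    linarith [h5.2.2]

/-- rational functions which are algebraic over the small functions -/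
theorem small_of_ratio {τ : ℝ → ℝ} {f : Fin (N + 1) → ℂ → ℂ} (H : Cmp L τ)
    (hf : ∀ j, Differentiable ℂ (f j)) (h0 : ∀ z, ∃ j, f j z ≠ 0) {m : ℕ}
    {F F' : MvPolynomial (Fin (N + 1)) ℂ} (hF : F.IsHomogeneous m) (hF' : F'.IsHomogeneous m)
    (hne : ∃ z, eval (fun j => f j z) F' ≠ 0)
    (ha : AlgRatio (SmallAlg H) (fun z => eval (curve f h0 z).rep F)
      fun z => eval (curve f h0 z).rep F') :
    Sm L τ fun z => eval (fun j => f j z) F / eval (fun j => f j z) F' := by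
  have hsne : ∀ᶠ z in codiscrete ℂ, eval (fun j => f j z) F' ≠ 0 := diff_ne (form_diff hf F') hne
  obtain ⟨n, b, hb, hbne, hs⟩ := ha
  refine alg_small H ((diff_mero (form_diff hf F)).div (diff_mero (form_diff hf F')))
    (m := n) (b := b) hb hbne ?_
  filter_upwards [hs, hsne] with z h1 h2
  obtain ⟨c, hc, hr⟩ := curve_scale h0 z
  have h3 : ∀ k ∈ Finset.range (n + 1), b k z * eval (curve f h0 z).rep F ^ k *
      eval (curve f h0 z).rep F' ^ (n - k) = (c ^ m * eval (fun j => f j z) F') ^ n *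
        (b k z * (eval (fun j => f j z) F / eval (fun j => f j z) F') ^ k) := by
    intro k hk
    have hk' : k ≤ n := by
      have := Finset.mem_range.1 hk
      omega
    rw [hr, eval_scale hF, eval_scale hF']
    have h4 : (c ^ m * eval (fun j => f j z) F') ^ n = (c ^ m * eval (fun j => f j z) F') ^ k *
        (c ^ m * eval (fun j => f j z) F') ^ (n - k) := by
      rw [← pow_add]
      congr 1
      omega
    rw [h4, div_pow, mul_pow, mul_pow, mul_pow]
    field_simp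
  rw [Finset.sum_congr rfl h3, ← Finset.mul_sum] at h1
  exact (mul_eq_zero.1 h1).resolve_left (pow_ne_zero _ (mul_ne_zero (pow_ne_zero _ hc) h2))

/-- the characteristic of a curve which is algebraic over the small functions -/
theorem tf_small {τ : ℝ → ℝ} {f : Fin (N + 1) → ℂ → ℂ} (H : Cmp L τ)
    (hf : ∀ j, Differentiable ℂ (f j)) (h0 : ∀ z, ∃ j, f j z ≠ 0)
    (ha : AlgebraicOver (SmallAlg H) (curve f h0)) :
    ∃ U : ℝ → ℝ, U =o[L] τ ∧ ∀ᶠ r in L, Tf f r ≤ U r := by
  obtain ⟨l, hl0⟩ := h0 0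
  have hsm : ∀ i, Sm L τ fun z => f i z / f l z := by
    intro i
    have h1 := small_of_ratio H hf h0 (isHomogeneous_X _ i) (isHomogeneous_X _ l)
      ⟨0, by rwa [eval_X]⟩ (by
        simp only [eval_X]
        exact ha i l)
    simpa only [eval_X] using h1
  obtain ⟨C, hC⟩ := Tf_le hf h0 l ⟨0, hl0⟩
  refine ⟨fun r => ∑ i, characteristic (fun z => f i z / f l z) ⊤ r + C, ?_,
    H.ge.mono fun r hr => hC r hr⟩
  refine IsLittleO.add ?_ (H.const C)
  have h2 : (∑ i, fun r => characteristic (fun z => f i z / f l z) ⊤ r) =o[L] τ :=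
    IsLittleO.sum fun i _ => (hsm i).2
  refine h2.congr_left fun r => ?_
  rw [Finset.sum_apply]

/-- **The method.** Either the characteristic of the curve is bounded by the truncated counting
functions of the zeros of the Wronskian and of the intersections with the hypersurface, or every
statement which holds for all curves with regular functions of the complement in the class holds. -/
theorem proj_or (hG : ∀ k, Differentiable ℂ (G k)) (hP : ∀ j, (P j).IsHomogeneous e) (he : 0 < e)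
    (h0 : ∀ z, ∃ j, img P G j z ≠ 0) (hd : 0 < d) (hQ : Q.IsHomogeneous d)
    (hq0 : ∃ z, eval (fun j => img P G j z) Q ≠ 0) (hgd : ∀ k, Differentiable ℂ (g k))
    {a : Fin n → Fin (M + 1) → ℂ} (hg : ∀ k z, g k z = ∑ j, a k j * G j z)
    {b : Fin (M + 1) → Fin n → ℂ} (hb : ∀ j z, G j z = ∑ k, b j k * g k z)
    (hW : ∃ z, Wr g z ≠ 0) {R : Prop}
    (hR : ∀ B : Subalgebra ℂ (ℂ → ℂ), DB B →
      (∀ α : Fin (N + 1) →₀ ℕ, ∑ j, α j = d → IterLin B (regf Q α (curve (img P G) h0))) →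
        AlgebraicOver B (curve (img P G) h0) ∨ R) :
    RB G (img P G) (Wr g) (fun z => eval (fun j => img P G j z) Q) ∨ R := by
  by_cases hRR : R
  · exact Or.inr hRR
  left
  have hG0 : ∀ z, ∃ k, G k z ≠ 0 := src_ne hP he h0
  intro ε hε
  obtain ⟨A, A', hA, hS⟩ := img_le hG hG0 hP h0
  refine eng_or hG hG0 hA hS ?_ hε
  intro L H hpos hNW hNq
  rcases hR (SmallAlg H) (db_small H) (fun α hα => by
    rw [curve_regf h0 hQ α hα]
    have hQe : (aeval P Q : MvPolynomial (Fin (M + 1)) ℂ).IsHomogeneous (e * d) :=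
      hQ.aeval P hP
    have hiter := reg_iter (Q := aeval P Q) H (isBigO_refl _ _) hG hG0 (Nat.mul_pos he hd) hQe (by
      obtain ⟨z, hz⟩ := hq0
      exact ⟨z, by rw [eval_img]; exact hz⟩) hgd hg hb hW hNW (by
        simp only [eval_img]
        exact hNq)
    have h1 := form_iter hiter (F := ∏ j, P j ^ α j) (by
      have h2 : e * d = ∑ j, e * α j := by rw [← hα, Finset.mul_sum]
      rw [h2]
      exact IsHomogeneous.prod _ _ _ fun j _ => (hP j).pow _)
    simp only [eval_img] at h1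
    have h2 : (fun z => eval (fun k => G k z) (∏ j, P j ^ α j) /
        eval (fun j => img P G j z) Q) =
        fun z => (∏ j, img P G j z ^ α j) / eval (fun j => img P G j z) Q := by
      funext z
      rw [map_prod]
      simp only [map_pow]
      rfl
    rwa [h2] at h1) with h1 | h1
  · exact tf_small H (img_diff hG) h0 h1
  · exact absurd h1 hRR

theorem IterLin.prod' {B : Subalgebra ℂ (ℂ → ℂ)} {ι : Type*} (s : Finset ι) {a : ι → ℂ → ℂ}
    (ha : ∀ i ∈ s, IterLin B (a i)) : IterLin B fun z => ∏ i ∈ s, a i z := by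
  classical
  induction s using Finset.induction_on with
  | empty =>
    simp only [Finset.prod_empty]
    exact Pool.Agent.Y377.IL.IterLin.const B 1
  | insert i s hi ih =>
    simp only [Finset.prod_insert hi]
    exact (ha i (Finset.mem_insert_self i s)).mul
      (ih fun j hj => ha j (Finset.mem_insert_of_mem hj))

theorem IterLin.eval {B : Subalgebra ℂ (ℂ → ℂ)} {σ : Type} {a : σ → ℂ → ℂ}
    (ha : ∀ i, IterLin B (a i)) (F : MvPolynomial σ ℂ) :
    IterLin B fun z => MvPolynomial.eval (fun j => a j z) F := by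
  induction F using MvPolynomial.induction_on with
  | C c =>
    simp only [eval_C]
    exact Pool.Agent.Y377.IL.IterLin.const B c
  | add p q hp hq =>
    simp only [map_add]
    exact hp.add hq
  | mul_X p i hp =>
    simp only [map_mul, eval_X]
    exact hp.mul (ha i)

/-- curves with few zeros of the Wronskian have homogeneous coordinates in the class -/
theorem coords_iter {τ : ℝ → ℝ} (H : Cmp L τ) (hT : Tf G =O[L] τ)
    (hG : ∀ k, Differentiable ℂ (G k)) (hP : ∀ j, (P j).IsHomogeneous e) (he : 0 < e)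
    (h0 : ∀ z, ∃ j, img P G j z ≠ 0) (hgd : ∀ k, Differentiable ℂ (g k))
    {a : Fin n → Fin (M + 1) → ℂ} (hg : ∀ k z, g k z = ∑ j, a k j * G j z)
    {b : Fin (M + 1) → Fin n → ℂ} (hb : ∀ j z, G j z = ∑ k, b j k * g k z)
    (hW : ∃ z, Wr g z ≠ 0) (hNW : Nb (Wr g) =o[L] τ) :
    Pool.Agent.Y377.IL.IteratedOver (SmallAlg H) (curve (img P G) h0) := by
  have hG0 : ∀ z, ∃ k, G k z ≠ 0 := src_ne hP he h0
  obtain ⟨l, hl0⟩ := hG0 0
  have hlne : ∀ᶠ z in codiscrete ℂ, G l z ≠ 0 := diff_ne (hG l) ⟨0, hl0⟩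
  have hWne : ∀ᶠ z in codiscrete ℂ, Wr g z ≠ 0 := diff_ne (Wr_diff hgd) hW
  refine ⟨fun j z => MvPolynomial.eval (fun k => G l z ^ (n - 1) / Wr g z * G k z) (P j),
    fun j => IterLin.eval (fun k => coord_iter H hT hG hG0 hgd hg hb hW hNW l k) (P j), ?_⟩
  filter_upwards [hlne, hWne] with z h1 h2
  have h3 : (fun j => MvPolynomial.eval (fun k => G l z ^ (n - 1) / Wr g z * G k z) (P j)) =
      fun j => (G l z ^ (n - 1) / Wr g z) ^ e * img P G j z := by
    funext j
    rw [eval_scale (hP j)]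
    rfl
  rw [h3]
  exact (Pool.Agent.TH143.EL.rep_smul (pow_ne_zero _ (div_ne_zero (pow_ne_zero _ h1) h2))).2
    (curve_rep h0 z)

end

end Pool.Agent.N131.SR
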