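import Mathlib
import Pool.Agent.N131.SR.Proj
import Pool.Agent.TH143.GT.Fin
import Pool.Agent.Y377.IL.AllC

/-!
The bound for curves in varieties of logarithmic general type and for curves outside the special
set of the multiplicative group.
-/

set_option autoImplicit false

namespace Pool.Agent.N131.SR

open MeasureTheory Set Filter Topology Metric Real ValueDistribution MeromorphicOn Function
open Asymptotics MvPolynomial
open scoped LinearAlgebra.Projectivization
open Pool.Agent.TH143.EL (codis_ev codis_of_ev mero_id mero_ne mero_an HolMap Rep InV)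
open Pool.Agent.Y377.IL (DB IterLin AlgRatio AlgebraicOver regf eval_scale aeval_mon GmCurve Dense)
open Pool.Agent.TH143.GT (FunField GenPt Covered Pluricanonical)
open Pool.Agent.W602.GT (IsForm LogGeneralType GeneralType)
open Pool.Agent.W603.GR (OffQ SubLogGT SubVarP)
open Pool.Agent.W603.PV (IsHomog)

/-- the data of a curve: the entire functions `G` without common zeros on the image, the forms `P`
of the degree `e > 0`, and a basis `g` of the linear span of the functions `G` -/
structure Datum {M N n : ℕ} (G : Fin (M + 1) → ℂ → ℂ) (e : ℕ)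
    (P : Fin (N + 1) → MvPolynomial (Fin (M + 1)) ℂ) (g : Fin n → ℂ → ℂ) : Prop where
  hG : ∀ k, Differentiable ℂ (G k)
  he : 0 < e
  hP : ∀ j, (P j).IsHomogeneous e
  h0 : ∀ z, ∃ j, img P G j z ≠ 0
  ind : LinearIndependent ℂ g
  span : Submodule.span ℂ (Set.range g) = Submodule.span ℂ (Set.range G)

section

variable {M N n d e : ℕ} {G : Fin (M + 1) → ℂ → ℂ}
  {P : Fin (N + 1) → MvPolynomial (Fin (M + 1)) ℂ} {g : Fin n → ℂ → ℂ}
  {Q : MvPolynomial (Fin (N + 1)) ℂ}

theorem exists_coef {n m : ℕ} {g : Fin n → ℂ → ℂ} {G : Fin m → ℂ → ℂ}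
    (h : Submodule.span ℂ (Set.range g) ≤ Submodule.span ℂ (Set.range G)) :
    ∃ a : Fin n → Fin m → ℂ, ∀ k z, g k z = ∑ j, a k j * G j z := by
  have h1 : ∀ k, ∃ c : Fin m → ℂ, ∑ j, c j • G j = g k := fun k =>
    (Submodule.mem_span_range_iff_exists_fun ℂ).1 (h (Submodule.subset_span ⟨k, rfl⟩))
  choose a ha using h1
  refine ⟨a, fun k z => ?_⟩
  rw [← ha k]
  simp

theorem Datum.data (D : Datum G e P g) : ∃ (a : Fin n → Fin (M + 1) → ℂ)
    (b : Fin (M + 1) → Fin n → ℂ), (∀ k z, g k z = ∑ j, a k j * G j z) ∧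
      (∀ j z, G j z = ∑ k, b j k * g k z) ∧ (∀ k, Differentiable ℂ (g k)) ∧
      ∃ z, Wr g z ≠ 0 := by
  obtain ⟨a, ha⟩ := exists_coef D.span.le
  obtain ⟨b, hb⟩ := exists_coef D.span.ge
  have hgd : ∀ k, Differentiable ℂ (g k) := by
    intro k
    have h1 : g k = fun z => ∑ j, a k j * G j z := funext fun z => ha k z
    rw [h1]
    exact Differentiable.fun_sum fun j _ => (D.hG j).const_mul _
  have hW : ∃ z, Wr g z ≠ 0 := by
    obtain ⟨z, hz⟩ := Pool.Agent.H159R3.NV.wron_ne g hgd (by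
      intro c hc
      have h1 := Fintype.linearIndependent_iff.1 D.ind c (by
        funext z
        have := hc z
        simpa using this)
      exact funext h1)
    refine ⟨z, ?_⟩
    unfold Wr
    rw [← Matrix.det_transpose]
    exact hz
  exact ⟨a, b, ha, hb, hgd, hW⟩

theorem Datum.or (D : Datum G e P g) (hd : 0 < d) (hQ : Q.IsHomogeneous d)
    (hq0 : ∃ z, eval (fun j => img P G j z) Q ≠ 0) {R : Prop}
    (hR : ∀ B : Subalgebra ℂ (ℂ → ℂ), DB B →
      (∀ α : Fin (N + 1) →₀ ℕ, ∑ j, α j = d → IterLin B (regf Q α (curve (img P G) D.h0))) →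
        AlgebraicOver B (curve (img P G) D.h0) ∨ R) :
    RB G (img P G) (Wr g) (fun z => eval (fun j => img P G j z) Q) ∨ R := by
  obtain ⟨a, b, ha, hb, hgd, hW⟩ := D.data
  exact proj_or D.hG D.hP D.he D.h0 hd hQ hq0 hgd ha hb hW hR

theorem Datum.gne (D : Datum G e P g) : ∀ z, ∃ k, G k z ≠ 0 := src_ne D.hP D.he D.h0

/-- **The method for projective varieties.** -/
theorem Datum.proj (D : Datum G e P g) {q : ℂ → ℂ} {R : Prop}
    (hR : ∀ B : Subalgebra ℂ (ℂ → ℂ), DB B →
      Pool.Agent.Y377.IL.IteratedOver B (curve (img P G) D.h0) →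
        AlgebraicOver B (curve (img P G) D.h0) ∨ R) :
    RB G (img P G) (Wr g) q ∨ R := by
  by_cases hRR : R
  · exact Or.inr hRR
  left
  obtain ⟨a, b, ha, hb, hgd, hW⟩ := D.data
  intro ε hε
  obtain ⟨A, A', hA, hS⟩ := img_le D.hG D.gne D.hP D.h0
  refine eng_or D.hG D.gne hA hS ?_ hε
  intro L H hpos hNW _
  rcases hR (SmallAlg H) (db_small H)
    (coords_iter H (isBigO_refl _ _) D.hG D.hP D.he D.h0 hgd ha hb hW hNW) with h1 | h1
  · exact tf_small H (img_diff D.hG) D.h0 h1
  · exact absurd h1 hRR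

theorem Datum.form (D : Datum G e P g) {F : MvPolynomial (Fin (N + 1)) ℂ} (hF : IsForm F) (z : ℂ) :
    eval (curve (img P G) D.h0 z).rep F = 0 ↔ eval (fun j => img P G j z) F = 0 := by
  obtain ⟨m, hm⟩ := hF
  exact curve_form D.h0 hm z

theorem Datum.gt_pos (D : Datum G e P g) (hd : 0 < d) (hQ : Q.IsHomogeneous d)
    {p : Ideal (MvPolynomial (Fin (N + 1)) ℂ)} {K : Type} [Field K] [Algebra ℂ K]
    {w : ℕ} {y : Fin (N + 1) → K} (hy : FunField p Q K w y)
    (hL : LogGeneralType ℂ K w (OffQ Q d y))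
    (hI : ∀ F ∈ p, IsForm F → ∀ z, eval (fun j => img P G j z) F = 0)
    (hden : ∀ F, IsForm F → (∀ z, eval (fun j => img P G j z) F = 0) → F ∈ p) :
    RB G (img P G) (Wr g) (fun z => eval (fun j => img P G j z) Q) := by
  have hq0 : ∃ z, eval (fun j => img P G j z) Q ≠ 0 := by
    by_contra hcon
    push Not at hcon
    exact hy.sub.off (hy.sub.mem Q (hden Q ⟨d, hQ⟩ hcon))
  have hX : ∀ᶠ z in codiscrete ℂ, eval (curve (img P G) D.h0 z).rep Q ≠ 0 := by
    filter_upwards [diff_ne (form_diff (img_diff D.hG) Q) hq0] with z hz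
    rwa [Ne, D.form ⟨d, hQ⟩]
  rcases D.or (R := False) hd hQ hq0 (fun B hB hl => by
    rcases log_not_gt hy hd hQ hB (curve_hol (img_diff D.hG) D.h0) (fun z F hF hFh => by
      rw [D.form hFh]
      exact hI F hF hFh z) hX hl (fun F hF h => hden F hF fun z => (D.form hF z).1 (h z))
      with h1 | h1
    · exact Or.inl h1
    · exact absurd hL h1) with h | h
  · exact h
  · exact h.elim

/-- **Projective varieties.** -/
theorem Datum.kod (D : Datum G e P g) {q : ℂ → ℂ}
    {p : Ideal (MvPolynomial (Fin (N + 1)) ℂ)} {K : Type} [Field K] [Algebra ℂ K]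
    {w : ℕ} {y : Fin (N + 1) → K} (hy : FunField p 1 K w y)
    (hK : ¬ (Covered K ∧ ∀ n : ℕ, 0 < n → ∀ ω : (Fin w → Derivation ℂ K K) → K,
      Pluricanonical w n ω → ω = 0))
    (hI : ∀ F ∈ p, IsForm F → ∀ z, eval (fun j => img P G j z) F = 0)
    (hden : ∀ F, IsForm F → (∀ z, eval (fun j => img P G j z) F = 0) → F ∈ p) :
    RB G (img P G) (Wr g) q := by
  rcases D.proj (R := False) (q := q) (fun B hB hl => by
    rcases Pool.Agent.Y377.IL.gen_K hy (curve_hol (img_diff D.hG) D.h0) (fun z F hF hFh => by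
      rw [D.form hFh]
      exact hI F hF hFh z) (fun F hF h => hden F hF fun z => (D.form hF z).1 (h z)) hB hl
      with h1 | h1
    · exact Or.inl h1
    · exact absurd h1 hK) with h | h
  · exact h
  · exact h.elim

theorem const_form {Q : MvPolynomial (Fin (N + 1)) ℂ} (hQ : Q.IsHomogeneous 0) :
    ∃ c : ℂ, Q = C c := by
  refine ⟨coeff 0 Q, ?_⟩
  apply totalDegree_eq_zero_iff_eq_C.1
  exact Nat.le_zero.1 hQ.totalDegree_le

theorem gt_of_log {K : Type} [Field K] [Algebra ℂ K] {w : ℕ} {y : Fin (N + 1) → K}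
    (hQ : Q.IsHomogeneous 0) (h0 : W602.GT.val y Q ≠ 0)
    (h : LogGeneralType ℂ K w (OffQ Q 0 y)) : GeneralType ℂ K w := by
  obtain ⟨h1, m, hm, ω, h2, h3, h4, h5⟩ := h
  refine ⟨h1, m, hm, ω, h2, fun P hP j => h4 P hP ?_ j, h5⟩
  rintro ⟨i, -, hi⟩
  obtain ⟨c, rfl⟩ := const_form hQ
  unfold W602.GT.val at h0 hi
  rw [aeval_C] at h0 hi
  have hc : c ≠ 0 := by
    intro h6
    rw [h6, map_zero] at h0
    exact h0 rfl
  rw [P.ord_const hc] at hi
  simp at hi

/-- **Logarithmic general type.** -/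
theorem Datum.gt (D : Datum G e P g) (hQ : Q.IsHomogeneous d)
    {p : Ideal (MvPolynomial (Fin (N + 1)) ℂ)} {K : Type} [Field K] [Algebra ℂ K]
    {w : ℕ} {y : Fin (N + 1) → K} (hy : FunField p Q K w y)
    (hL : LogGeneralType ℂ K w (OffQ Q d y))
    (hI : ∀ F ∈ p, IsForm F → ∀ z, eval (fun j => img P G j z) F = 0)
    (hden : ∀ F, IsForm F → (∀ z, eval (fun j => img P G j z) F = 0) → F ∈ p) :
    RB G (img P G) (Wr g) (fun z => eval (fun j => img P G j z) Q) := by
  rcases Nat.eq_zero_or_pos d with hd | hd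
  · subst hd
    have hG := gt_of_log hQ hy.sub.off hL
    refine D.kod (y := y) ⟨⟨hy.sub.ne, hy.sub.mem, ?_, hy.sub.gen, hy.sub.dim⟩, hy.mem⟩ ?_ hI hden
    · unfold W602.GT.val
      rw [map_one]
      exact one_ne_zero
    · rintro ⟨-, h⟩
      obtain ⟨m, hm, ω, h1, h2⟩ := Pool.Agent.Y377.IL.form_of_gt hG
      exact h2 (h m hm ω h1)
  · exact D.gt_pos hd hQ hy hL hI hden

theorem Datum.gm_pos (D : Datum G e P g) (hd : 0 < d) (hQ : Q.IsHomogeneous d)
    (hq0 : ∃ z, eval (fun j => img P G j z) Q ≠ 0)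
    {I : Ideal (MvPolynomial (Fin (N + 1)) ℂ)}
    (hI : ∀ F ∈ I, IsForm F → ∀ z, eval (fun j => img P G j z) F = 0) :
    RB G (img P G) (Wr g) (fun z => eval (fun j => img P G j z) Q) ∨
    ∀ F : MvPolynomial (Fin (N + 1)) ℂ, IsForm F →
      (∀ p : Fin (N + 1) → Polynomial ℂ, GmCurve I Q p → ∀ t, t ≠ 0 →
        eval (fun j => (p j).eval t) F = 0) → ∀ z, eval (fun j => img P G j z) F = 0 := by
  have hX : ∀ᶠ z in codiscrete ℂ, eval (curve (img P G) D.h0 z).rep Q ≠ 0 := by
    filter_upwards [diff_ne (form_diff (img_diff D.hG) Q) hq0] with z hz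
    rwa [Ne, D.form ⟨d, hQ⟩]
  apply D.or hd hQ hq0
  intro B hB hl
  rcases log_cover hd hQ hB (curve_hol (img_diff D.hG) D.h0) (fun z F hF hFh => by
      rw [D.form hFh]
      exact hI F hF hFh z) hX hl with h1 | h1
  · exact Or.inl h1
  · right
    intro F hF hp z
    rw [← D.form hF]
    exact h1 F hF hp z

theorem poly_all {P : Polynomial ℂ} (h : ∀ t, t ≠ 0 → P.eval t = 0) (t : ℂ) : P.eval t = 0 := by
  rw [Pool.Agent.Y377.IL.poly_ne h, Polynomial.eval_zero]

theorem eval_poly (p : Fin (N + 1) → Polynomial ℂ) (F : MvPolynomial (Fin (N + 1)) ℂ) (u : ℂ) :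
    (aeval p F : Polynomial ℂ).eval u = eval (fun j => (p j).eval u) F := by
  have e1 := MvPolynomial.comp_aeval_apply (f := p) (Polynomial.aeval u) F
  rw [Polynomial.coe_aeval_eq_eval] at e1
  rw [e1, MvPolynomial.aeval_eq_eval]

/-- **The special set of the multiplicative group.** -/
theorem Datum.gm (D : Datum G e P g) (hQ : Q.IsHomogeneous d)
    (hq0 : ∃ z, eval (fun j => img P G j z) Q ≠ 0)
    {I : Ideal (MvPolynomial (Fin (N + 1)) ℂ)}
    (hI : ∀ F ∈ I, IsForm F → ∀ z, eval (fun j => img P G j z) F = 0) :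
    RB G (img P G) (Wr g) (fun z => eval (fun j => img P G j z) Q) ∨
    ∀ F : MvPolynomial (Fin (N + 1)) ℂ, IsForm F →
      (∀ p : Fin (N + 1) → Polynomial ℂ, GmCurve I Q p → ∀ t, t ≠ 0 →
        eval (fun j => (p j).eval t) F = 0) → ∀ z, eval (fun j => img P G j z) F = 0 := by
  rcases Nat.eq_zero_or_pos d with hd | hd
  · subst hd
    obtain ⟨c, rfl⟩ := const_form hQ
    have hc : c ≠ 0 := by
      obtain ⟨z, hz⟩ := hq0
      rwa [eval_C] at hz
    let S : Set (MvPolynomial (Fin (N + 1)) ℂ) := {F | IsForm F ∧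
      ∀ p : Fin (N + 1) → Polynomial ℂ, GmCurve I (C c) p → ∀ t, t ≠ 0 →
        eval (fun j => (p j).eval t) F = 0}
    have hR : Pool.Agent.TH143.HE.RatCurvesIn (RingHom.id ℂ) I (Ideal.span S) := by
      intro p hp hnc
      have hgm : GmCurve I (C c) p := by
        refine ⟨fun t _ => by rwa [eval_C], fun t _ F hF hFh => hp t F hF hFh, ?_⟩
        by_contra hcon
        push Not at hcon
        obtain ⟨j, k, u, v, huv⟩ := hnc
        apply huv
        have h1 : ∀ t, t ≠ 0 → ∀ u j k, (p j).eval t * (p k).eval u =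
            (p k).eval t * (p j).eval u := by
          intro t ht u j k
          have h2 : ∀ u, u ≠ 0 → (Polynomial.C ((p j).eval t) * p k -
              Polynomial.C ((p k).eval t) * p j).eval u = 0 := by
            intro u hu
            simp only [Polynomial.eval_sub, Polynomial.eval_mul, Polynomial.eval_C]
            exact sub_eq_zero.2 (hcon t u j k ht hu)
          have h3 := poly_all h2 u
          simp only [Polynomial.eval_sub, Polynomial.eval_mul, Polynomial.eval_C] at h3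
          exact sub_eq_zero.1 h3
        have h4 : ∀ t, t ≠ 0 → (p j * Polynomial.C ((p k).eval v) -
            p k * Polynomial.C ((p j).eval v)).eval t = 0 := by
          intro t ht
          simp only [Polynomial.eval_sub, Polynomial.eval_mul, Polynomial.eval_C]
          exact sub_eq_zero.2 (h1 t ht v j k)
        have h5 := poly_all h4 u
        simp only [Polynomial.eval_sub, Polynomial.eval_mul, Polynomial.eval_C] at h5
        exact sub_eq_zero.1 h5
      have hall : ∀ F ∈ Ideal.span S, ∀ u, MvPolynomial.eval (fun j => (p j).eval u) F = 0 := by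
        intro F hF
        refine Submodule.span_induction (p := fun (F : MvPolynomial (Fin (N + 1)) ℂ) _ =>
          ∀ u, MvPolynomial.eval (fun j => (p j).eval u) F = 0) ?_ ?_ ?_ ?_ hF
        · intro F hF u
          rw [← eval_poly]
          apply poly_all
          intro t ht
          rw [eval_poly]
          exact hF.2 p hgm t ht
        · exact fun u => map_zero _
        · intro F F' _ _ h1 h2 u
          rw [map_add, h1 u, h2 u, add_zero]
        · intro a F _ h1 u
          rw [smul_eq_mul, map_mul, h1 u, mul_zero]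
      exact fun u F hF _ => hall F hF u
    rcases D.proj (R := ∀ z, InV (Ideal.span S) (curve (img P G) D.h0 z))
      (q := fun z => eval (fun j => img P G j z) (C c)) (fun B hB hl =>
        (Pool.Agent.Y377.IL.dich_gen hR hB (curve_hol (img_diff D.hG) D.h0) hl
          (fun z F hF hFh => by
            rw [D.form hFh]
            exact hI F hF hFh z)).symm) with h | h
    · exact Or.inl h
    · right
      intro F hF hp z
      rw [← D.form hF]
      exact h z F (Ideal.subset_span ⟨hF, hp⟩) hF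
  · exact D.gm_pos hd hQ hq0 hI

/-- constant curves -/
theorem rb_const (hG : ∀ k, Differentiable ℂ (G k)) (hG0 : ∀ z, ∃ k, G k z ≠ 0)
    {f : Fin (N + 1) → ℂ → ℂ} {w q : ℂ → ℂ}
    (hf : ∀ j, Differentiable ℂ (f j)) (h0 : ∀ z, ∃ j, f j z ≠ 0) {l : Fin (N + 1)}
    (hc : ∀ j, ∃ c : ℂ, ∀ z, f j z = c * f l z) : RB G f w q := by
  choose c hc using hc
  have hl : ∀ z, f l z ≠ 0 := by
    intro z hz
    obtain ⟨j, hj⟩ := h0 z
    apply hj
    rw [hc j z, hz, mul_zero]
  obtain ⟨C, hC⟩ := Tf_le hf h0 l ⟨0, hl 0⟩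
  obtain ⟨C0, hC0⟩ := Tf_lower hG hG0
  have h1 : ∀ r, 1 ≤ r → Tf f r ≤ ∑ i, log⁺ ‖c i‖ + C := by
    intro r hr
    refine (hC r hr).trans (le_of_eq ?_)
    congr 1
    apply Finset.sum_congr rfl
    intro i _
    have h2 : (fun z => f i z / f l z) = fun _ => c i := by
      funext z
      rw [hc i z, mul_div_assoc, div_self (hl z), mul_one]
    rw [h2, char_const]
  intro ε hε
  refine ⟨|∑ i, log⁺ ‖c i‖ + C + ε * C0| / log 2, Set.Icc 1 2, ?_, fun r hr hrE => ?_⟩
  · rw [Real.volume_Icc]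
    exact ENNReal.ofReal_lt_top
  · have h2 : 2 ≤ r := by
      by_contra hcon
      push Not at hcon
      exact hrE ⟨hr, hcon.le⟩
    have h3 : 0 < log 2 := Real.log_pos (by norm_num)
    have h4 : log 2 ≤ log r := Real.log_le_log (by norm_num) h2
    have h5 := Nb_nonneg (h := w) hr
    have h6 := Nb_nonneg (h := q) hr
    have h7 : |∑ i, log⁺ ‖c i‖ + C + ε * C0| ≤ |∑ i, log⁺ ‖c i‖ + C + ε * C0| / log 2 *
        (Nb w r + Nb q r + log r) := by
      calc |∑ i, log⁺ ‖c i‖ + C + ε * C0| = |∑ i, log⁺ ‖c i‖ + C + ε * C0| / log 2 * log 2 := by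
            field_simp
        _ ≤ _ := by
          apply mul_le_mul_of_nonneg_left
          · linarith
          · positivity
    have h8 := le_abs_self (∑ i, log⁺ ‖c i‖ + C + ε * C0)
    have h9 : ε * (-C0) ≤ ε * Tf G r := mul_le_mul_of_nonneg_left (hC0 r hr) hε.le
    have h10 := h1 r hr
    linarith

/-- **All subvarieties which are not contained in a hypersurface are of logarithmic general
type.** -/
theorem Datum.sub (D : Datum G e P g) (hQ : Q.IsHomogeneous d)
    {p : Ideal (MvPolynomial (Fin (N + 1)) ℂ)} (hp : IsHomog p)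
    {A : MvPolynomial (Fin (N + 1)) ℂ} (hA : IsForm A) (hS : SubLogGT p Q d A)
    (hI : ∀ F ∈ p, IsForm F → ∀ z, eval (fun j => img P G j z) F = 0)
    (hq0 : ∃ z, eval (fun j => img P G j z) Q ≠ 0)
    (hA0 : ∃ z, eval (fun j => img P G j z) A ≠ 0) :
    RB G (img P G) (Wr g) (fun z => eval (fun j => img P G j z) Q) := by
  have hd' : ∀ j, Differentiable ℂ (img P G j) := img_diff D.hG
  have hfa : ∀ j, AnalyticOnNhd ℂ (fun w => img P G j w) univ := fun j z _ => (hd' j).analyticAt z
  obtain ⟨j0, hj0⟩ := D.h0 0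
  obtain ⟨K, i1, i2, w, y, h1, h2, h3, h4, h5⟩ := Pool.Agent.TH143.GT.exists_closure
    (fun z j => img P G j z) isPreconnected_univ hfa ⟨0, mem_univ _, hj0⟩
  have hy : GenPt (fun z j => img P G j z) univ K w y := ⟨h1, h2, h3, h4⟩
  rcases Nat.eq_zero_or_pos w with hw | hw
  · exact rb_const D.hG D.gne hd' D.h0 (l := j0) fun j => by
      obtain ⟨c, hc⟩ := h5 hw j
      exact ⟨c, fun z => hc z (mem_univ z)⟩
  · have hIall : ∀ z, ∀ H ∈ p, eval (fun j => img P G j z) H = 0 := by
      intro z H hH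
      rw [← sum_homogeneousComponent H, map_sum]
      refine Finset.sum_eq_zero fun m _ => ?_
      exact hI _ (hp H hH m) ⟨m, homogeneousComponent_isHomogeneous m H⟩ z
    obtain ⟨z1, hz1⟩ := hq0
    have hsub := Pool.Agent.TH143.GT.subVar_of_genPt hp hQ hy (fun z _ => hIall z)
      ⟨z1, mem_univ _, hz1⟩
    have hAy : W602.GT.val y A ≠ 0 := by
      intro h0
      obtain ⟨z, hz⟩ := hA0
      exact hz ((hy.rel A hA).1 h0 z (mem_univ z))
    have hL := hS K w y hw hsub hAy
    -- the ideal of the closure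
    let p' : Ideal (MvPolynomial (Fin (N + 1)) ℂ) :=
      Ideal.span {F | IsForm F ∧ ∀ z, eval (fun j => img P G j z) F = 0}
    have hp' : ∀ F ∈ p', (∀ z, eval (fun j => img P G j z) F = 0) ∧ W602.GT.val y F = 0 := by
      intro F hF
      refine Submodule.span_induction (p := fun (F : MvPolynomial (Fin (N + 1)) ℂ) _ =>
        (∀ z, MvPolynomial.eval (fun j => img P G j z) F = 0) ∧
        W602.GT.val y F = 0) ?_ ?_ ?_ ?_ hF
      · rintro F ⟨hF1, hF2⟩
        exact ⟨hF2, (hy.rel F hF1).2 fun z _ => hF2 z⟩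
      · refine ⟨fun z => map_zero _, ?_⟩
        unfold W602.GT.val
        rw [map_zero]
      · rintro F F' _ _ ⟨h1, h2⟩ ⟨h3, h4⟩
        refine ⟨fun z => by rw [map_add, h1 z, h3 z, add_zero], ?_⟩
        unfold W602.GT.val at *
        rw [map_add, h2, h4, add_zero]
      · rintro c F _ ⟨h1, h2⟩
        refine ⟨fun z => by rw [smul_eq_mul, map_mul, h1 z, mul_zero], ?_⟩
        unfold W602.GT.val at *
        rw [smul_eq_mul, map_mul, h2, mul_zero]
    have hyF : FunField p' Q K w y := by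
      refine ⟨⟨h1, fun H hH => (hp' H hH).2, hsub.off, h2, h3⟩, fun H hH h0 => ?_⟩
      exact Ideal.subset_span ⟨hH, fun z => (hy.rel H hH).1 h0 z (mem_univ z)⟩
    exact D.gt hQ hyF hL (fun F hF _ => (hp' F hF).1) fun F hF h => Ideal.subset_span ⟨hF, h⟩

end

end Pool.Agent.N131.SR
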